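import Pool.Agent.TH103.BL.Par
import Pool.Agent.W762.BB.Open
import Pool.Agent.W108.BB.Uniq
import Pool.Agent.W337.BB.Gen

set_option autoImplicit false

/-!
Itineraries of orbits; for almost every direction, every orbit comes close to a vertex.
-/

namespace Pool.Agent.TH103.BL

open Complex Set MeasureTheory Filter Topology Pool.Agent.W780.PG Pool.Agent.W780.BB

open scoped Real ComplexConjugate

variable {n : ℕ} {p : Fin (n + 3) → ℂ}

theorem srcs_shift (X : ℂ) (u : ℕ → Fin (n + 3)) (k : ℕ) :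
    srcs p (rf p (u 0) X) (fun k => u (k + 1)) k = srcs p X u (k + 1) := by
  induction k with
  | zero => rfl
  | succ k ih =>
    show rf p (u (k + 1)) (srcs p (rf p (u 0) X) (fun k => u (k + 1)) k) = _
    rw [ih]
    rfl

theorem angs_shift (φ : ℝ) (u : ℕ → Fin (n + 3)) (k : ℕ) :
    angs p (2 * tau p (u 0) - φ) (fun k => u (k + 1)) k = angs p φ u (k + 1) := by
  induction k with
  | zero => rfl
  | succ k ih =>
    show 2 * tau p (u (k + 1)) - angs p (2 * tau p (u 0) - φ) (fun k => u (k + 1)) k = _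
    rw [ih]
    rfl

theorem ch_of (hp : IsConvexPolygon p) : ∀ (K : ℕ) (u : ℕ → Fin (n + 3)) (t : ℕ → ℝ) (X : ℂ)
    (φ b s : ℝ), (∀ k < K, srcs p X u k + t k • dir (angs p φ u k) ∈ side p (u k)) →
    (∀ k < K, sl p (u k) (angs p φ u k) < 0) → (0 < K → b < t 0) →
    (∀ k, k + 1 < K → t k < t (k + 1)) → (∀ k < K, t k < s) →
    srcs p X u K + s • dir (angs p φ u K) ∈ reg p →
    Ch p ((List.range K).map u) (X + b • dir φ) (X + s • dir φ) := by
  intro K
  induction K with
  | zero =>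
    intro u t X φ b s _ _ _ _ _ h
    exact h
  | succ K ih =>
    intro u t X φ b s h1 h2 h3 h4 h5 h6
    have e0 : (List.range (K + 1)).map u = u 0 :: (List.range K).map (fun k => u (k + 1)) := by
      rw [List.range_succ_eq_map, List.map_cons, List.map_map]
      rfl
    rw [e0]
    have hs0 : X + t 0 • dir φ ∈ side p (u 0) := h1 0 (Nat.succ_pos K)
    have hsl : sl p (u 0) φ < 0 := h2 0 (Nat.succ_pos K)
    have hz : sf p (u 0) (X + t 0 • dir φ) = 0 := side_zero hp hs0
    have hb : b < t 0 := h3 (Nat.succ_pos K)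
    have hs : t 0 < s := h5 0 (Nat.succ_pos K)
    rw [sf_ray] at hz
    have hX : sf p (u 0) X = - (t 0 * sl p (u 0) φ) := by linarith
    have hB : sf p (u 0) (X + b • dir φ) = (t 0 - b) * (- sl p (u 0) φ) := by
      rw [sf_ray, hX]; ring
    have hA : sf p (u 0) (X + s • dir φ) = - ((s - t 0) * (- sl p (u 0) φ)) := by
      rw [sf_ray, hX]; ring
    have hcr : cr p (u 0) (X + b • dir φ) (X + s • dir φ) = X + t 0 • dir φ := by
      unfold cr
      rw [hB, hA]
      have e1 : (t 0 - b) * (- sl p (u 0) φ) - - ((s - t 0) * (- sl p (u 0) φ)) =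
          (s - b) * (- sl p (u 0) φ) := by ring
      have hne : - sl p (u 0) φ ≠ 0 := ne_of_gt (by linarith)
      have hsb : s - b ≠ 0 := ne_of_gt (by linarith)
      have e2 : (t 0 - b) * (- sl p (u 0) φ) / ((s - b) * (- sl p (u 0) φ)) =
          (t 0 - b) / (s - b) := by
        rw [mul_div_mul_right _ _ hne]
      have e3 : X + s • dir φ - (X + b • dir φ) = (s - b) • dir φ := by rw [sub_smul]; ring
      rw [e1, e2, e3, smul_smul, div_mul_cancel₀ _ hsb, sub_smul]
      ring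
    refine ⟨?_, ?_, ?_, ?_⟩
    · rw [hB]
      exact mul_pos (by linarith) (by linarith)
    · rw [hA]
      have := mul_pos (show 0 < s - t 0 by linarith) (show 0 < - sl p (u 0) φ by linarith)
      linarith
    · intro j hj
      rw [hcr]
      exact side_pos hp hs0 hj
    · rw [hcr]
      have e4 : X + t 0 • dir φ = rf p (u 0) X + t 0 • dir (2 * tau p (u 0) - φ) := by
        rw [← rf_ray hp]
        exact (rf_fix hp _ _ (side_zero hp hs0)).symm
      rw [rf_ray hp, e4]
      refine ih (fun k => u (k + 1)) (fun k => t (k + 1)) (rf p (u 0) X)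
        (2 * tau p (u 0) - φ) (t 0) s ?_ ?_ ?_ ?_ ?_ ?_
      · intro k hk
        rw [srcs_shift, angs_shift]
        exact h1 (k + 1) (by omega)
      · intro k hk
        rw [angs_shift]
        exact h2 (k + 1) (by omega)
      · intro hK
        exact h4 0 (by omega)
      · intro k hk
        exact h4 (k + 1) (by omega)
      · intro k hk
        exact h5 (k + 1) (by omega)
      · rw [srcs_shift, angs_shift]
        exact h6

variable {z : ℂ} {θ : ℝ} {u : ℕ → Fin (n + 3)} {t : ℕ → ℝ}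

theorem sl_neg (hp : IsConvexPolygon p) (O : Orb p z θ u t) (k : ℕ) :
    sl p (u k) (angs p θ u k) < 0 := by
  have h0 : sf p (u k) (srcs p z u k + t k • dir (angs p θ u k)) = 0 := side_zero hp (O.hit k)
  have hlt := tp_lt O k
  have h1 := ps_in O k (s := (tp t k + t k) / 2) (by linarith) (by linarith) (u k)
  change 0 < sf p (u k) (srcs p z u k + ((tp t k + t k) / 2) • dir (angs p θ u k)) at h1
  rw [sf_ray] at h0 h1
  by_contra hcon
  push Not at hcon
  have := mul_nonneg (show 0 ≤ t k - (tp t k + t k) / 2 by linarith) hcon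
  have e : (t k - (tp t k + t k) / 2) * sl p (u k) (angs p θ u k) =
    (sf p (u k) (srcs p z u k) + t k * sl p (u k) (angs p θ u k)) -
    (sf p (u k) (srcs p z u k) + (tp t k + t k) / 2 * sl p (u k) (angs p θ u k)) := by ring
  rw [e, h0] at this
  linarith

theorem lt_of_tp (O : Orb p z θ u t) {K k : ℕ} {s : ℝ} (hs : tp t K < s) (hk : k < K) :
    t k < s := by
  cases K with
  | zero => omega
  | succ K =>
    have : t k ≤ t K := O.tmono.monotone (by omega)
    exact this.trans_lt hs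

theorem orb_ch (hp : IsConvexPolygon p) (O : Orb p z θ u t) {K : ℕ} {s : ℝ}
    (h1 : tp t K < s) (h2 : s < t K) : Ch p ((List.range K).map u) z (z + s • dir θ) := by
  have h := ch_of hp K u t z θ 0 s (fun k _ => O.hit k) (fun k _ => sl_neg hp O k)
    (fun _ => O.pos) (fun k _ => O.mono k) (fun k hk => lt_of_tp O h1 hk) (ps_in O K h1 h2)
  rwa [zero_smul, add_zero] at h

theorem ch_mem (w : List (Fin (n + 3))) : ∀ (B A : ℂ), Ch p w B A → fp p w A ∈ reg p := by
  induction w with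
  | nil => intro B A h; exact h
  | cons i w ih => intro B A h; exact ih _ _ h.2.2.2

theorem ps_pt (hp : IsConvexPolygon p) (O : Orb p z θ u t) (K : ℕ) :
    ps p z θ u (K + 1) (t K) = ps p z θ u K (t K) := pt_next hp O K

theorem ps_dist (hp : IsConvexPolygon p) (O : Orb p z θ u t) (K : ℕ) :
    ∀ s, tp t K ≤ s → ‖ps p z θ u K s - z‖ ≤ s := by
  induction K with
  | zero =>
    intro s hs
    show ‖z + s • dir θ - z‖ ≤ s
    rw [add_sub_cancel_left, norm_smul, norm_dir, mul_one, Real.norm_eq_abs, abs_of_nonneg hs]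
  | succ K ih =>
    intro s hs
    have h1 := ih (t K) (tp_lt O K).le
    have hs' : t K ≤ s := hs
    calc ‖ps p z θ u (K + 1) s - z‖ = ‖(ps p z θ u (K + 1) s - ps p z θ u (K + 1) (t K)) +
          (ps p z θ u K (t K) - z)‖ := by rw [ps_pt hp O]; congr 1; ring
      _ ≤ ‖ps p z θ u (K + 1) s - ps p z θ u (K + 1) (t K)‖ + ‖ps p z θ u K (t K) - z‖ :=
          norm_add_le _ _
      _ ≤ (s - t K) + t K := by
          rw [ps_diff, abs_of_nonneg (by linarith)]
          linarith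
      _ = s := by ring

/-- the states whose orbits come within `ε` of a vertex -/
def App (p : Fin (n + 3) → ℂ) (ε : ℝ) : Set (ℂ × ℝ) :=
  {x | ∃ (w : List (Fin (n + 3))) (q : ℝ) (j : Fin (n + 3)), 0 < q ∧
    Ch p w x.1 (x.1 + q • dir x.2) ∧ ‖(fd p w (x.1 + q • dir x.2, x.2)).1 - p j‖ < ε}

theorem fd_cont (hp : IsConvexPolygon p) (w : List (Fin (n + 3))) : Continuous (fd p w) :=
  (Pool.Agent.W333.BB.mp n p hp w).1

theorem app_open (hp : IsConvexPolygon p) (ε : ℝ) : IsOpen (App p ε) := by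
  have e : App p ε = ⋃ (w : List (Fin (n + 3))), ⋃ (q : ℝ), ⋃ (j : Fin (n + 3)),
      {x | 0 < q ∧ Ch p w x.1 (x.1 + q • dir x.2) ∧
        ‖(fd p w (x.1 + q • dir x.2, x.2)).1 - p j‖ < ε} := by
    ext x
    simp only [App, mem_ofPred_eq, mem_iUnion]
  rw [e]
  refine isOpen_iUnion fun w => isOpen_iUnion fun q => isOpen_iUnion fun j => ?_
  have hc : Continuous fun x : ℂ × ℝ => x.1 + q • dir x.2 :=
    continuous_fst.add ((continuous_dir.comp continuous_snd).const_smul q)
  have h1 : IsOpen {x : ℂ × ℝ | Ch p w x.1 (x.1 + q • dir x.2)} :=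
    (Pool.Agent.W762.BB.open_it n p hp w).preimage (continuous_fst.prodMk hc)
  have h2 : IsOpen {x : ℂ × ℝ | ‖(fd p w (x.1 + q • dir x.2, x.2)).1 - p j‖ < ε} := by
    refine isOpen_lt ?_ continuous_const
    exact ((continuous_fst.comp ((fd_cont hp w).comp (hc.prodMk continuous_snd))).sub
      continuous_const).norm
  by_cases hq : 0 < q
  · have : {x : ℂ × ℝ | 0 < q ∧ Ch p w x.1 (x.1 + q • dir x.2) ∧
        ‖(fd p w (x.1 + q • dir x.2, x.2)).1 - p j‖ < ε} =
        {x : ℂ × ℝ | Ch p w x.1 (x.1 + q • dir x.2)} ∩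
        {x : ℂ × ℝ | ‖(fd p w (x.1 + q • dir x.2, x.2)).1 - p j‖ < ε} := by
      ext x; simp [hq]
    rw [this]
    exact h1.inter h2
  · have : {x : ℂ × ℝ | 0 < q ∧ Ch p w x.1 (x.1 + q • dir x.2) ∧
        ‖(fd p w (x.1 + q • dir x.2, x.2)).1 - p j‖ < ε} = ∅ := by
      ext x; simp [hq]
    rw [this]
    exact isOpen_empty

theorem app_of_orb (hp : IsConvexPolygon p) (O : Orb p z θ u t) {K : ℕ} {s ε : ℝ}
    {j : Fin (n + 3)} (h1 : tp t K < s) (h2 : s < t K) (h : ‖ps p z θ u K s - p j‖ < ε) :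
    (z, θ) ∈ App p ε := by
  refine ⟨(List.range K).map u, s, j, (tp_nonneg O K).trans_lt h1, orb_ch hp O h1 h2, ?_⟩
  simp only
  rw [fd_word hp]
  exact h

theorem app_slice (hp : IsConvexPolygon p) (hz : z ∈ reg p) {ε : ℝ} (hε : 0 < ε) :
    ∀ᵐ θ : ℝ, (z, θ) ∈ App p ε := by
  filter_upwards [approach hp hz (half_pos hε)] with θ hθ
  obtain ⟨u, t, O, k, j, hk⟩ := hθ
  have hm := O.mono k
  set s : ℝ := t k + min (ε / 2) (t (k + 1) - t k) / 2 with hs
  have h1 : 0 < min (ε / 2) (t (k + 1) - t k) := lt_min (by linarith) (by linarith)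
  have h2 := min_le_left (ε / 2) (t (k + 1) - t k)
  have h3 := min_le_right (ε / 2) (t (k + 1) - t k)
  refine app_of_orb hp O (K := k + 1) (s := s) (j := j) (by show t k < s; linarith)
    (by linarith) ?_
  calc ‖ps p z θ u (k + 1) s - p j‖ = ‖(ps p z θ u (k + 1) s - ps p z θ u (k + 1) (t k)) +
        (ps p z θ u k (t k) - p j)‖ := by rw [ps_pt hp O]; congr 1; ring
    _ ≤ ‖ps p z θ u (k + 1) s - ps p z θ u (k + 1) (t k)‖ + ‖ps p z θ u k (t k) - p j‖ :=
        norm_add_le _ _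
    _ < ε / 2 + ε / 2 := by
        rw [ps_diff, abs_of_pos (by linarith)]
        have : ‖ps p z θ u k (t k) - p j‖ < ε / 2 := hk
        linarith
    _ = ε := by ring

theorem app_ae (hp : IsConvexPolygon p) {ε : ℝ} (hε : 0 < ε) :
    ∀ᵐ x : ℂ × ℝ, x.1 ∈ reg p → x ∈ App p ε := by
  have hm : MeasurableSet {x : ℂ × ℝ | x.1 ∈ reg p ∧ x ∉ App p ε} :=
    (measurable_fst (reg_open hp).measurableSet).inter (app_open hp ε).measurableSet.compl
  have h3 : volume {x : ℂ × ℝ | x.1 ∈ reg p ∧ x ∉ App p ε} = 0 := by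
    rw [Measure.volume_eq_prod, Measure.measure_prod_null hm]
    refine Eventually.of_forall fun z => ?_
    show volume {θ : ℝ | z ∈ reg p ∧ (z, θ) ∉ App p ε} = 0
    by_cases hz : z ∈ reg p
    · refine measure_eq_zero_iff_ae_notMem.2 ?_
      filter_upwards [app_slice hp hz hε] with θ hθ
      rintro ⟨-, h⟩
      exact h hθ
    · have : {θ : ℝ | z ∈ reg p ∧ (z, θ) ∉ App p ε} = ∅ := by ext θ; simp [hz]
      rw [this, measure_empty]
  filter_upwards [measure_eq_zero_iff_ae_notMem.1 h3] with x hx hxr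
  by_contra hcon
  exact hx ⟨hxr, hcon⟩

/-- the frame at a given time -/
theorem exists_frame (hp : IsConvexPolygon p) (O : Orb p z θ u t) {q : ℝ} (hq : 0 ≤ q) :
    ∃ K, tp t K ≤ q ∧ q < t K := by
  classical
  have hex : ∃ k, q < t k := by
    obtain ⟨k, hk⟩ := unbounded hp O (q + 1)
    exact ⟨k, by linarith⟩
  refine ⟨Nat.find hex, ?_, Nat.find_spec hex⟩
  rcases Nat.eq_zero_or_pos (Nat.find hex) with h | h
  · rw [h]; exact hq
  · obtain ⟨m, hm⟩ := Nat.exists_eq_succ_of_ne_zero h.ne'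
    rw [hm]
    have := Nat.find_min hex (m := m) (by omega)
    exact not_lt.1 this

theorem orb_of_app (hp : IsConvexPolygon p) (O : Orb p z θ u t) {ε : ℝ}
    (h : (z, θ) ∈ App p ε) :
    ∃ K s j, tp t K < s ∧ s < t K ∧ ‖ps p z θ u K s - p j‖ < ε := by
  obtain ⟨w, q, j, hq, hch, hd⟩ := h
  simp only at hch hd
  obtain ⟨K, hK1, hK2⟩ := exists_frame hp O hq.le
  have hc : Continuous fun s : ℝ => z + s • dir θ := by fun_prop
  have h1 : ∀ᶠ s in 𝓝 q, Ch p w z (z + s • dir θ) :=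
    ((Pool.Agent.W762.BB.open_it n p hp w).preimage
      (continuous_const.prodMk hc)).mem_nhds hch
  have h2 : ∀ᶠ s in 𝓝 q, ‖(fd p w (z + s • dir θ, θ)).1 - p j‖ < ε := by
    have : Continuous fun s : ℝ => ‖(fd p w (z + s • dir θ, θ)).1 - p j‖ :=
      ((continuous_fst.comp ((fd_cont hp w).comp (hc.prodMk continuous_const))).sub
        continuous_const).norm
    exact (this.tendsto q).eventually_lt_const hd
  obtain ⟨δ, hδ, hball⟩ := Metric.eventually_nhds_iff.1 (h1.and h2)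
  set s : ℝ := q + min δ (t K - q) / 2 with hs
  have h3 : 0 < min δ (t K - q) := lt_min hδ (by linarith)
  have h4 := min_le_left δ (t K - q)
  have h5 := min_le_right δ (t K - q)
  obtain ⟨a1, a2⟩ := hball (show dist s q < δ by
    rw [Real.dist_eq, abs_of_pos (by linarith)]; linarith)
  have hs1 : tp t K < s := by linarith
  have hs2 : s < t K := by linarith
  have hw := Pool.Agent.W108.BB.uniq n p hp _ _ _ _ a1 (orb_ch hp O hs1 hs2)
  rw [hw, fd_word hp] at a2
  exact ⟨K, s, j, hs1, hs2, a2⟩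

/-- For almost every direction, every orbit comes close to a vertex. -/
theorem allz (hp : IsConvexPolygon p) {ε : ℝ} (hε : 0 < ε) : ∀ᵐ θ : ℝ, ∀ z ∈ reg p,
    ∀ (u : ℕ → Fin (n + 3)) (t : ℕ → ℝ), Orb p z θ u t →
    ∃ K s j, tp t K < s ∧ s < t K ∧ ‖ps p z θ u K s - p j‖ < ε := by
  classical
  obtain ⟨D, hD0, hD⟩ := exists_D hp
  have hDs : ∀ i, ‖p (i + 1) - p i‖ ≤ D := fun i => hD _ (vert_mem hp _) _ (vert_mem hp _)
  obtain ⟨κ0, hκ0, hκε0⟩ := exists_kappa hp (show 0 < ε / 8 by linarith)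
  have ha : ∀ᵐ θ : ℝ, ∀ m : ℕ, ∀ᵐ z : ℂ, z ∈ reg p → (z, θ) ∈ App p (1 / ((m : ℝ) + 1)) := by
    rw [ae_all_iff]
    intro m
    exact ae_swap (app_ae hp (by positivity))
  have hb : ∀ᵐ θ : ℝ, ∀ᵐ z : ℂ, z ∈ reg p → Ok p z θ 0 := by
    have h1 : ∀ T : ℕ, ∀ᵐ x : ℂ × ℝ, ∀ w j, uf p w (p j) ∉
        segment ℝ x.1 (x.1 + (T : ℝ) • dir x.2) := by
      intro T
      filter_upwards [Pool.Agent.W337.BB.gen_th n p hp T] with x hx using hx.1
    have h2 := ae_swap (ae_all_iff.2 h1)
    filter_upwards [h2] with θ hθ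
    filter_upwards [hθ] with z hx hxr
    refine ⟨?_, ?_⟩
    · have hc : Continuous fun s : ℝ => z + s • dir θ := by fun_prop
      have h3 : ∀ᶠ s in 𝓝 (0 : ℝ), z + s • dir θ ∈ reg p :=
        hc.continuousAt ((reg_open hp).mem_nhds (by rw [zero_smul, add_zero]; exact hxr))
      obtain ⟨δ, hδ, hball⟩ := Metric.eventually_nhds_iff.1 h3
      refine ⟨δ, hδ, fun s h4 h5 => hball ?_⟩
      rw [Real.dist_eq, sub_zero, abs_of_pos h4]
      exact h5
    · intro w j s hs heq
      obtain ⟨T, hT⟩ := exists_nat_ge s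
      apply hx T w j
      rw [← heq, segment_eq_image']
      have hT0 : (0 : ℝ) < T := hs.trans_le hT
      refine ⟨s / T, ⟨by positivity, (div_le_one hT0).2 hT⟩, ?_⟩
      simp only
      rw [add_sub_cancel_left, smul_smul, div_mul_cancel₀ _ hT0.ne']
  filter_upwards [ha, hb] with θ hθ1 hθ2 z hz u t O
  by_contra hcon
  push Not at hcon
  -- all reflection points are far from the vertices
  have hfar : ∀ k j, ε / 8 ≤ ‖pt p z θ u t k - p j‖ := by
    intro k j
    have hlt := tp_lt O k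
    set s : ℝ := t k - min (ε / 2) (t k - tp t k) / 2 with hs
    have h3 : 0 < min (ε / 2) (t k - tp t k) := lt_min (by linarith) (by linarith)
    have h4 := min_le_left (ε / 2) (t k - tp t k)
    have h5 := min_le_right (ε / 2) (t k - tp t k)
    have h6 := hcon k s j (by linarith) (by linarith)
    have h7 : ‖ps p z θ u k s - p j‖ ≤ ‖ps p z θ u k s - ps p z θ u k (t k)‖ +
        ‖pt p z θ u t k - p j‖ := by
      have e : ps p z θ u k s - p j = (ps p z θ u k s - ps p z θ u k (t k)) +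
          (pt p z θ u t k - p j) := by
        show _ = (_ - pt p z θ u t k) + _
        ring
      rw [e]
      exact norm_add_le _ _
    rw [ps_diff, abs_sub_comm, abs_of_pos (by linarith)] at h7
    linarith
  obtain ⟨κ, hκ, hκ1, hκ2⟩ : ∃ κ : ℝ, 0 < κ ∧ κ ≤ κ0 ∧ ∀ j, 2 * κ ≤ sf p j z := by
    have h1 : ∀ᶠ κ in 𝓝[>] (0 : ℝ), ∀ j, 2 * κ ≤ sf p j z := by
      rw [eventually_all]
      intro j
      have h2 : 0 < sf p j z / 2 := by have : 0 < sf p j z := hz j; linarith
      filter_upwards [Ioo_mem_nhdsGT h2] with κ hκ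
      have := hκ.2
      linarith
    have h2 : ∀ᶠ κ in 𝓝[>] (0 : ℝ), κ ≤ κ0 := by
      filter_upwards [Ioo_mem_nhdsGT hκ0] with κ hκ using hκ.2.le
    obtain ⟨κ, ⟨h3, h4⟩, h5⟩ := ((h1.and h2).and self_mem_nhdsWithin).exists
    exact ⟨κ, h5, h4, h3⟩
  have hκε : ∀ i, ∀ z ∈ side p i, (∀ j, ε / 8 ≤ ‖z - p j‖) → ∀ k, k ≠ i → κ ≤ sf p k z :=
    fun i z hz hz2 k hk => hκ1.trans (hκε0 i z hz hz2 k hk)
  obtain ⟨m, hm⟩ := exists_nat_gt (2 * D / κ)
  have hm1 : 2 * D * (1 / ((m : ℝ) + 1)) < κ := by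
    rw [div_lt_iff₀ hκ] at hm
    rw [mul_one_div, div_lt_iff₀ (by positivity)]
    linarith
  -- a nearby point
  obtain ⟨ρ, hρ0, hρ1, hρ2, hρ3⟩ : ∃ ρ : ℝ, 0 < ρ ∧ D * ρ < κ ∧ D ^ 2 * ρ < κ * (ε / 8) ∧
      ρ < ε / 8 := by
    refine ⟨min (κ / (2 * D)) (min (κ * (ε / 8) / (2 * D ^ 2)) (ε / 16)), ?_, ?_, ?_, ?_⟩
    · refine lt_min (by positivity) (lt_min (by positivity) (by positivity))
    · calc D * min (κ / (2 * D)) (min (κ * (ε / 8) / (2 * D ^ 2)) (ε / 16)) ≤
            D * (κ / (2 * D)) := by gcongr; exact min_le_left _ _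
        _ = κ / 2 := by field_simp
        _ < κ := by linarith
    · calc D ^ 2 * min (κ / (2 * D)) (min (κ * (ε / 8) / (2 * D ^ 2)) (ε / 16)) ≤
            D ^ 2 * (κ * (ε / 8) / (2 * D ^ 2)) := by
              gcongr; exact (min_le_right _ _).trans (min_le_left _ _)
        _ = κ * (ε / 8) / 2 := by field_simp
        _ < κ * (ε / 8) := by
          have : 0 < κ * (ε / 8) := by positivity
          linarith
    · exact ((min_le_right _ _).trans (min_le_right _ _)).trans_lt (by linarith)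
  obtain ⟨z', ⟨hz'1, hz'2⟩, hz'3⟩ := (Measure.dense_of_ae ((hθ1 m).and hθ2)).inter_nhds_nonempty
    (Metric.ball_mem_nhds z hρ0)
  have hdist : ‖z' - z‖ < ρ := by rwa [Metric.mem_ball, dist_eq_norm] at hz'3
  have hsf' : ∀ j, κ ≤ sf p j z' := by
    intro j
    have h1 := sf_lip p j z' z
    have h2 : ‖p (j + 1) - p j‖ * ‖z' - z‖ ≤ D * ρ :=
      mul_le_mul (hDs j) hdist.le (norm_nonneg _) hD0.le
    have h3 := (abs_le.1 (h1.trans h2)).1
    have h4 := hκ2 j
    linarith
  have hsf : ∀ j, κ ≤ sf p j z := fun j => by have := hκ2 j; linarith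
  have hzr' : z' ∈ reg p := fun j => hκ.trans_le (hsf' j)
  obtain ⟨u', t', O'⟩ := exists_orb hp (hz'2 hzr')
  obtain ⟨K1, s1, j1, b1, b2, b3⟩ := orb_of_app hp O' (hz'1 hzr')
  -- some reflection point of the nearby orbit is close to a vertex
  have hex : ∃ K, ∃ j, ‖pt p z' θ u' t' K - p j‖ < ε / 8 := by
    by_contra hno
    push Not at hno
    have hF' : ∀ k, FarAt p z' θ u' t' κ k := fun k j hj => hκε (u' k) _ (O'.hit k) (hno k) j hj
    have hne1 : j1 - 1 ≠ j1 := Pool.Agent.W174.PG.im j1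
    have hstart : κ ≤ sf p j1 (ps p z' θ u' K1 (tp t' K1)) +
        sf p (j1 - 1) (ps p z' θ u' K1 (tp t' K1)) := by
      have hcr := ps_start_creg hp hzr' O' K1
      have c1 : 0 ≤ sf p j1 (ps p z' θ u' K1 (tp t' K1)) := hcr j1
      have c2 : 0 ≤ sf p (j1 - 1) (ps p z' θ u' K1 (tp t' K1)) := hcr (j1 - 1)
      by_cases hj : ∀ m, K1 = m + 1 → j1 ≠ u' m
      · have := ps_start hp O' K1 hsf' (fun m _ => hF' m) hj
        linarith
      · push Not at hj
        obtain ⟨m, hm1, hm2⟩ := hj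
        have := ps_start hp O' K1 hsf' (fun m _ => hF' m) (j := j1 - 1) (by
          intro m' hm'
          have : m' = m := by omega
          rw [this, ← hm2]
          exact hne1)
        linarith
    have hend : κ ≤ sf p j1 (ps p z' θ u' K1 (t' K1)) +
        sf p (j1 - 1) (ps p z' θ u' K1 (t' K1)) := by
      have hcr : ps p z' θ u' K1 (t' K1) ∈ creg p := side_sub_creg hp _ (O'.hit K1)
      have c1 : 0 ≤ sf p j1 (ps p z' θ u' K1 (t' K1)) := hcr j1
      have c2 : 0 ≤ sf p (j1 - 1) (ps p z' θ u' K1 (t' K1)) := hcr (j1 - 1)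
      by_cases hj : j1 = u' K1
      · have : κ ≤ sf p (j1 - 1) (ps p z' θ u' K1 (t' K1)) := hF' K1 (j1 - 1) (by
          rw [← hj]; exact hne1)
        linarith
      · have : κ ≤ sf p j1 (ps p z' θ u' K1 (t' K1)) := hF' K1 j1 hj
        linarith
    unfold ps at hstart hend b3
    rw [sf_ray, sf_ray] at hstart hend
    have hmid := affine_ge (α := sf p j1 (srcs p z' u' K1) + sf p (j1 - 1) (srcs p z' u' K1))
      (β := sl p j1 (angs p θ u' K1) + sl p (j1 - 1) (angs p θ u' K1)) (κ := κ)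
      (a := tp t' K1) (b := t' K1) (s := s1) (by linarith) (by linarith) b1.le b2.le
    have v1 : sf p j1 (p j1) = 0 := Pool.Agent.W82.BB.sf_vertex_left p j1
    have v2 : sf p (j1 - 1) (p j1) = 0 := Pool.Agent.W82.BB.sf_vertex_right p j1
    have l1 := (le_abs_self _).trans
      (sf_lip p j1 (srcs p z' u' K1 + s1 • dir (angs p θ u' K1)) (p j1))
    have l2 := (le_abs_self _).trans
      (sf_lip p (j1 - 1) (srcs p z' u' K1 + s1 • dir (angs p θ u' K1)) (p j1))
    rw [v1, sf_ray] at l1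
    rw [v2, sf_ray] at l2
    have l3 := mul_le_mul (hDs j1) b3.le (norm_nonneg _) hD0.le
    have l4 := mul_le_mul (hDs (j1 - 1)) b3.le (norm_nonneg _) hD0.le
    linarith
  set K := Nat.find hex with hK
  obtain ⟨j, hj⟩ := Nat.find_spec hex
  have hF' : ∀ m < K, FarAt p z' θ u' t' κ m := by
    intro m hm j hj
    have h1 := Nat.find_min hex hm
    push Not at h1
    exact hκε (u' m) _ (O'.hit m) h1 j hj
  have hF : ∀ m < K, FarAt p z θ u t κ m := fun m _ j hj =>
    hκε (u m) _ (O.hit m) (hfar m) j hj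
  obtain ⟨s1, s2, h1, h2⟩ := par_meet hp hD0 hD hzr' O' O hκ hsf' hsf hF' hF
    (lt_of_le_of_lt (by gcongr) hρ1) (show 0 < ε / 8 by linarith)
    (lt_of_le_of_lt (by gcongr) hρ2) (hdist.trans hρ3) hj
  obtain ⟨a1, a2, a3, a4, a5, a6⟩ := h2 ((s1 + s2) / 2) (by linarith) (by linarith)
  have := hcon K _ j a3 a4
  linarith

end Pool.Agent.TH103.BL
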