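import Pool.Agent.TH103.BL.Orb

set_option autoImplicit false

/-!
Two orbits from the same point that stay away from the vertices have the same itinerary as long
as they are close. Hence almost every orbit from a given point comes close to a vertex.
-/

namespace Pool.Agent.TH103.BL

open Complex Set MeasureTheory Filter Topology Pool.Agent.W780.PG Pool.Agent.W780.BB

open scoped Real ComplexConjugate

variable {n : ℕ} {p : Fin (n + 3) → ℂ}

/-- away from the vertices the sides are uniformly transversal -/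
theorem exists_kappa (hp : IsConvexPolygon p) {ε : ℝ} (hε : 0 < ε) : ∃ κ : ℝ, 0 < κ ∧
    ∀ i, ∀ z ∈ side p i, (∀ j, ε ≤ ‖z - p j‖) → ∀ k, k ≠ i → κ ≤ sf p k z := by
  have key : ∀ i k : Fin (n + 3), ∀ᶠ κ in 𝓝[>] (0 : ℝ), k ≠ i →
      ∀ z ∈ side p i, (∀ j, ε ≤ ‖z - p j‖) → κ ≤ sf p k z := by
    intro i k
    by_cases hk : k = i
    · exact Eventually.of_forall fun _ h => absurd hk h
    set C : Set ℂ := segment ℝ (p i) (p (i + 1)) ∩ {z | ∀ j, ε ≤ ‖z - p j‖} with hC
    have hcomp : IsCompact C := by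
      refine IsCompact.inter_right ?_ ?_
      · rw [← convexHull_pair (𝕜 := ℝ)]
        exact (Set.toFinite _).isCompact_convexHull ℝ
      · rw [show {z : ℂ | ∀ j, ε ≤ ‖z - p j‖} = ⋂ j, {z | ε ≤ ‖z - p j‖} by ext; simp]
        exact isClosed_iInter fun j => isClosed_le continuous_const (by fun_prop)
    have hsub : ∀ z ∈ C, z ∈ side p i := by
      rintro z ⟨h1, h2⟩
      rw [side]
      refine (mem_openSegment_of_ne_left_right ?_ ?_ h1)
      · intro h
        have := h2 i
        rw [h, sub_self, norm_zero] at this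
        linarith
      · intro h
        have := h2 (i + 1)
        rw [h, sub_self, norm_zero] at this
        linarith
    rcases C.eq_empty_or_nonempty with hemp | hne
    · refine Eventually.of_forall fun κ _ z hz hz2 => ?_
      exfalso
      have : z ∈ C := ⟨openSegment_subset_segment _ _ _ hz, hz2⟩
      rw [hemp] at this
      exact this
    · obtain ⟨z0, hz0, hmin⟩ := hcomp.exists_isMinOn hne (sf_cont p k).continuousOn
      have h1 : 0 < sf p k z0 := side_pos hp (hsub z0 hz0) hk
      filter_upwards [Ioo_mem_nhdsGT h1] with κ hκ _ z hz hz2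
      have h2 : sf p k z0 ≤ sf p k z := hmin ⟨openSegment_subset_segment _ _ _ hz, hz2⟩
      exact hκ.2.le.trans h2
  have h2 : ∀ᶠ κ in 𝓝[>] (0 : ℝ), ∀ i k : Fin (n + 3), k ≠ i →
      ∀ z ∈ side p i, (∀ j, ε ≤ ‖z - p j‖) → κ ≤ sf p k z := by
    rw [eventually_all]
    intro i
    rw [eventually_all]
    exact key i
  obtain ⟨κ, h3, h4⟩ := (h2.and self_mem_nhdsWithin).exists
  exact ⟨κ, h4, fun i z hz hf k hk => h3 i k hk z hz hf⟩

/-- an affine function which is at least `κ` at two times is so in between -/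
theorem affine_ge {α β a b s κ : ℝ} (h1 : κ ≤ α + a * β) (h2 : κ ≤ α + b * β) (ha : a ≤ s)
    (hb : s ≤ b) : κ ≤ α + s * β := by
  rcases le_total 0 β with h | h
  · have := mul_le_mul_of_nonneg_right ha h
    linarith
  · have := mul_le_mul_of_nonpos_right hb h
    linarith

variable {z : ℂ} {θ θ' : ℝ} {u u' : ℕ → Fin (n + 3)} {t t' : ℕ → ℝ}

/-- all reflection points are uniformly transversal to the other sides -/
def Far (p : Fin (n + 3) → ℂ) (z : ℂ) (θ : ℝ) (u : ℕ → Fin (n + 3)) (t : ℕ → ℝ) (κ : ℝ) : Prop :=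
  ∀ k j, j ≠ u k → κ ≤ sf p j (pt p z θ u t k)

theorem close (D : ℝ) (hD : ∀ i, ‖p (i + 1) - p i‖ ≤ D) (i : Fin (n + 3)) (X : ℂ) (s a b : ℝ)
    (hs : 0 ≤ s) : |sf p i (X + s • dir a) - sf p i (X + s • dir b)| ≤
      D * (s * ‖dir a - dir b‖) := by
  refine (sf_lip p i _ _).trans ?_
  have h1 : X + s • dir a - (X + s • dir b) = s • (dir a - dir b) := by
    rw [smul_sub]; ring
  rw [h1, norm_smul, Real.norm_eq_abs, abs_of_nonneg hs]
  exact mul_le_mul_of_nonneg_right (hD i) (by positivity)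

theorem cmp_one (hp : IsConvexPolygon p) {D : ℝ} (hD : ∀ i, ‖p (i + 1) - p i‖ ≤ D)
    (O : Orb p z θ u t) (O' : Orb p z θ' u' t') {κ : ℝ} (hz : ∀ j, κ ≤ sf p j z)
    (hF : Far p z θ u t κ) (hF' : Far p z θ' u' t' κ) {k : ℕ} (hag : ∀ i < k, u i = u' i)
    (hle : t k ≤ t' k) (hcl : D * (t k * ‖dir θ - dir θ'‖) < κ) : u k = u' k := by
  by_contra hne
  have htk := O.tpos k
  have h0 : sf p (u k) (pt p z θ u t k) = 0 := side_zero hp (O.hit k)
  have hX : srcs p z u k = srcs p z u' k := srcs_congr hag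
  have hA : angs p θ' u k = angs p θ' u' k := angs_congr hag
  have hpt : pt p z θ u t k = srcs p z u' k + t k • dir (angs p θ u k) := by
    unfold pt; rw [hX]
  have hcl2 : ∀ i, |sf p i (srcs p z u' k + t k • dir (angs p θ u k)) -
      sf p i (srcs p z u' k + t k • dir (angs p θ' u' k))| < κ := by
    intro i
    refine (close D hD i _ _ _ _ htk.le).trans_lt ?_
    rw [← hA, norm_dir_angs]
    exact hcl
  have hend : κ ≤ sf p (u k) (srcs p z u' k) + t' k * sl p (u k) (angs p θ' u' k) := by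
    have := hF' k (u k) hne
    unfold pt at this
    rwa [sf_ray] at this
  cases k with
  | zero =>
    have h1 : κ ≤ sf p (u 0) (srcs p z u' 0) + 0 * sl p (u 0) (angs p θ' u' 0) := by
      rw [zero_mul, add_zero]
      exact hz (u 0)
    have h2 := affine_ge h1 hend htk.le hle
    rw [← sf_ray] at h2
    have h3 := hcl2 (u 0)
    rw [← hpt, h0, zero_sub, abs_neg] at h3
    have h4 := le_abs_self (sf p (u 0) (srcs p z u' 0 + t 0 • dir (angs p θ' u' 0)))
    linarith
  | succ k =>
    have hua : u k = u' k := hag k (Nat.lt_succ_self k)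
    have hstart : κ ≤ sf p (u (k + 1)) (srcs p z u' (k + 1)) +
        t' k * sl p (u (k + 1)) (angs p θ' u' (k + 1)) := by
      rw [← sf_ray, pt_next hp O' k]
      refine hF' k _ ?_
      rw [← hua]
      exact u_ne hp O k
    rcases le_or_gt (t' k) (t (k + 1)) with hc | hc
    · have h2 := affine_ge hstart hend hc hle
      rw [← sf_ray] at h2
      have h3 := hcl2 (u (k + 1))
      rw [← hpt, h0, zero_sub, abs_neg] at h3
      have h4 := le_abs_self (sf p (u (k + 1))
        (srcs p z u' (k + 1) + t (k + 1) • dir (angs p θ' u' (k + 1))))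
      linarith
    · -- the other orbit has not yet entered
      have h1 : κ ≤ sf p (u k) (pt p z θ u t (k + 1)) := hF (k + 1) (u k) (u_ne hp O k).symm
      have h2 : sf p (u' k) (srcs p z u' (k + 1) + t' k • dir (angs p θ' u' (k + 1))) = 0 := by
        rw [pt_next hp O' k]
        exact side_zero hp (O'.hit k)
      have h3 := (pt_zero_next hp O' k).2
      rw [sf_ray] at h2
      have h4 := hcl2 (u' k)
      rw [← hpt, ← hua, sf_ray] at h4
      rw [← hua] at h2 h3
      have h5 : sf p (u k) (srcs p z u' (k + 1)) +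
          t (k + 1) * sl p (u k) (angs p θ' u' (k + 1)) < 0 := by
        have e : sf p (u k) (srcs p z u' (k + 1)) +
          t (k + 1) * sl p (u k) (angs p θ' u' (k + 1)) =
          (sf p (u k) (srcs p z u' (k + 1)) + t' k * sl p (u k) (angs p θ' u' (k + 1))) -
          (t' k - t (k + 1)) * sl p (u k) (angs p θ' u' (k + 1)) := by ring
        rw [e, h2]
        have := mul_pos (sub_pos.2 hc) h3
        linarith
      have h6 := (abs_lt.1 h4).2
      linarith

theorem cmp (hp : IsConvexPolygon p) {D : ℝ} (hD : ∀ i, ‖p (i + 1) - p i‖ ≤ D)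
    (O : Orb p z θ u t) (O' : Orb p z θ' u' t') {κ : ℝ} (hz : ∀ j, κ ≤ sf p j z)
    (hF : Far p z θ u t κ) (hF' : Far p z θ' u' t' κ) {T : ℝ}
    (hcl : D * (T * ‖dir θ - dir θ'‖) < κ) {M : ℕ} (hM : t M ≤ T) : ∀ i ≤ M, u i = u' i := by
  have hD0 : 0 ≤ D := (norm_nonneg _).trans (hD 0)
  intro i
  induction i using Nat.strong_induction_on with
  | _ i ih =>
    intro hi
    have hag : ∀ k < i, u k = u' k := fun k hk => ih k hk (by omega)
    have h1 : t i ≤ T := (O.tmono.monotone hi).trans hM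
    rcases le_total (t i) (t' i) with h | h
    · refine cmp_one hp hD O O' hz hF hF' hag h (lt_of_le_of_lt ?_ hcl)
      gcongr
    · refine (cmp_one hp hD O' O hz hF' hF (fun k hk => (hag k hk).symm) h
        (lt_of_le_of_lt ?_ hcl)).symm
      rw [norm_sub_rev]
      have := h.trans h1
      gcongr

/-- crossing points with the same itinerary are close -/
theorem same_side (hp : IsConvexPolygon p) {D : ℝ} (hD : ∀ z ∈ creg p, ∀ w ∈ creg p, ‖z - w‖ ≤ D)
    (O : Orb p z θ u t) (O' : Orb p z θ' u' t') {M : ℕ} (hag : ∀ i ≤ M, u i = u' i) :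
    ‖t M • dir (angs p θ u M) - t' M • dir (angs p θ' u M)‖ ≤ D := by
  have h1 := hD _ (side_sub_creg hp _ (O.hit M)) _ (side_sub_creg hp _ (O'.hit M))
  have hX : srcs p z u M = srcs p z u' M := srcs_congr fun i hi => hag i hi.le
  have hA : angs p θ' u M = angs p θ' u' M := angs_congr fun i hi => hag i hi.le
  rw [← hX, ← hA] at h1
  have e : srcs p z u M + t M • dir (angs p θ u M) - (srcs p z u M + t' M • dir (angs p θ' u M)) =
      t M • dir (angs p θ u M) - t' M • dir (angs p θ' u M) := by ring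
  rwa [e] at h1

theorem time_close (hp : IsConvexPolygon p) {D : ℝ}
    (hD : ∀ z ∈ creg p, ∀ w ∈ creg p, ‖z - w‖ ≤ D)
    (O : Orb p z θ u t) (O' : Orb p z θ' u' t') {M : ℕ} (hag : ∀ i ≤ M, u i = u' i) :
    t' M ≤ t M + D := by
  have h := same_side hp hD O O' hag
  have h1 := norm_sub_norm_le (t' M • dir (angs p θ' u M)) (t M • dir (angs p θ u M))
  rw [norm_sub_rev] at h
  rw [norm_smul, norm_smul, norm_dir, norm_dir, mul_one, mul_one, Real.norm_eq_abs,
    Real.norm_eq_abs, abs_of_pos (O.tpos M), abs_of_pos (O'.tpos M)] at h1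
  linarith

theorem sin_bound (a b α β : ℝ) (hb : 0 ≤ b) :
    b * |Real.sin (α - β)| ≤ ‖a • dir α - b • dir β‖ := by
  have h1 : ((a • dir α - b • dir β) * dir (-α)).im = b * Real.sin (α - β) := by
    have e : (a • dir α - b • dir β) * dir (-α) = (a : ℂ) * dir 0 - (b : ℂ) * dir (β - α) := by
      rw [sub_mul, real_smul, real_smul, mul_assoc, mul_assoc, ← dir_add, ← dir_add]
      ring_nf
    rw [e, sub_im, im_ofReal_mul, im_ofReal_mul, dir_im, dir_im, Real.sin_zero,
      show β - α = -(α - β) by ring, Real.sin_neg]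
    ring
  have h2 := abs_im_le_norm ((a • dir α - b • dir β) * dir (-α))
  rw [h1, norm_mul, norm_dir, mul_one, abs_mul, abs_of_nonneg hb] at h2
  exact h2

/-- some reflection takes place at a time between `T` and `T + D` -/
theorem exists_time (hp : IsConvexPolygon p) (hz : z ∈ reg p) {D : ℝ}
    (hD : ∀ z ∈ creg p, ∀ w ∈ creg p, ‖z - w‖ ≤ D) (O : Orb p z θ u t) {T : ℝ} (hT : 0 ≤ T) :
    ∃ M, T ≤ t M ∧ t M ≤ T + D := by
  classical
  have hex := unbounded hp O T
  refine ⟨Nat.find hex, Nat.find_spec hex, ?_⟩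
  rcases Nat.eq_zero_or_pos (Nat.find hex) with h | h
  · rw [h]
    have h1 := hD _ (side_sub_creg hp _ (O.hit 0)) _ (reg_sub_creg p hz)
    have e : srcs p z u 0 + t 0 • dir (angs p θ u 0) - z = t 0 • dir θ := by
      show z + t 0 • dir θ - z = _
      ring
    rw [e, norm_smul, norm_dir, mul_one, Real.norm_eq_abs, abs_of_pos O.pos] at h1
    linarith
  · obtain ⟨m, hm⟩ := Nat.exists_eq_succ_of_ne_zero h.ne'
    rw [hm]
    have h1 : t m < T := by
      have := Nat.find_min hex (m := m) (by omega)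
      exact not_le.1 this
    have h2 := hD _ (side_sub_creg hp _ (O.hit (m + 1))) _ (side_sub_creg hp _ (O.hit m))
    have e : srcs p z u (m + 1) + t (m + 1) • dir (angs p θ u (m + 1)) -
        (srcs p z u m + t m • dir (angs p θ u m)) =
        (t (m + 1) - t m) • dir (angs p θ u (m + 1)) := by
      have := pt_next hp O m
      unfold pt at this
      rw [← this, sub_smul]
      ring
    rw [e, norm_smul, norm_dir, mul_one, Real.norm_eq_abs,
      abs_of_pos (sub_pos.2 (O.mono m))] at h2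
    show t (m + 1) ≤ T + D
    linarith

/-- the directions whose orbits stay away from the vertices -/
def Away (p : Fin (n + 3) → ℂ) (z : ℂ) (κ : ℝ) : Set ℝ :=
  {θ | ∃ u t, Orb p z θ u t ∧ Far p z θ u t κ}

/-- the geometric contradiction -/
theorem no_chain (hp : IsConvexPolygon p) (hz : z ∈ reg p) {D : ℝ} (hD0 : 0 < D)
    (hD : ∀ z ∈ creg p, ∀ w ∈ creg p, ‖z - w‖ ≤ D) {κ : ℝ} (hzκ : ∀ j, κ ≤ sf p j z)
    {N : ℕ} {δ : ℝ} (hδ0 : 0 < δ) (hδ1 : δ ≤ 1) (hN : 20 * D ^ 2 < κ * N) (hN2 : 2 ≤ N)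
    (x : ℕ → ℝ) (hx : ∀ l ≤ N, x l ∈ Away p z κ)
    (hstep : ∀ l < N, |x (l + 1) - x l| ≤ 2 * δ / N)
    (hlow : δ / 2 ≤ x N - x 0) (hup : x N - x 0 ≤ δ) : False := by
  have hDs : ∀ i, ‖p (i + 1) - p i‖ ≤ D := fun i => hD _ (vert_mem hp _) _ (vert_mem hp _)
  have hNpos : (0 : ℝ) < N := by
    have : 0 < N := by omega
    exact_mod_cast this
  obtain ⟨u, t, O, hF⟩ := hx 0 (Nat.zero_le _)
  set T0 : ℝ := 8 * D / δ with hT0
  have hT0pos : 0 < T0 := by positivity
  obtain ⟨M, hM1, hM2⟩ := exists_time hp hz hD O hT0pos.le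
  have hTle : T0 + 2 * D ≤ 10 * D / δ := by
    rw [hT0, show (10 : ℝ) * D / δ = 8 * D / δ + 2 * D / δ by ring]
    gcongr
    rw [le_div_iff₀ hδ0]
    nlinarith
  have hclose : ∀ l < N, D * ((T0 + 2 * D) * ‖dir (x l) - dir (x (l + 1))‖) < κ := by
    intro l hl
    have h1 : ‖dir (x l) - dir (x (l + 1))‖ ≤ 2 * δ / N := by
      rw [norm_sub_rev]
      have := norm_dir_sub (x l) (x (l + 1) - x l)
      rw [add_sub_cancel] at this
      exact this.trans (hstep l hl)
    calc D * ((T0 + 2 * D) * ‖dir (x l) - dir (x (l + 1))‖)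
        ≤ D * ((10 * D / δ) * (2 * δ / N)) := by gcongr
      _ = 20 * D ^ 2 / N := by field_simp; ring
      _ < κ := by rw [div_lt_iff₀ hNpos]; exact hN
  have key : ∀ l ≤ N, ∃ u' t', Orb p z (x l) u' t' ∧ Far p z (x l) u' t' κ ∧
      ∀ i ≤ M, u i = u' i := by
    intro l
    induction l with
    | zero => intro _; exact ⟨u, t, O, hF, fun _ _ => rfl⟩
    | succ l ih =>
      intro hl
      obtain ⟨u1, t1, O1, hF1, hag1⟩ := ih (by omega)
      obtain ⟨u2, t2, O2, hF2⟩ := hx (l + 1) hl
      refine ⟨u2, t2, O2, hF2, fun i hi => ?_⟩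
      rw [hag1 i hi]
      have hT : t1 M ≤ T0 + 2 * D := by
        have := time_close hp hD O O1 hag1
        linarith
      exact cmp hp hDs O1 O2 hzκ hF1 hF2 (hclose l (by omega)) hT i hi
  obtain ⟨u', t', O', -, hag⟩ := key N le_rfl
  have h1 := same_side hp hD O O' hag
  have h2 := sin_bound (t' M) (t M) (angs p (x N) u M) (angs p (x 0) u M) (O.tpos M).le
  rw [norm_sub_rev] at h1
  have h3 : |Real.sin (angs p (x N) u M - angs p (x 0) u M)| = |Real.sin (x N - x 0)| := by
    rcases angs_diff (p := p) (u := u) (θ := x N) (x 0) M with h | h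
    · rw [h]
    · rw [h, show x 0 - x N = -(x N - x 0) by ring, Real.sin_neg, abs_neg]
  rw [h3] at h2
  have h4 : 2 / π * (x N - x 0) ≤ Real.sin (x N - x 0) := by
    refine Real.mul_le_sin (by linarith) ?_
    have := Real.pi_gt_three
    linarith
  have h5 : δ / 4 ≤ |Real.sin (x N - x 0)| := by
    refine le_trans ?_ (le_abs_self _)
    refine le_trans ?_ h4
    have hpi := Real.pi_le_four
    have hpi0 := Real.pi_pos
    calc δ / 4 = 2 / 4 * (δ / 2) := by ring
      _ ≤ 2 / π * (x N - x 0) := by gcongr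
  have htM := (O.tpos M).le
  have h6 : 2 * D ≤ t M * |Real.sin (x N - x 0)| := by
    calc 2 * D = T0 * (δ / 4) := by rw [hT0]; field_simp; ring
      _ ≤ t M * |Real.sin (x N - x 0)| := by gcongr
  linarith

/-- Almost no orbit from a given point stays away from the vertices. -/
theorem away_null (hp : IsConvexPolygon p) (hz : z ∈ reg p) {κ : ℝ} (hκ : 0 < κ) :
    volume (Away p z κ) = 0 := by
  obtain ⟨D, hD0, hD⟩ := exists_D hp
  -- reduce `κ`
  obtain ⟨κ', hκ'0, hκ'κ, hκ'z⟩ : ∃ κ' : ℝ, 0 < κ' ∧ κ' ≤ κ ∧ ∀ j, κ' ≤ sf p j z := by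
    have h1 : ∀ᶠ κ' in 𝓝[>] (0 : ℝ), ∀ j, κ' ≤ sf p j z := by
      rw [eventually_all]
      intro j
      have h2 : 0 < sf p j z := hz j
      filter_upwards [Ioo_mem_nhdsGT h2] with κ' h using h.2.le
    have h2 : ∀ᶠ κ' in 𝓝[>] (0 : ℝ), κ' ≤ κ := by
      filter_upwards [Ioo_mem_nhdsGT hκ] with κ' h using h.2.le
    obtain ⟨κ', ⟨h3, h4⟩, h5⟩ := ((h1.and h2).and self_mem_nhdsWithin).exists
    exact ⟨κ', h5, h4, h3⟩
  have hsub : Away p z κ ⊆ Away p z κ' := by
    rintro θ ⟨u, t, h1, h2⟩
    exact ⟨u, t, h1, fun k j hj => hκ'κ.trans (h2 k j hj)⟩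
  refine measure_mono_null hsub ?_
  set S := Away p z κ' with hS
  by_contra hne
  have hdens := Besicovitch.ae_tendsto_measure_inter_div (volume : Measure ℝ) S
  -- a density point in `S`
  obtain ⟨a, haS, ha⟩ : ∃ a ∈ S, Tendsto (fun r => volume (S ∩ Metric.closedBall a r) /
      volume (Metric.closedBall a r)) (𝓝[>] 0) (𝓝 1) := by
    by_contra hcon
    push Not at hcon
    apply hne
    rw [ae_iff] at hdens
    have h1 := Measure.le_restrict_apply (μ := (volume : Measure ℝ)) S
      {a | ¬ Tendsto (fun r => volume (S ∩ Metric.closedBall a r) /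
      volume (Metric.closedBall a r)) (𝓝[>] 0) (𝓝 1)}
    rw [hdens] at h1
    have h2 : {a | ¬ Tendsto (fun r => volume (S ∩ Metric.closedBall a r) /
      volume (Metric.closedBall a r)) (𝓝[>] 0) (𝓝 1)} ∩ S = S := by
      apply inter_eq_right.2
      exact fun x hx => hcon x hx
    rw [h2] at h1
    exact nonpos_iff_eq_zero.1 h1
  obtain ⟨N, hN⟩ := exists_nat_gt (20 * D ^ 2 / κ' + 2)
  have hN1 : 20 * D ^ 2 < κ' * N := by
    have : 20 * D ^ 2 / κ' < N := by linarith
    rw [div_lt_iff₀ hκ'0] at this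
    linarith
  have hN2 : 2 ≤ N := by
    have h1 : (0 : ℝ) ≤ 20 * D ^ 2 / κ' := by positivity
    have : (2 : ℝ) < N := by linarith
    exact_mod_cast this.le
  have hNpos : (0 : ℝ) < N := by
    have : 0 < N := by omega
    exact_mod_cast this
  have hlt : (ENNReal.ofReal (1 - 1 / (2 * N))) < 1 := by
    rw [← ENNReal.ofReal_one]
    refine (ENNReal.ofReal_lt_ofReal_iff one_pos).2 ?_
    have : 0 < 1 / (2 * (N : ℝ)) := by positivity
    linarith
  have hev := (tendsto_order.1 ha).1 _ hlt
  obtain ⟨δ, ⟨hδ, hδ1⟩, hδ0⟩ := ((hev.and (show ∀ᶠ δ in 𝓝[>] (0 : ℝ), δ ≤ 1 by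
    filter_upwards [Ioo_mem_nhdsGT one_pos] with δ h using h.2.le)).and self_mem_nhdsWithin).exists
  change 0 < δ at hδ0
  have hvb : volume (Metric.closedBall a δ) = ENNReal.ofReal (2 * δ) := Real.volume_closedBall a δ
  -- every short interval meets `S`
  have hmeet : ∀ l < N, ∃ y ∈ S, a + l * δ / N ≤ y ∧ y ≤ a + (l + 1) * δ / N := by
    intro l hl
    by_contra hcon
    push Not at hcon
    set J : Set ℝ := Icc (a + l * δ / N) (a + (l + 1) * δ / N) with hJ
    have hlN : (l : ℝ) + 1 ≤ N := by exact_mod_cast hl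
    have hJsub : J ⊆ Metric.closedBall a δ := by
      intro y hy
      rw [Metric.mem_closedBall, Real.dist_eq, abs_le]
      have h1 : 0 ≤ (l : ℝ) * δ / N := by positivity
      have h2 : ((l : ℝ) + 1) * δ / N ≤ δ := by
        rw [div_le_iff₀ hNpos]
        have := mul_le_mul_of_nonneg_right hlN hδ0.le
        linarith
      constructor
      · have := hy.1; linarith
      · have := hy.2; linarith
    have hJd : S ∩ Metric.closedBall a δ ⊆ Metric.closedBall a δ \ J := by
      rintro y ⟨h1, h2⟩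
      exact ⟨h2, fun h3 => absurd h3.2 (not_le.2 (hcon y h1 h3.1))⟩
    have hJv : volume J = ENNReal.ofReal (δ / N) := by
      rw [hJ, Real.volume_Icc]
      congr 1
      field_simp
      ring
    have h1 : volume (S ∩ Metric.closedBall a δ) ≤ ENNReal.ofReal (2 * δ) -
        ENNReal.ofReal (δ / N) := by
      refine (measure_mono hJd).trans ?_
      rw [measure_sdiff hJsub measurableSet_Icc.nullMeasurableSet (by rw [hJv]; exact
        ENNReal.ofReal_ne_top), hvb, hJv]
    rw [← ENNReal.ofReal_sub _ (by positivity)] at h1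
    have h2 : volume (S ∩ Metric.closedBall a δ) / volume (Metric.closedBall a δ) ≤
        ENNReal.ofReal (1 - 1 / (2 * N)) := by
      rw [hvb]
      refine (ENNReal.div_le_div_right h1 _).trans ?_
      rw [← ENNReal.ofReal_div_of_pos (by positivity)]
      apply ENNReal.ofReal_le_ofReal
      apply le_of_eq
      field_simp
    exact absurd hδ (not_lt.2 h2)
  choose! y hyS hy1 hy2 using hmeet
  refine no_chain hp hz hD0 hD hκ'z hδ0 hδ1 hN1 hN2
    (fun l => if l = 0 then a else y (l - 1)) ?_ ?_ ?_ ?_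
  · intro l hl
    by_cases h : l = 0
    · simp only [h, if_true]; exact haS
    · simp only [h, if_false]
      exact hyS (l - 1) (by omega)
  · intro l hl
    have hlc : ((l : ℝ) + 1) * δ / N = l * δ / N + δ / N := by ring
    have hdN : 0 < δ / N := by positivity
    have he : 2 * δ / N = 2 * (δ / N) := by ring
    have hsucc : (if l + 1 = 0 then a else y (l + 1 - 1)) = y l := by simp
    rw [hsucc, he]
    by_cases h : l = 0
    · subst h
      simp only [if_true]
      have h1 := hy1 0 hl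
      have h2 := hy2 0 hl
      simp only [Nat.cast_zero, zero_mul, zero_div, add_zero, zero_add, one_mul] at h1 h2
      rw [abs_le]
      constructor <;> linarith
    · simp only [h, if_false]
      have h1 := hy1 l hl
      have h2 := hy2 l hl
      have h3 := hy1 (l - 1) (by omega)
      have h4 := hy2 (l - 1) (by omega)
      have hc : ((l - 1 : ℕ) : ℝ) = l - 1 := by
        rw [Nat.cast_sub (by omega), Nat.cast_one]
      rw [hc] at h3 h4
      have e1 : ((l : ℝ) - 1) * δ / N = l * δ / N - δ / N := by ring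
      have e2 : ((l : ℝ) - 1 + 1) * δ / N = l * δ / N := by ring
      rw [e1] at h3
      rw [e2] at h4
      rw [hlc] at h2
      rw [abs_le]
      constructor <;> linarith
  · have hN0 : N ≠ 0 := by omega
    simp only [hN0, if_false, if_true]
    have h3 := hy1 (N - 1) (by omega)
    have hc : ((N - 1 : ℕ) : ℝ) = N - 1 := by
      rw [Nat.cast_sub (by omega), Nat.cast_one]
    rw [hc] at h3
    have e1 : ((N : ℝ) - 1) * δ / N = δ - δ / N := by field_simp
    have e2 : δ / N ≤ δ / 2 := by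
      have : (2 : ℝ) ≤ N := by exact_mod_cast hN2
      gcongr
    rw [e1] at h3
    linarith
  · have hN0 : N ≠ 0 := by omega
    simp only [hN0, if_false, if_true]
    have h3 := hy2 (N - 1) (by omega)
    have hc : ((N - 1 : ℕ) : ℝ) = N - 1 := by
      rw [Nat.cast_sub (by omega), Nat.cast_one]
    rw [hc] at h3
    have e1 : ((N : ℝ) - 1 + 1) * δ / N = δ := by field_simp; ring
    rw [e1] at h3
    linarith

end Pool.Agent.TH103.BL
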