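import Pool.Agent.W780.BB.Defs

set_option autoImplicit false

/-!
Billiards in convex polygons: invariant functions and their behaviour at the vertices.

States are pairs `(z, θ)` of a position and a direction angle; `region`, `dir`, `tau`, `phase`,
`IsInvariant`, `IsTrivial` are defined in `Pool.Agent.W780.PG.Defs` and `Pool.Agent.W780.BB.Defs`.
-/

namespace Pool.Agent.TH103.BL

open Complex Set MeasureTheory Pool.Agent.W780.PG Pool.Agent.W780.BB

open scoped Real ComplexConjugate

/-- A real function of the state is invariant under the billiard flow in the region of `p`: it does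
not change if `2 π` is added to the direction angle (`periodic`), during free motion inside the
region (`free`) and under elastic reflection in an inner point `y` of a side (`reflect`), where the
direction angle `θ` becomes `2 τ - θ`, `τ` the direction angle of the side. Nothing is required of
the motion after a vertex has been hit. -/
structure IsInvariantFun {n : ℕ} (p : Fin (n + 3) → ℂ) (f : ℂ × ℝ → ℝ) : Prop where
  periodic : ∀ (z : ℂ) (θ : ℝ), f (z, θ + 2 * π) = f (z, θ)
  free : ∀ (z : ℂ) (θ s : ℝ), z ∈ region p → z + s • dir θ ∈ region p →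
    f (z, θ) = f (z + s • dir θ, θ)
  reflect : ∀ i, ∀ y ∈ openSegment ℝ (p i) (p (i + 1)), ∀ θ s r : ℝ, 0 < s → 0 < r →
    y - s • dir θ ∈ region p → y + r • dir (2 * tau p i - θ) ∈ region p →
    f (y - s • dir θ, θ) = f (y + r • dir (2 * tau p i - θ), 2 * tau p i - θ)

/-- The signed distance of the position of the state `x` from the line through the vertex `p i` in
the direction of `x`: positive to the left of this line, negative to the right of it. -/
noncomputable def sd {n : ℕ} (p : Fin (n + 3) → ℂ) (i : Fin (n + 3)) (x : ℂ × ℝ) : ℝ :=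
  (conj (dir x.2) * (x.1 - p i)).im

/-- Near each vertex, up to a null set of states, membership of the state `(z, θ)` in the set `A`
depends only on the direction `θ` and on the side on which `z` lies of the line through the vertex
in the direction `θ`. -/
def IsVertexTame {n : ℕ} (p : Fin (n + 3) → ℂ) (A : Set (ℂ × ℝ)) : Prop :=
  ∀ i, ∃ (L R : Set ℝ) (r : ℝ), 0 < r ∧ ∀ᵐ x : ℂ × ℝ, x.1 ∈ region p → ‖x.1 - p i‖ < r →
    (0 < sd p i x → (x ∈ A ↔ x.2 ∈ L)) ∧ (sd p i x < 0 → (x ∈ A ↔ x.2 ∈ R))

/-- One-sided limits at the vertices: at each vertex there are two functions `gl`, `gr` of the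
direction such that, as the position `z` tends to the vertex, `f (z, θ) - gl θ` tends to `0` for the
`z` to the left of the line through the vertex in the direction `θ`, and `f (z, θ) - gr θ` tends to
`0` for the `z` to the right of it, uniformly in `(z, θ)` outside a null set. No regularity in the
direction `θ` is required. -/
def HasSidedLimits {n : ℕ} (p : Fin (n + 3) → ℂ) (f : ℂ × ℝ → ℝ) : Prop :=
  ∀ i, ∃ gl gr : ℝ → ℝ, Measurable gl ∧ Measurable gr ∧ (∀ θ, gl (θ + 2 * π) = gl θ) ∧
    (∀ θ, gr (θ + 2 * π) = gr θ) ∧ ∀ η : ℝ, 0 < η → ∃ r : ℝ, 0 < r ∧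
      ∀ᵐ x : ℂ × ℝ, x.1 ∈ region p → ‖x.1 - p i‖ < r →
        (0 < sd p i x → |f x - gl x.2| ≤ η) ∧ (sd p i x < 0 → |f x - gr x.2| ≤ η)

/-- Two-sided limits at the vertices. -/
def HasVertexLimits {n : ℕ} (p : Fin (n + 3) → ℂ) (f : ℂ × ℝ → ℝ) : Prop :=
  ∀ i, ∃ g : ℝ → ℝ, Measurable g ∧ (∀ θ, g (θ + 2 * π) = g θ) ∧
    ∀ η : ℝ, 0 < η → ∃ r : ℝ, 0 < r ∧
      ∀ᵐ x : ℂ × ℝ, x.1 ∈ region p → ‖x.1 - p i‖ < r → |f x - g x.2| ≤ η

end Pool.Agent.TH103.BL
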