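import Pool.Agent.TH103.BL.Defs

set_option autoImplicit false

/-!
Eigenfunctions of the billiard flow in a convex polygon.

States are pairs `(z, θ)` of a position and a direction angle; `region`, `dir`, `tau`, `ang` are
defined in `Pool.Agent.W780.PG.Defs` and `Pool.Agent.W780.BB.Defs`.
-/

namespace Pool.Agent.TH103.BL

open Complex Set MeasureTheory Pool.Agent.W780.PG Pool.Agent.W780.BB

open scoped Real ComplexConjugate

/-- `f` is an eigenfunction of the billiard flow in the polygon `p` with frequency `lam`: it does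
not change if `2 π` is added to the direction angle, it is multiplied by `exp (i lam s)` under free
motion for the time `s` inside the polygon (`free`), and by `exp (i lam (s + r))` under free motion
for the time `s`, elastic reflection in an inner point `y` of a side and free motion for the
time `r` (`reflect`). Nothing is required of the motion after a vertex has been hit. -/
structure IsEigenfunction {n : ℕ} (p : Fin (n + 3) → ℂ) (lam : ℝ) (f : ℂ × ℝ → ℂ) : Prop where
  periodic : ∀ (z : ℂ) (θ : ℝ), f (z, θ + 2 * π) = f (z, θ)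
  free : ∀ (z : ℂ) (θ s : ℝ), z ∈ region p → z + s • dir θ ∈ region p →
    f (z + s • dir θ, θ) = exp ((lam * s : ℝ) * I) * f (z, θ)
  reflect : ∀ i, ∀ y ∈ openSegment ℝ (p i) (p (i + 1)), ∀ θ s r : ℝ, 0 < s → 0 < r →
    y - s • dir θ ∈ region p → y + r • dir (2 * tau p i - θ) ∈ region p →
    f (y + r • dir (2 * tau p i - θ), 2 * tau p i - θ) =
      exp ((lam * (s + r) : ℝ) * I) * f (y - s • dir θ, θ)

/-- `f` has limits at the vertices: at each vertex there is a function `g` of the direction, such
that `f (z, θ) - g θ` tends to `0` as the position `z` tends to the vertex, uniformly in `(z, θ)`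
outside a null set. No regularity in the direction `θ` is required. -/
def HasLimits {n : ℕ} (p : Fin (n + 3) → ℂ) (f : ℂ × ℝ → ℂ) : Prop :=
  ∀ i, ∃ g : ℝ → ℂ, Measurable g ∧ (∀ θ, g (θ + 2 * π) = g θ) ∧
    ∀ η : ℝ, 0 < η → ∃ r : ℝ, 0 < r ∧
      ∀ᵐ x : ℂ × ℝ, x.1 ∈ region p → ‖x.1 - p i‖ < r → ‖f x - g x.2‖ ≤ η

/-- `f` has one-sided limits at the vertices: at each vertex `p i` there are two functions `gl`,
`gr` of the direction such that, as the position `z` tends to the vertex, `f (z, θ) - gl θ` tends to
`0` for the `z` to the left of the line through the vertex in the direction `θ` (`0 < sd p i (z, θ)`)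
and `f (z, θ) - gr θ` tends to `0` for the `z` to the right of it, uniformly in `(z, θ)` outside a
null set. No regularity in the direction `θ` is required. -/
def HasOneSidedLimits {n : ℕ} (p : Fin (n + 3) → ℂ) (f : ℂ × ℝ → ℂ) : Prop :=
  ∀ i, ∃ gl gr : ℝ → ℂ, Measurable gl ∧ Measurable gr ∧ (∀ θ, gl (θ + 2 * π) = gl θ) ∧
    (∀ θ, gr (θ + 2 * π) = gr θ) ∧ ∀ η : ℝ, 0 < η → ∃ r : ℝ, 0 < r ∧
      ∀ᵐ x : ℂ × ℝ, x.1 ∈ region p → ‖x.1 - p i‖ < r →
        (0 < sd p i x → ‖f x - gl x.2‖ ≤ η) ∧ (sd p i x < 0 → ‖f x - gr x.2‖ ≤ η)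

/-- Two distances between vertices have an irrational ratio. -/
def HasIrrationalRatio {n : ℕ} (p : Fin (n + 3) → ℂ) : Prop :=
  ∃ i j k l, Irrational (‖p j - p i‖ / ‖p l - p k‖)

end Pool.Agent.TH103.BL
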