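import Pool.Agent.W782.PG.Frame
import Pool.Agent.W337.BB.Gen

set_option autoImplicit false

/-!
Almost every convex polygon has only irrational angles.
-/

namespace Pool.Agent.TH103.BL

open Complex Set MeasureTheory Filter Topology Pool.Agent.W780.PG

open scoped Real ComplexConjugate

theorem null_of_slices {m : ℕ} (j : Fin (m + 1)) {S : Set (Fin (m + 1) → ℂ)}
    (hS : MeasurableSet S)
    (h : ∀ y : Fin m → ℂ, volume {w : ℂ | Fin.insertNth (α := fun _ => ℂ) j w y ∈ S} = 0) :
    volume S = 0 := by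
  have hmp := (volume_preserving_piFinSuccAbove (fun _ : Fin (m + 1) => ℂ) j).symm
  rw [← hmp.measure_preimage hS.nullMeasurableSet, Measure.volume_eq_prod,
    Measure.prod_apply_symm (hmp.measurable hS)]
  have : (fun y : Fin m → ℂ => volume ((fun x : ℂ => (x, y)) ⁻¹'
      ((MeasurableEquiv.piFinSuccAbove (fun _ : Fin (m + 1) => ℂ) j).symm ⁻¹' S))) =
      fun _ => 0 := by
    funext y
    exact h y
  rw [this, lintegral_zero]

/-- The measurable sets of polygons with a given angle are null. -/
theorem angle_null {n : ℕ} (i : Fin (n + 3)) (q : ℚ) :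
    ∀ᵐ p : Fin (n + 3) → ℂ, IsConvexPolygon p → ang p i ≠ q * π := by
  set c : ℂ := exp (((q : ℝ) * π : ℝ) * I) with hc
  have hc0 : c ≠ 0 := exp_ne_zero _
  set S : Set (Fin (n + 3) → ℂ) := {p | p (i + 1) - p i ≠ 0 ∧
    (I * conj ((p (i + 1) - p i) * c) * (p (i - 1) - p i)).re = 0} with hS
  have hSm : MeasurableSet S := by
    refine MeasurableSet.inter ?_ ?_
    · have : IsClosed {p : Fin (n + 3) → ℂ | p (i + 1) - p i = 0} :=
        isClosed_eq (by fun_prop) continuous_const
      exact this.measurableSet.compl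
    · have : IsClosed {p : Fin (n + 3) → ℂ |
          (I * conj ((p (i + 1) - p i) * c) * (p (i - 1) - p i)).re = 0} := by
        refine isClosed_eq (continuous_re.comp ?_) continuous_const
        refine Continuous.mul (continuous_const.mul (continuous_conj.comp ?_)) ?_
        · exact Continuous.mul (by fun_prop) continuous_const
        · fun_prop
      exact this.measurableSet
  have hnull : volume S = 0 := by
    refine null_of_slices (i - 1) hSm fun y => ?_
    have h1 : i ≠ i - 1 := (Pool.Agent.W174.PG.im i).symm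
    have h2 : i + 1 ≠ i - 1 := (Pool.Agent.W174.PG.im2 i).symm
    obtain ⟨k1, hk1⟩ := Fin.exists_succAbove_eq h1
    obtain ⟨k2, hk2⟩ := Fin.exists_succAbove_eq h2
    have e1 : ∀ w : ℂ, Fin.insertNth (α := fun _ => ℂ) (i - 1) w y i = y k1 := by
      intro w
      have := Fin.insertNth_apply_succAbove (α := fun _ => ℂ) (i - 1) w y k1
      rwa [hk1] at this
    have e2 : ∀ w : ℂ, Fin.insertNth (α := fun _ => ℂ) (i - 1) w y (i + 1) = y k2 := by
      intro w
      have := Fin.insertNth_apply_succAbove (α := fun _ => ℂ) (i - 1) w y k2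
      rwa [hk2] at this
    have e3 : ∀ w : ℂ, Fin.insertNth (α := fun _ => ℂ) (i - 1) w y (i - 1) = w := by
      intro w
      exact Fin.insertNth_apply_same (α := fun _ => ℂ) (i - 1) w y
    by_cases h3 : y k2 - y k1 = 0
    · have : {w : ℂ | Fin.insertNth (α := fun _ => ℂ) (i - 1) w y ∈ S} = ∅ := by
        ext w
        simp only [hS, mem_ofPred_eq, e1, e2, mem_empty_iff_false, iff_false]
        rintro ⟨h4, -⟩
        exact h4 h3
      rw [this, measure_empty]
    · set b : ℂ := I * conj ((y k2 - y k1) * c) with hb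
      have hb0 : b ≠ 0 := by
        rw [hb]
        refine mul_ne_zero I_ne_zero ?_
        intro h4
        exact mul_ne_zero h3 hc0 ((map_eq_zero _).1 h4)
      refine measure_mono_null ?_ (Pool.Agent.W337.BB.null_line b hb0 (b * y k1).re)
      intro w hw
      have h5 := hw.2
      rw [e1, e2, e3] at h5
      show (b * w).re = (b * y k1).re
      rw [mul_sub, sub_re] at h5
      linarith
  filter_upwards [measure_eq_zero_iff_ae_notMem.1 hnull] with p hp hconv hang
  apply hp
  refine ⟨Pool.Agent.W782.PG.edge_ne hconv i, ?_⟩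
  have h1 := Pool.Agent.W782.PG.prev_eq hconv i
  have h2 : p (i + 1) - p i = (‖p (i + 1) - p i‖ : ℂ) * exp ((arg (p (i + 1) - p i) : ℂ) * I) :=
    (Complex.norm_mul_exp_arg_mul_I _).symm
  have h3 : exp (((arg (p (i + 1) - p i) + ang p i : ℝ) : ℂ) * I) =
      exp ((arg (p (i + 1) - p i) : ℂ) * I) * c := by
    rw [hc, ← Complex.exp_add, hang]
    congr 1
    push_cast
    ring
  rw [h3] at h1
  have h4 : ∀ (L M : ℝ) (E : ℂ), I * conj ((L : ℂ) * E * c) * ((M : ℂ) * (E * c)) =
      ((L * M * normSq (E * c) : ℝ) : ℂ) * I := by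
    intro L M E
    push_cast
    rw [← Complex.mul_conj]
    simp only [map_mul, conj_ofReal]
    ring
  have h5 : I * conj ((p (i + 1) - p i) * c) * (p (i - 1) - p i) =
      ((‖p (i + 1) - p i‖ * ‖p (i - 1) - p i‖ *
        normSq (exp ((arg (p (i + 1) - p i) : ℂ) * I) * c) : ℝ) : ℂ) * I := by
    rw [← h4, ← h1, ← h2]
  rw [h5]
  simp

theorem ae_irrational (n : ℕ) : ∀ᵐ p : Fin (n + 3) → ℂ, IsConvexPolygon p →
    ∀ i, Irrational (ang p i / π) := by
  have h : ∀ᵐ p : Fin (n + 3) → ℂ, ∀ i, ∀ q : ℚ, IsConvexPolygon p → ang p i ≠ q * π := by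
    rw [ae_all_iff]
    intro i
    rw [ae_all_iff]
    intro q
    exact angle_null i q
  filter_upwards [h] with p hp hconv i
  rintro ⟨q, hq⟩
  refine hp i q hconv ?_
  rw [hq, div_mul_cancel₀ _ Real.pi_ne_zero]

end Pool.Agent.TH103.BL
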