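import Pool.Agent.TH103.BL.VtxR
import Pool.Agent.TH103.BL.EigD
import Pool.Agent.TH103.BL.Fun

set_option autoImplicit false

/-!
Eigenfunctions with limits at the vertices.
-/

namespace Pool.Agent.TH103.BL

open Complex Set MeasureTheory Filter Topology Pool.Agent.W780.PG Pool.Agent.W780.BB

open scoped Real ComplexConjugate

variable {n : ℕ} {p : Fin (n + 3) → ℂ}

theorem norm_e (a : ℝ) : ‖exp ((a : ℂ) * I)‖ = 1 := by
  rw [norm_exp_ofReal_mul_I]

/-- the modulus is an invariant function -/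
theorem abs_inv {lam : ℝ} {f : ℂ × ℝ → ℂ} (hE : IsEigenfunction p lam f) :
    IsInvariantFun p (fun x => ‖f x‖) where
  periodic z θ := by simp only [hE.periodic]
  free z θ s h1 h2 := by
    rw [hE.free z θ s h1 h2, norm_mul, norm_e, one_mul]
  reflect i y hy θ s r hs hr h1 h2 := by
    rw [hE.reflect i y hy θ s r hs hr h1 h2, norm_mul, norm_e, one_mul]

/-- the modulus has limits -/
theorem abs_lim {f : ℂ × ℝ → ℂ} (hL : HasLimits p f) : HasVertexLimits p (fun x => ‖f x‖) := by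
  intro i
  obtain ⟨g, hg, hper, h⟩ := hL i
  refine ⟨fun θ => ‖g θ‖, hg.norm, fun θ => by simp only [hper], fun η hη => ?_⟩
  obtain ⟨r, hr, hae⟩ := h η hη
  refine ⟨r, hr, ?_⟩
  filter_upwards [hae] with x hx h1 h2
  exact (abs_norm_sub_norm_le _ _).trans (hx h1 h2)

/-- phase of the position relative to the vertex `i` -/
noncomputable def ph (p : Fin (n + 3) → ℂ) (i : Fin (n + 3)) (x : ℂ × ℝ) : ℝ :=
  (conj (dir x.2) * (x.1 - p i)).re

theorem conj_dir_mul (θ : ℝ) : conj (dir θ) * dir θ = 1 := by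
  rw [mul_comm, Complex.mul_conj, normSq_eq_norm_sq, norm_dir]
  norm_num

theorem ph_free (i : Fin (n + 3)) (z : ℂ) (θ s : ℝ) :
    ph p i (z + s • dir θ, θ) = ph p i (z, θ) + s := by
  unfold ph
  simp only
  have : conj (dir θ) * (z + s • dir θ - p i) =
      conj (dir θ) * (z - p i) + (s : ℂ) * (conj (dir θ) * dir θ) := by
    rw [real_smul]; ring
  rw [this, conj_dir_mul, mul_one, add_re, ofReal_re]

theorem ph_abs (i : Fin (n + 3)) (x : ℂ × ℝ) : |ph p i x| ≤ ‖x.1 - p i‖ := by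
  unfold ph
  refine (Complex.abs_re_le_norm _).trans ?_
  rw [norm_mul, RCLike.norm_conj, norm_dir, one_mul]

theorem ph_per (i : Fin (n + 3)) (z : ℂ) (θ : ℝ) :
    ph p i (z, θ + 2 * π) = ph p i (z, θ) := by
  unfold ph
  simp only [dir_periodic]

/-- on the line of a side through the vertex the phase does not change under reflection -/
theorem ph_refl {i a : Fin (n + 3)} (hia : i = a ∨ i = a + 1)
    {y : ℂ} (hy : y ∈ openSegment ℝ (p a) (p (a + 1))) (θ : ℝ) :
    ph p i (y, 2 * tau p a - θ) = ph p i (y, θ) := by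
  have h3 : p (a + 1) - p a = (‖p (a + 1) - p a‖ : ℂ) * dir (tau p a) := by
    unfold tau dir
    exact (Complex.norm_mul_exp_arg_mul_I _).symm
  obtain ⟨s, hs⟩ : ∃ s : ℝ, y - p i = (s : ℂ) * dir (tau p a) := by
    obtain ⟨u, v, hu, hv, huv, rfl⟩ := hy
    rcases hia with rfl | rfl
    · refine ⟨v * ‖p (i + 1) - p i‖, ?_⟩
      have : u • p i + v • p (i + 1) - p i = (v : ℂ) * (p (i + 1) - p i) := by
        rw [real_smul, real_smul]
        have : (u : ℂ) = 1 - v := by
          have : u = 1 - v := by linarith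
          rw [this]; push_cast; ring
        rw [this]; ring
      rw [this]
      nth_rewrite 1 [h3]
      push_cast
      ring
    · refine ⟨- (u * ‖p (a + 1) - p a‖), ?_⟩
      have : u • p a + v • p (a + 1) - p (a + 1) = - ((u : ℂ) * (p (a + 1) - p a)) := by
        rw [real_smul, real_smul]
        have : (v : ℂ) = 1 - u := by
          have : v = 1 - u := by linarith
          rw [this]; push_cast; ring
        rw [this]; ring
      rw [this]
      nth_rewrite 1 [h3]
      push_cast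
      ring
  unfold ph
  simp only
  rw [hs]
  have hconj : ∀ b : ℝ, conj (dir b) = dir (-b) := by
    intro b
    apply Complex.ext
    · rw [conj_re, dir_re, dir_re, Real.cos_neg]
    · rw [conj_im, dir_im, dir_im, Real.sin_neg]
  have e : ∀ φ : ℝ, conj (dir φ) * ((s : ℂ) * dir (tau p a)) = (s : ℂ) * dir (tau p a - φ) := by
    intro φ
    rw [hconj, show tau p a - φ = -φ + tau p a by ring, dir_add]
    ring
  rw [e, e, re_ofReal_mul, re_ofReal_mul, dir_re, dir_re]
  congr 1
  rw [show tau p a - (2 * tau p a - θ) = -(tau p a - θ) by ring, Real.cos_neg]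

/-- the eigenfunction relative to the vertex `i` -/
noncomputable def rel (p : Fin (n + 3) → ℂ) (lam : ℝ) (i : Fin (n + 3)) (f : ℂ × ℝ → ℂ)
    (x : ℂ × ℝ) : ℂ := exp ((-(lam * ph p i x) : ℝ) * I) * f x

theorem rel_refl {lam : ℝ} {f : ℂ × ℝ → ℂ}
    (hE : IsEigenfunction p lam f) {i a : Fin (n + 3)} (hia : i = a ∨ i = a + 1)
    {y : ℂ} (hy : y ∈ openSegment ℝ (p a) (p (a + 1))) {θ s r : ℝ} (hs : 0 < s) (hr : 0 < r)
    (h1 : y - s • dir θ ∈ region p) (h2 : y + r • dir (2 * tau p a - θ) ∈ region p) :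
    rel p lam i f (y - s • dir θ, θ) =
      rel p lam i f (y + r • dir (2 * tau p a - θ), 2 * tau p a - θ) := by
  unfold rel
  rw [hE.reflect a y hy θ s r hs hr h1 h2, ← mul_assoc, ← exp_add]
  congr 2
  rw [ph_free, ph_refl hia hy, show y - s • dir θ = y + (-s) • dir θ by
    rw [neg_smul, sub_eq_add_neg], ph_free, ← add_mul]
  congr 1
  push_cast
  ring

theorem rel_re {lam : ℝ} {f : ℂ × ℝ → ℂ}
    (hE : IsEigenfunction p lam f) {i a : Fin (n + 3)} (hia : i = a ∨ i = a + 1) :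
    ReflAt p a (fun x => (rel p lam i f x).re) := by
  intro y hy θ s r hs hr h1 h2
  simp only
  rw [rel_refl hE hia hy hs hr h1 h2]

theorem rel_im {lam : ℝ} {f : ℂ × ℝ → ℂ}
    (hE : IsEigenfunction p lam f) {i a : Fin (n + 3)} (hia : i = a ∨ i = a + 1) :
    ReflAt p a (fun x => (rel p lam i f x).im) := by
  intro y hy θ s r hs hr h1 h2
  simp only
  rw [rel_refl hE hia hy hs hr h1 h2]

theorem exp_close (a : ℝ) : ‖exp ((a : ℂ) * I) - 1‖ ≤ |a| := by
  have := Real.norm_exp_I_mul_ofReal_sub_one_le (x := a)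
  rw [mul_comm, Real.norm_eq_abs] at this
  exact this

/-- the limits at the vertices are constant -/
theorem eig_const (hp : IsConvexPolygon p) (hirr : ∀ i, Irrational (ang p i / π))
    {lam : ℝ} {f : ℂ × ℝ → ℂ} (hE : IsEigenfunction p lam f) (hL : HasLimits p f) {c0 : ℝ}
    (hc0 : ∀ᵐ x : ℂ × ℝ, x.1 ∈ region p → ‖f x‖ = c0) (i : Fin (n + 3)) :
    ∃ c : ℂ, ∀ η : ℝ, 0 < η → ∃ r : ℝ, 0 < r ∧
      ∀ᵐ x : ℂ × ℝ, x.1 ∈ region p → ‖x.1 - p i‖ < r → ‖f x - c‖ ≤ η := by
  obtain ⟨g, hg, hper, h⟩ := hL i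
  have hrel : ∀ η : ℝ, 0 < η → ∃ r : ℝ, 0 < r ∧
      ∀ᵐ x : ℂ × ℝ, x.1 ∈ region p → ‖x.1 - p i‖ < r → ‖rel p lam i f x - g x.2‖ ≤ η := by
    intro η hη
    obtain ⟨r, hr, hae⟩ := h (η / 2) (half_pos hη)
    set K : ℝ := |lam| * |c0| + 1 with hK
    have hK0 : 0 < K := by positivity
    refine ⟨min r (η / (2 * K)), lt_min hr (by positivity), ?_⟩
    filter_upwards [hae, hc0] with x h1 h2 h3 h4
    have h5 := h1 h3 (h4.trans_le (min_le_left _ _))
    have h6 := h4.trans_le (min_le_right _ _)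
    have h7 : rel p lam i f x - g x.2 =
        (exp ((-(lam * ph p i x) : ℝ) * I) - 1) * f x + (f x - g x.2) := by
      unfold rel; ring
    have h8 : ‖(exp ((-(lam * ph p i x) : ℝ) * I) - 1) * f x‖ ≤ η / 2 := by
      rw [norm_mul, h2 h3]
      have e1 := exp_close (-(lam * ph p i x))
      rw [abs_neg, abs_mul] at e1
      have e2 : |lam| * |ph p i x| ≤ |lam| * (η / (2 * K)) :=
        mul_le_mul_of_nonneg_left ((ph_abs i x).trans h6.le) (abs_nonneg _)
      have e3 : c0 ≤ |c0| := le_abs_self _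
      have e4 : 0 ≤ η / (2 * K) := by positivity
      calc ‖exp ((-(lam * ph p i x) : ℝ) * I) - 1‖ * c0
          ≤ ‖exp ((-(lam * ph p i x) : ℝ) * I) - 1‖ * |c0| :=
            mul_le_mul_of_nonneg_left e3 (norm_nonneg _)
        _ ≤ (|lam| * (η / (2 * K))) * |c0| :=
            mul_le_mul_of_nonneg_right (e1.trans e2) (abs_nonneg _)
        _ = (|lam| * |c0|) * (η / (2 * K)) := by ring
        _ ≤ K * (η / (2 * K)) := by
            refine mul_le_mul_of_nonneg_right ?_ e4
            rw [hK]; linarith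
        _ = η / 2 := by field_simp
    rw [h7]
    calc _ ≤ ‖(exp ((-(lam * ph p i x) : ℝ) * I) - 1) * f x‖ + ‖f x - g x.2‖ := norm_add_le _ _
      _ ≤ η := by linarith
  obtain ⟨c1, hc1⟩ := vertex_constR hp (i := i) (f := fun x => (rel p lam i f x).re)
    (rel_re hE (Or.inl rfl)) (rel_re hE (Or.inr (by rw [sub_add_cancel]))) (hirr i)
    (g := fun θ => (g θ).re) hg.re (fun θ => by simp only [hper]) (by
      intro η hη
      obtain ⟨r, hr, hae⟩ := hrel η hη
      refine ⟨r, hr, ?_⟩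
      filter_upwards [hae] with x hx h1 h2
      rw [← sub_re]
      exact (abs_re_le_norm _).trans (hx h1 h2))
  obtain ⟨c2, hc2⟩ := vertex_constR hp (i := i) (f := fun x => (rel p lam i f x).im)
    (rel_im hE (Or.inl rfl)) (rel_im hE (Or.inr (by rw [sub_add_cancel]))) (hirr i)
    (g := fun θ => (g θ).im) hg.im (fun θ => by simp only [hper]) (by
      intro η hη
      obtain ⟨r, hr, hae⟩ := hrel η hη
      refine ⟨r, hr, ?_⟩
      filter_upwards [hae] with x hx h1 h2
      rw [← sub_im]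
      exact (abs_im_le_norm _).trans (hx h1 h2))
  refine ⟨⟨c1, c2⟩, fun η hη => ?_⟩
  obtain ⟨r, hr, hae⟩ := h η hη
  refine ⟨r, hr, ?_⟩
  have hgc : ∀ᵐ θ : ℝ, g θ = ⟨c1, c2⟩ := by
    filter_upwards [hc1, hc2] with θ h1 h2
    exact Complex.ext h1 h2
  have hc : ∀ᵐ x : ℂ × ℝ, g x.2 = ⟨c1, c2⟩ :=
    (Measure.quasiMeasurePreserving_snd (μ := (volume : Measure ℂ))
      (ν := (volume : Measure ℝ))).ae hgc
  filter_upwards [hae, hc] with x h1 h2 h3 h4
  rw [← h2]
  exact h1 h3 h4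

theorem vert_close (hp : IsConvexPolygon p) (i : Fin (n + 3)) {r : ℝ} (hr : 0 < r) :
    ∃ z ∈ region p, ‖z - p i‖ < r := by
  rw [region_eq hp]
  exact near_vertex hp i hr

/-- the relation between the limits at two vertices -/
theorem pair_rel (hp : IsConvexPolygon p) {lam : ℝ} {f : ℂ × ℝ → ℂ}
    (hE : IsEigenfunction p lam f) (c : Fin (n + 3) → ℂ)
    (h : ∀ i, ∀ η : ℝ, 0 < η → ∃ r : ℝ, 0 < r ∧
      ∀ᵐ x : ℂ × ℝ, x.1 ∈ region p → ‖x.1 - p i‖ < r → ‖f x - c i‖ ≤ η) (i j : Fin (n + 3)) :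
    exp ((lam * ‖p j - p i‖ : ℝ) * I) * c i = c j := by
  have hrr := region_eq hp
  have hopen := reg_open hp
  set d : ℝ := ‖p j - p i‖ with hd
  have key : ∀ η : ℝ, 0 < η → ‖exp ((lam * d : ℝ) * I) * c i - c j‖ ≤ 3 * η := by
    intro η hη
    obtain ⟨r, hr, h1⟩ := h i η hη
    obtain ⟨r', hr', h2⟩ := h j η hη
    set K : ℝ := |lam| * ‖c i‖ + 1 with hK
    have hK0 : 0 < K := by positivity
    set ρ : ℝ := η / (2 * K) with hρ
    have hρ0 : 0 < ρ := by positivity
    obtain ⟨z0, hz0, hz0r⟩ := near_vertex hp i (lt_min hr hρ0)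
    obtain ⟨w0, hw0, hw0r⟩ := near_vertex hp j (lt_min hr' hρ0)
    set l : ℝ := ‖w0 - z0‖ with hl
    set φ : ℝ := arg (w0 - z0) with hφ
    have hw : z0 + l • dir φ = w0 := by
      have := Complex.norm_mul_exp_arg_mul_I (w0 - z0)
      rw [real_smul]
      unfold dir
      rw [hl, hφ, this]; ring
    have hld : |l - d| ≤ 2 * ρ := by
      have e1 : |l - d| ≤ ‖(w0 - z0) - (p j - p i)‖ := abs_norm_sub_norm_le _ _
      have e2 : (w0 - z0) - (p j - p i) = (w0 - p j) - (z0 - p i) := by ring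
      rw [e2] at e1
      have e3 := norm_sub_le (w0 - p j) (z0 - p i)
      have e4 := hz0r.trans_le (min_le_right _ _)
      have e5 := hw0r.trans_le (min_le_right _ _)
      linarith
    have hsh := shear (fun θ => l • dir θ) (continuous_dir.const_smul l).measurable
    have h2' : ∀ᵐ x : ℂ × ℝ, x.1 + l • dir x.2 ∈ region p → ‖x.1 + l • dir x.2 - p j‖ < r' →
        ‖f (x.1 + l • dir x.2, x.2) - c j‖ ≤ η := hsh.quasiMeasurePreserving.ae h2
    have hc : Continuous fun x : ℂ × ℝ => x.1 + l • dir x.2 :=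
      continuous_fst.add ((continuous_dir.comp continuous_snd).const_smul l)
    have hev : ∀ᶠ x : ℂ × ℝ in 𝓝 (z0, φ), x.1 ∈ reg p ∧ ‖x.1 - p i‖ < r ∧
        x.1 + l • dir x.2 ∈ reg p ∧ ‖x.1 + l • dir x.2 - p j‖ < r' := by
      have c1 : ∀ᶠ x : ℂ × ℝ in 𝓝 (z0, φ), x.1 ∈ reg p :=
        continuous_fst.continuousAt (hopen.mem_nhds hz0)
      have c2 : ∀ᶠ x : ℂ × ℝ in 𝓝 (z0, φ), ‖x.1 - p i‖ < r := by
        have : Continuous fun x : ℂ × ℝ => ‖x.1 - p i‖ := by fun_prop
        exact (this.tendsto (z0, φ)).eventually_lt_const (hz0r.trans_le (min_le_left _ _))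
      have c3 : ∀ᶠ x : ℂ × ℝ in 𝓝 (z0, φ), x.1 + l • dir x.2 ∈ reg p :=
        hc.continuousAt (hopen.mem_nhds (by simp only; rw [hw]; exact hw0))
      have c4 : ∀ᶠ x : ℂ × ℝ in 𝓝 (z0, φ), ‖x.1 + l • dir x.2 - p j‖ < r' := by
        have : Continuous fun x : ℂ × ℝ => ‖x.1 + l • dir x.2 - p j‖ :=
          (hc.sub continuous_const).norm
        exact (this.tendsto (z0, φ)).eventually_lt_const (by
          simp only; rw [hw]; exact hw0r.trans_le (min_le_left _ _))
      filter_upwards [c1, c2, c3, c4] with x a b c d using ⟨a, b, c, d⟩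
    obtain ⟨⟨z, θ⟩, ⟨a1, a2⟩, b1, b2, b3, b4⟩ :=
      (Measure.dense_of_ae (h1.and h2')).inter_nhds_nonempty hev
    have e0 := hE.free z θ l (by rw [hrr]; exact b1) (by rw [hrr]; exact b3)
    have e1 := a1 (by rw [hrr]; exact b1) b2
    have e2 := a2 (by rw [hrr]; exact b3) b4
    simp only at e1 e2
    rw [e0] at e2
    have e3 : exp ((lam * d : ℝ) * I) * c i - c j =
        (exp ((lam * d : ℝ) * I) - exp ((lam * l : ℝ) * I)) * c i +
        (- (exp ((lam * l : ℝ) * I) * (f (z, θ) - c i)) +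
        (exp ((lam * l : ℝ) * I) * f (z, θ) - c j)) := by ring
    have e4 : ‖(exp ((lam * d : ℝ) * I) - exp ((lam * l : ℝ) * I)) * c i‖ ≤ η := by
      have e5 : exp ((lam * d : ℝ) * I) - exp ((lam * l : ℝ) * I) =
          exp ((lam * l : ℝ) * I) * (exp ((lam * (d - l) : ℝ) * I) - 1) := by
        rw [mul_sub, ← exp_add, mul_one]
        congr 2
        push_cast
        ring
      rw [norm_mul, e5, norm_mul, norm_e, one_mul]
      have e6 := exp_close (lam * (d - l))
      rw [abs_mul, abs_sub_comm] at e6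
      calc ‖exp ((lam * (d - l) : ℝ) * I) - 1‖ * ‖c i‖
          ≤ (|lam| * (2 * ρ)) * ‖c i‖ := by
            refine mul_le_mul_of_nonneg_right (e6.trans ?_) (norm_nonneg _)
            exact mul_le_mul_of_nonneg_left hld (abs_nonneg _)
        _ = (|lam| * ‖c i‖) * (2 * ρ) := by ring
        _ ≤ K * (2 * ρ) := by
            refine mul_le_mul_of_nonneg_right ?_ (by positivity)
            rw [hK]; linarith
        _ = η := by rw [hρ]; field_simp
    have e7 : ‖- (exp ((lam * l : ℝ) * I) * (f (z, θ) - c i))‖ ≤ η := by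
      rw [norm_neg, norm_mul, norm_e, one_mul]
      exact e1
    rw [e3]
    calc _ ≤ ‖(exp ((lam * d : ℝ) * I) - exp ((lam * l : ℝ) * I)) * c i‖ +
        ‖- (exp ((lam * l : ℝ) * I) * (f (z, θ) - c i)) +
        (exp ((lam * l : ℝ) * I) * f (z, θ) - c j)‖ := norm_add_le _ _
      _ ≤ ‖(exp ((lam * d : ℝ) * I) - exp ((lam * l : ℝ) * I)) * c i‖ +
        (‖- (exp ((lam * l : ℝ) * I) * (f (z, θ) - c i))‖ +
        ‖exp ((lam * l : ℝ) * I) * f (z, θ) - c j‖) := by gcongr; exact norm_add_le _ _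
      _ ≤ 3 * η := by linarith
  have h0 : ‖exp ((lam * d : ℝ) * I) * c i - c j‖ ≤ 0 := by
    refine le_of_forall_pos_le_add fun η hη => ?_
    have := key (η / 3) (by linarith)
    linarith
  exact sub_eq_zero.1 (norm_le_zero_iff.1 h0)

/-- twice the distance of two vertices is a period -/
theorem dist_period (hp : IsConvexPolygon p) {lam : ℝ} {f : ℂ × ℝ → ℂ}
    (hE : IsEigenfunction p lam f) (c : Fin (n + 3) → ℂ)
    (h : ∀ i, ∀ η : ℝ, 0 < η → ∃ r : ℝ, 0 < r ∧
      ∀ᵐ x : ℂ × ℝ, x.1 ∈ region p → ‖x.1 - p i‖ < r → ‖f x - c i‖ ≤ η) (i j : Fin (n + 3))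
    (hci : c i ≠ 0) : ∃ k : ℤ, lam * ‖p j - p i‖ = k * π := by
  have h1 := pair_rel hp hE c h i j
  have h2 := pair_rel hp hE c h j i
  rw [norm_sub_rev] at h2
  rw [← h1, ← mul_assoc, ← exp_add] at h2
  have h3 : exp (((lam * ‖p j - p i‖ : ℝ) : ℂ) * I + ((lam * ‖p j - p i‖ : ℝ) : ℂ) * I) = 1 := by
    have : exp (((lam * ‖p j - p i‖ : ℝ) : ℂ) * I + ((lam * ‖p j - p i‖ : ℝ) : ℂ) * I) * c i =
        1 * c i := by rw [h2, one_mul]
    exact mul_right_cancel₀ hci this
  obtain ⟨k, hk⟩ := Complex.exp_eq_one_iff.1 h3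
  refine ⟨k, ?_⟩
  have h4 : ((2 * (lam * ‖p j - p i‖) : ℝ) : ℂ) * I = ((2 * (k * π) : ℝ) : ℂ) * I := by
    push_cast
    push_cast at hk
    linear_combination hk
  have h5 := mul_right_cancel₀ I_ne_zero h4
  have h6 : 2 * (lam * ‖p j - p i‖) = 2 * (k * π) := by exact_mod_cast h5
  linarith

/-- Eigenfunctions with limits at the vertices. -/
theorem eig_main (hp : IsConvexPolygon p) (hirr : ∀ i, Irrational (ang p i / π))
    (hrat : HasIrrationalRatio p) {lam : ℝ} {f : ℂ × ℝ → ℂ} (hf : Measurable f)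
    (hE : IsEigenfunction p lam f) (hL : HasLimits p f) :
    ∃ c : ℂ, (∀ᵐ x : ℂ × ℝ, x.1 ∈ region p → f x = c) ∧ (lam ≠ 0 → c = 0) := by
  obtain ⟨c0, hc0⟩ := const_of_limits hp hirr hf.norm (abs_inv hE) (abs_lim hL)
  have hc := fun i => eig_const hp hirr hE hL hc0 i
  choose c hc using hc
  by_cases hlam : lam = 0
  · subst hlam
    have hre : IsInvariantFun p (fun x => (f x).re) :=
      { periodic := fun z θ => by rw [hE.periodic]
        free := fun z θ s h1 h2 => by
          rw [hE.free z θ s h1 h2]; simp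
        reflect := fun i y hy θ s r hs hr h1 h2 => by
          rw [hE.reflect i y hy θ s r hs hr h1 h2]; simp }
    have him : IsInvariantFun p (fun x => (f x).im) :=
      { periodic := fun z θ => by rw [hE.periodic]
        free := fun z θ s h1 h2 => by
          rw [hE.free z θ s h1 h2]; simp
        reflect := fun i y hy θ s r hs hr h1 h2 => by
          rw [hE.reflect i y hy θ s r hs hr h1 h2]; simp }
    obtain ⟨a, ha⟩ := const_of_limits hp hirr (f := fun x => (f x).re)
      (Complex.measurable_re.comp hf) hre (by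
      intro i
      obtain ⟨g, hg, hper, h⟩ := hL i
      refine ⟨fun θ => (g θ).re, hg.re, fun θ => by simp only [hper], fun η hη => ?_⟩
      obtain ⟨r, hr, hae⟩ := h η hη
      refine ⟨r, hr, ?_⟩
      filter_upwards [hae] with x hx h1 h2
      rw [← sub_re]
      exact (abs_re_le_norm _).trans (hx h1 h2))
    obtain ⟨b, hb⟩ := const_of_limits hp hirr (f := fun x => (f x).im)
      (Complex.measurable_im.comp hf) him (by
      intro i
      obtain ⟨g, hg, hper, h⟩ := hL i
      refine ⟨fun θ => (g θ).im, hg.im, fun θ => by simp only [hper], fun η hη => ?_⟩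
      obtain ⟨r, hr, hae⟩ := h η hη
      refine ⟨r, hr, ?_⟩
      filter_upwards [hae] with x hx h1 h2
      rw [← sub_im]
      exact (abs_im_le_norm _).trans (hx h1 h2))
    refine ⟨⟨a, b⟩, ?_, fun h => absurd rfl h⟩
    filter_upwards [ha, hb] with x h1 h2 h3
    exact Complex.ext (h1 h3) (h2 h3)
  · have hz : c0 = 0 := by
      by_contra hne
      -- all limits at the vertices are nonzero
      have hci : ∀ i, c i ≠ 0 := by
        intro i h0
        obtain ⟨r, hr, hae⟩ := hc i (|c0| / 2) (by positivity)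
        obtain ⟨z, hz, hzr⟩ := near_vertex hp i hr
        have hev : ∀ᶠ x : ℂ × ℝ in 𝓝 (z, 0), x.1 ∈ reg p ∧ ‖x.1 - p i‖ < r := by
          have c1 : ∀ᶠ x : ℂ × ℝ in 𝓝 (z, 0), x.1 ∈ reg p :=
            continuous_fst.continuousAt ((reg_open hp).mem_nhds hz)
          have c2 : ∀ᶠ x : ℂ × ℝ in 𝓝 (z, 0), ‖x.1 - p i‖ < r := by
            have : Continuous fun x : ℂ × ℝ => ‖x.1 - p i‖ := by fun_prop
            exact (this.tendsto (z, 0)).eventually_lt_const hzr
          exact c1.and c2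
        obtain ⟨x, ⟨a1, a2⟩, b1, b2⟩ :=
          (Measure.dense_of_ae (hae.and hc0)).inter_nhds_nonempty hev
        have hxr : x.1 ∈ region p := by rw [region_eq hp]; exact b1
        have e1 := a1 hxr b2
        rw [h0, sub_zero, a2 hxr] at e1
        have : 0 < |c0| := abs_pos.2 hne
        have h3 : 0 ≤ c0 := by rw [← a2 hxr]; exact norm_nonneg _
        rw [abs_of_nonneg h3] at e1 this
        linarith
      obtain ⟨i, j, k, l, hijkl⟩ := hrat
      obtain ⟨m1, h1⟩ := dist_period hp hE c hc i j (hci i)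
      obtain ⟨m2, h2⟩ := dist_period hp hE c hc k l (hci k)
      apply hijkl
      refine ⟨(m1 : ℚ) / m2, ?_⟩
      push_cast
      have e1 : ‖p j - p i‖ = m1 * π / lam := by field_simp; linarith
      have e2 : ‖p l - p k‖ = m2 * π / lam := by field_simp; linarith
      rw [e1, e2]
      by_cases hm2 : (m2 : ℝ) = 0
      · rw [hm2]; simp
      · have := Real.pi_ne_zero
        field_simp
    refine ⟨0, ?_, fun _ => rfl⟩
    filter_upwards [hc0] with x hx h1
    rw [← norm_eq_zero, hx h1, hz]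

/-- in almost every polygon two sides have an irrational ratio -/
theorem ratio_ae (n : ℕ) : ∀ᵐ p : Fin (n + 3) → ℂ, IsConvexPolygon p → HasIrrationalRatio p := by
  have h : ∀ q : ℚ, ∀ᵐ p : Fin (n + 3) → ℂ, ‖p 2 - p 1‖ ≠ 0 →
      ‖p 1 - p 0‖ ≠ q * ‖p 2 - p 1‖ := by
    intro q
    set S : Set (Fin (n + 3) → ℂ) := {p | ‖p 2 - p 1‖ ≠ 0 ∧ ‖p 1 - p 0‖ = q * ‖p 2 - p 1‖}
      with hS
    have hSm : MeasurableSet S := by
      refine MeasurableSet.inter ?_ ?_
      · have : IsClosed {p : Fin (n + 3) → ℂ | ‖p 2 - p 1‖ = 0} :=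
          isClosed_eq (by fun_prop) continuous_const
        exact this.measurableSet.compl
      · have : IsClosed {p : Fin (n + 3) → ℂ | ‖p 1 - p 0‖ = q * ‖p 2 - p 1‖} :=
          isClosed_eq (by fun_prop) (by fun_prop)
        exact this.measurableSet
    have hnull : volume S = 0 := by
      refine null_of_slices 0 hSm fun y => ?_
      have h1 : (1 : Fin (n + 3)) ≠ 0 := by
        intro h; have := congrArg Fin.val h; simp at this
      have h2 : (2 : Fin (n + 3)) ≠ 0 := by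
        intro h
        have := congrArg Fin.val h
        rw [Fin.val_zero] at this
        have h3 : ((2 : Fin (n + 3)) : ℕ) = 2 := by
          show 2 % (n + 3) = 2
          exact Nat.mod_eq_of_lt (by omega)
        omega
      obtain ⟨k1, hk1⟩ := Fin.exists_succAbove_eq h1
      obtain ⟨k2, hk2⟩ := Fin.exists_succAbove_eq h2
      have e1 : ∀ w : ℂ, Fin.insertNth (α := fun _ => ℂ) 0 w y 1 = y k1 := by
        intro w
        have := Fin.insertNth_apply_succAbove (α := fun _ => ℂ) 0 w y k1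
        rwa [hk1] at this
      have e2 : ∀ w : ℂ, Fin.insertNth (α := fun _ => ℂ) 0 w y 2 = y k2 := by
        intro w
        have := Fin.insertNth_apply_succAbove (α := fun _ => ℂ) 0 w y k2
        rwa [hk2] at this
      have e3 : ∀ w : ℂ, Fin.insertNth (α := fun _ => ℂ) 0 w y 0 = w := by
        intro w
        exact Fin.insertNth_apply_same (α := fun _ => ℂ) 0 w y
      refine measure_mono_null ?_
        (Measure.addHaar_sphere volume (y k1) (q * ‖y k2 - y k1‖))
      intro w hw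
      have h5 := hw.2
      rw [e1, e2, e3] at h5
      rw [mem_sphere_iff_norm, norm_sub_rev]
      exact h5
    filter_upwards [measure_eq_zero_iff_ae_notMem.1 hnull] with p hp h1 h2
    exact hp ⟨h1, h2⟩
  filter_upwards [ae_all_iff.2 h] with p hq hp
  have hne : p 2 - p 1 ≠ 0 := by
    have := Pool.Agent.W782.PG.edge_ne hp 1
    have e : (1 : Fin (n + 3)) + 1 = 2 := by
      apply Fin.ext
      rw [Fin.val_add]
      show (1 % (n + 3) + 1 % (n + 3)) % (n + 3) = 2 % (n + 3)
      rw [Nat.mod_eq_of_lt (show 1 < n + 3 by omega)]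
    rwa [e] at this
  refine ⟨0, 1, 1, 2, ?_⟩
  rintro ⟨q, hq2⟩
  refine hq q (norm_ne_zero_iff.2 hne) ?_
  rw [hq2, div_mul_cancel₀ _ (norm_ne_zero_iff.2 hne)]

end Pool.Agent.TH103.BL
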