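import Pool.Agent.TH103.BL.EigS

set_option autoImplicit false

/-!
Continuous eigenfunctions.
-/

namespace Pool.Agent.TH103.BL

open Complex Set MeasureTheory Filter Topology Pool.Agent.W780.PG Pool.Agent.W780.BB

open scoped Real ComplexConjugate

variable {n : ℕ} {p : Fin (n + 3) → ℂ}

theorem closure_compact (hp : IsConvexPolygon p) : IsCompact (closure (region p)) := by
  obtain ⟨D, -, hD⟩ := exists_D hp
  refine Metric.isCompact_of_isClosed_isBounded isClosed_closure ?_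
  refine Metric.isBounded_iff.2 ⟨D, fun x hx y hy => ?_⟩
  rw [region_eq hp, (hB n p hp).2.2.2.2.2.2.1] at hx hy
  rw [dist_eq_norm]
  exact hD _ hx _ hy

theorem vert_closure (hp : IsConvexPolygon p) (i : Fin (n + 3)) : p i ∈ closure (region p) := by
  rw [region_eq hp, (hB n p hp).2.2.2.2.2.2.1]
  exact vert_mem hp i

theorem limits_of_cont (hp : IsConvexPolygon p) {lam : ℝ} {f : ℂ × ℝ → ℂ}
    (hE : IsEigenfunction p lam f) (hc : ContinuousOn f (closure (region p) ×ˢ univ)) :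
    HasLimits p f := by
  intro i
  have hpi := vert_closure hp i
  have hgc : Continuous fun θ : ℝ => f (p i, θ) := by
    refine hc.comp_continuous (f := fun θ : ℝ => (p i, θ)) (by fun_prop) fun θ => ?_
    exact ⟨hpi, mem_univ _⟩
  refine ⟨fun θ => f (p i, θ), hgc.measurable, fun θ => hE.periodic _ _, fun η hη => ?_⟩
  set K : Set (ℂ × ℝ) := closure (region p) ×ˢ Icc 0 (2 * π) with hK
  have hKc : IsCompact K := (closure_compact hp).prod isCompact_Icc
  have hu : UniformContinuousOn f K :=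
    hKc.uniformContinuousOn_of_continuous (hc.mono (prod_mono le_rfl (subset_univ _)))
  obtain ⟨δ, hδ, h⟩ := Metric.uniformContinuousOn_iff.1 hu η hη
  refine ⟨δ, hδ, Eventually.of_forall fun x hx hxr => ?_⟩
  obtain ⟨z, θ⟩ := x
  have hper : ∀ z : ℂ, Function.Periodic (fun θ => f (z, θ)) (2 * π) := fun z θ => hE.periodic z θ
  have h3 : f (p i, θ) = f (p i, toIcoMod Real.two_pi_pos 0 θ) := by
    have := (hper (p i)).sub_zsmul_eq (x := θ) (toIcoDiv Real.two_pi_pos 0 θ)
    exact this.symm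
  have h4 : f (z, θ) = f (z, toIcoMod Real.two_pi_pos 0 θ) := by
    have := (hper z).sub_zsmul_eq (x := θ) (toIcoDiv Real.two_pi_pos 0 θ)
    exact this.symm
  have h5 : toIcoMod Real.two_pi_pos 0 θ ∈ Icc 0 (2 * π) := by
    have := toIcoMod_mem_Ico Real.two_pi_pos 0 θ
    rw [zero_add] at this
    exact Ico_subset_Icc_self this
  simp only
  rw [h3, h4, ← dist_eq_norm]
  have h6 : (z, toIcoMod Real.two_pi_pos 0 θ) ∈ K := ⟨subset_closure hx, h5⟩
  have h7 : (p i, toIcoMod Real.two_pi_pos 0 θ) ∈ K := ⟨hpi, h5⟩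
  refine (h _ h6 _ h7 ?_).le
  rw [Prod.dist_eq, dist_self, max_lt_iff, dist_eq_norm]
  exact ⟨hxr, hδ⟩

theorem eig_cont (hp : IsConvexPolygon p) (hirr : ∀ i, Irrational (ang p i / π))
    (hrat : HasIrrationalRatio p) {lam : ℝ} {f : ℂ × ℝ → ℂ} (hf : Measurable f)
    (hE : IsEigenfunction p lam f) (hc : ContinuousOn f (closure (region p) ×ˢ univ)) :
    ∃ c : ℂ, (∀ z ∈ region p, ∀ θ, f (z, θ) = c) ∧ (lam ≠ 0 → c = 0) := by
  obtain ⟨c, h1, h2⟩ := eig_main hp hirr hrat hf hE (limits_of_cont hp hE hc)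
  refine ⟨c, fun z hz θ => ?_, h2⟩
  by_contra hne
  have hopen : IsOpen (region p ×ˢ (univ : Set ℝ)) := by
    rw [region_eq hp]
    exact (reg_open hp).prod isOpen_univ
  have hc' : ContinuousOn f (region p ×ˢ univ) := hc.mono (prod_mono subset_closure le_rfl)
  have ho : IsOpen ((region p ×ˢ (univ : Set ℝ)) ∩ f ⁻¹' {c}ᶜ) :=
    hc'.isOpen_inter_preimage hopen isOpen_compl_singleton
  obtain ⟨x, ⟨hx1, hx2⟩, hx3⟩ := (Measure.dense_of_ae h1).inter_open_nonempty _ ho
    ⟨(z, θ), ⟨hz, mem_univ _⟩, hne⟩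
  exact hx2 (hx3 hx1.1)

end Pool.Agent.TH103.BL
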