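import Pool.Agent.TH103.BL.Eig

set_option autoImplicit false

/-!
Eigenfunctions with one-sided limits at the vertices.
-/

namespace Pool.Agent.TH103.BL

open Complex Set MeasureTheory Filter Topology Pool.Agent.W780.PG Pool.Agent.W780.BB

open scoped Real ComplexConjugate

variable {n : ℕ} {p : Fin (n + 3) → ℂ}

/-- an eigenfunction along an itinerary -/
theorem eig_gen (hp : IsConvexPolygon p) {lam : ℝ} {f : ℂ × ℝ → ℂ}
    (hE : IsEigenfunction p lam f) :
    ∀ (w : List (Fin (n + 3))) (y : ℂ) (θ s r : ℝ), 0 < s → y + (r * s) • dir θ ∈ reg p →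
      Ch p w y (y + s • dir θ) →
      f (fd p w (y + s • dir θ, θ)) =
        exp ((lam * ((1 - r) * s) : ℝ) * I) * f (y + (r * s) • dir θ, θ) := by
  obtain ⟨-, -, hR3, hR4, hR5, -⟩ := hR n p hp
  have hreg := region_eq hp
  intro w
  induction w with
  | nil =>
    intro y θ s r hs hz hA
    have h1 := hE.free (y + (r * s) • dir θ) θ (s - r * s) (by rw [hreg]; exact hz)
    have e : y + (r * s) • dir θ + (s - r * s) • dir θ = y + s • dir θ := by
      rw [add_assoc, ← add_smul]; congr 2; ring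
    rw [e, hreg] at h1
    have h2 := h1 hA
    rw [show (1 - r) * s = s - r * s by ring]
    exact h2
  | cons i w ih =>
    intro y θ s r hs hz hCh
    obtain ⟨hy, hA, hc, hCh'⟩ := hCh
    obtain ⟨A, hAdef⟩ : ∃ A : ℂ, A = y + s • dir θ := ⟨_, rfl⟩
    obtain ⟨t, ht⟩ : ∃ t : ℝ, t = sf p i y / (sf p i y - sf p i A) := ⟨_, rfl⟩
    rw [← hAdef] at hA hc hCh'
    have hAy : A - y = s • dir θ := by rw [hAdef]; ring
    have hden : 0 < sf p i y - sf p i A := by linarith
    have ht0 : 0 < t := by rw [ht]; exact div_pos hy hden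
    have ht1 : t < 1 := by rw [ht, div_lt_one hden]; linarith
    have hcr : cr p i y A = y + (t * s) • dir θ := by
      unfold cr
      rw [← ht, hAy, smul_smul]
    have hc0 : sf p i (cr p i y A) = 0 := by
      have h1 : cr p i y A = y + t • (A - y) := by unfold cr; rw [← ht]
      rw [h1, Pool.Agent.W82.BB.sf_line, ht]
      field_simp
      ring
    obtain ⟨c, hcdef⟩ : ∃ c : ℂ, c = cr p i y A := ⟨_, rfl⟩
    rw [← hcdef] at hc hc0 hCh' hcr
    have hside : c ∈ side p i := Pool.Agent.W82.BB.mem_side hp hc0 hc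
    have hr : r < t := by
      have h1 := hz i
      have h2 : y + (r * s) • dir θ = y + r • (A - y) := by rw [hAy, smul_smul]
      rw [h2] at h1
      have h3 := Pool.Agent.W82.BB.sf_line p i y A r
      unfold sf at h3
      rw [h3] at h1
      have h4 : (1 - r) * sf p i y + r * sf p i A > 0 := h1
      rw [ht, lt_div_iff₀ hden]
      linarith
    -- the next piece
    have hrfc : rf p i c = c := hR4 i c hc0
    have hA2 : A = c + ((1 - t) * s) • dir θ := by
      rw [hcr, hAdef, add_assoc, ← add_smul]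
      congr 2
      ring
    have hrfA : rf p i A = c + ((1 - t) * s) • dir (2 * tau p i - θ) := by
      conv_lhs => rw [hA2]
      rw [hR5, hrfc]
    have hsfA : 0 < sf p i (rf p i A) := by rw [hR3]; linarith
    obtain ⟨u, hu0, hu1, hu⟩ := Pool.Agent.W82.BB.small_step hc0 hc hsfA
    have hu' : c + (u * ((1 - t) * s)) • dir (2 * tau p i - θ) ∈ reg p := by
      have e : c + u • (rf p i A - c) = c + (u * ((1 - t) * s)) • dir (2 * tau p i - θ) := by
        rw [hrfA, add_sub_cancel_left, smul_smul]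
      rwa [e] at hu
    have htr : 0 < t - r := by linarith
    have h1t : 0 < 1 - t := by linarith
    have hIH := ih c (2 * tau p i - θ) ((1 - t) * s) u (mul_pos h1t hs) hu'
      (by rw [← hrfA]; exact hCh')
    have hfd : fd p (i :: w) (A, θ) =
        fd p w (c + ((1 - t) * s) • dir (2 * tau p i - θ), 2 * tau p i - θ) := by
      rw [← hrfA]
      rfl
    rw [← hAdef, hfd, hIH]
    have hz' : y + (r * s) • dir θ = c - ((t - r) * s) • dir θ := by
      rw [hcr]
      have : (r * s) = t * s - (t - r) * s := by ring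
      rw [this, sub_smul]
      ring
    have h1 := hE.reflect i c hside θ ((t - r) * s) (u * ((1 - t) * s))
      (mul_pos htr hs) (mul_pos hu0 (mul_pos h1t hs))
    rw [hreg, ← hz'] at h1
    rw [h1 hz hu', ← mul_assoc, ← exp_add]
    congr 2
    rw [← add_mul]
    congr 1
    push_cast
    ring

theorem inv_fun_back (hp : IsConvexPolygon p) {lam : ℝ} {f : ℂ × ℝ → ℂ}
    (hE : IsEigenfunction p lam f)
    {w : List (Fin (n + 3))} {z : ℂ} {θ s : ℝ} (hz : z ∈ reg p) (hs : 0 < s)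
    (h : Ch p w z (z + s • dir θ)) :
    f (z, θ) = exp ((-(lam * s) : ℝ) * I) * f (fd p w (z + s • dir θ, θ)) := by
  have h1 := eig_gen hp hE w z θ s 0 hs (by simpa using hz) h
  rw [h1, ← mul_assoc, ← exp_add]
  have : (((-(lam * s) : ℝ) : ℂ) * I + ((lam * ((1 - 0) * s) : ℝ) : ℂ) * I) = 0 := by
    push_cast; ring
  rw [this, exp_zero, one_mul, zero_mul, zero_smul, add_zero]

/-- the condition at the vertices, with one-sided values -/
def SidedE (p : Fin (n + 3) → ℂ) (f : ℂ × ℝ → ℂ) (gp gm : Fin (n + 3) → ℝ → ℂ) (η r : ℝ) : Prop :=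
  ∀ᵐ x : ℂ × ℝ, ∀ i, x.1 ∈ region p → ‖x.1 - p i‖ < r →
    (0 < sd p i x → ‖f x - gp i x.2‖ ≤ η) ∧ (sd p i x < 0 → ‖f x - gm i x.2‖ ≤ η)

theorem loc_fwdE (hp : IsConvexPolygon p) {lam : ℝ} {f : ℂ × ℝ → ℂ}
    (hE : IsEigenfunction p lam f)
    {gp gm : Fin (n + 3) → ℝ → ℂ} {η r : ℝ} (hr : 0 < r) (hV : SidedE p f gp gm η r) :
    ∀ᵐ θ : ℝ, ∀ z ∈ reg p, (∀ w j, ∀ s : ℝ, 0 < s → z + s • dir θ ≠ uf p w (p j)) →
      ∃ (c : ℂ) (ρ : ℝ), 0 < ρ ∧ ∀ᵐ z' : ℂ, ‖z' - z‖ < ρ → ‖f (z', θ) - c‖ ≤ η := by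
  have hrr := region_eq hp
  have hopen := reg_open hp
  have b1 : ∀ᵐ x : ℂ × ℝ, ∀ (w : List (Fin (n + 3))) (q : ℚ), ∀ i,
      (fd p w (x.1 + (q : ℝ) • dir x.2, x.2)).1 ∈ region p →
      ‖(fd p w (x.1 + (q : ℝ) • dir x.2, x.2)).1 - p i‖ < r →
      (0 < sd p i (fd p w (x.1 + (q : ℝ) • dir x.2, x.2)) →
        ‖f (fd p w (x.1 + (q : ℝ) • dir x.2, x.2)) -
          gp i (fd p w (x.1 + (q : ℝ) • dir x.2, x.2)).2‖ ≤ η) ∧
      (sd p i (fd p w (x.1 + (q : ℝ) • dir x.2, x.2)) < 0 →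
        ‖f (fd p w (x.1 + (q : ℝ) • dir x.2, x.2)) -
          gm i (fd p w (x.1 + (q : ℝ) • dir x.2, x.2)).2‖ ≤ η) := by
    rw [ae_all_iff]
    intro w
    rw [ae_all_iff]
    intro q
    have hsh := shear (fun θ => (q : ℝ) • dir θ) (continuous_dir.const_smul (q : ℝ)).measurable
    have hmp := (Pool.Agent.W333.BB.mp n p hp w).2.2.1
    exact (hmp.comp hsh).quasiMeasurePreserving.ae hV
  have hall : ∀ᵐ θ : ℝ, ∀ m : ℕ, ∀ z ∈ reg p, ∀ (u : ℕ → Fin (n + 3)) (t : ℕ → ℝ),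
      Orb p z θ u t → ∃ K s j, tp t K < s ∧ s < t K ∧
      ‖ps p z θ u K s - p j‖ < 1 / ((m : ℝ) + 1) := by
    rw [ae_all_iff]
    intro m
    exact allz hp (by positivity)
  filter_upwards [ae_swap b1, hall] with θ hθ1 hθ2 z hz hgen
  -- the orbit
  have hOk : Ok p z θ 0 := by
    refine ⟨?_, hgen⟩
    have hc : Continuous fun s : ℝ => z + s • dir θ := by fun_prop
    have h3 : ∀ᶠ s in 𝓝 (0 : ℝ), z + s • dir θ ∈ reg p :=
      hc.continuousAt (hopen.mem_nhds (by rw [zero_smul, add_zero]; exact hz))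
    obtain ⟨δ, hδ, hball⟩ := Metric.eventually_nhds_iff.1 h3
    refine ⟨δ, hδ, fun s h4 h5 => hball ?_⟩
    rw [Real.dist_eq, sub_zero, abs_of_pos h4]
    exact h5
  obtain ⟨u, t, O⟩ := exists_orb hp hOk
  -- distance to the vertices
  obtain ⟨d, hd0, hd⟩ : ∃ d : ℝ, 0 < d ∧ ∀ j, d ≤ ‖z - p j‖ := by
    have h1 : ∀ᶠ d in 𝓝[>] (0 : ℝ), ∀ j, d ≤ ‖z - p j‖ := by
      rw [eventually_all]
      intro j
      have h2 : 0 < ‖z - p j‖ := by
        rw [norm_pos_iff, sub_ne_zero]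
        rintro rfl
        have h3 := hz j
        change 0 < sf p j (p j) at h3
        rw [Pool.Agent.W82.BB.sf_vertex_left] at h3
        exact lt_irrefl _ h3
      filter_upwards [Ioo_mem_nhdsGT h2] with d hd using hd.2.le
    obtain ⟨d, h2, h3⟩ := (h1.and self_mem_nhdsWithin).exists
    exact ⟨d, h3, h2⟩
  obtain ⟨m, hm⟩ := exists_nat_gt (1 / min r (d / 2))
  have hmin : 0 < min r (d / 2) := lt_min hr (by linarith)
  have hm1 : 1 / ((m : ℝ) + 1) < min r (d / 2) := by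
    rw [div_lt_iff₀ (by positivity)]
    rw [div_lt_iff₀ hmin] at hm
    linarith
  have hmr := hm1.trans_le (min_le_left _ _)
  have hmd := hm1.trans_le (min_le_right _ _)
  set ε : ℝ := 1 / ((m : ℝ) + 1) with hε
  obtain ⟨K, s, j, hs1, hs2, hs3⟩ := hθ2 m z hz u t O
  -- a rational time
  obtain ⟨q, hq1, hq2, hq3⟩ : ∃ q : ℚ, tp t K < q ∧ (q : ℝ) < t K ∧
      ‖ps p z θ u K q - p j‖ < ε := by
    have hc : Continuous fun s : ℝ => ‖ps p z θ u K s - p j‖ := by
      unfold ps; fun_prop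
    have h1 : ∀ᶠ s' in 𝓝 s, ‖ps p z θ u K s' - p j‖ < ε := (hc.tendsto s).eventually_lt_const hs3
    obtain ⟨δ, hδ, hball⟩ := Metric.eventually_nhds_iff.1 h1
    obtain ⟨q, h2, h3⟩ := exists_rat_btwn
      (show s < min (t K) (s + δ) from lt_min hs2 (by linarith))
    have h4 := h3.trans_le (min_le_left _ _)
    have h5 := h3.trans_le (min_le_right _ _)
    refine ⟨q, hs1.trans h2, h4, hball ?_⟩
    rw [Real.dist_eq, abs_of_pos (by linarith)]
    linarith
  -- the time is not small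
  have hqε : ε < q := by
    have h1 := ps_dist hp O K q hq1.le
    have h2 := hd j
    have h3 : ‖z - p j‖ ≤ ‖ps p z θ u K q - z‖ + ‖ps p z θ u K q - p j‖ := by
      have e : z - p j = -(ps p z θ u K q - z) + (ps p z θ u K q - p j) := by ring
      rw [e]
      refine (norm_add_le _ _).trans ?_
      rw [norm_neg]
    linarith
  have hq0 : (0 : ℝ) < q := by
    have : 0 < ε := by positivity
    linarith
  -- the orbit does not lie on the line through the vertex
  have hsd : sd p j (ps p z θ u K q, angs p θ u K) ≠ 0 := by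
    intro h0
    obtain ⟨l, hl1, hl2⟩ := sd_zero h0
    have hl3 : l < q := by
      have := le_abs_self l
      linarith
    have h1 : (fd p ((List.range K).map u) (z + (q - l) • dir θ, θ)).1 = p j := by
      rw [fd_word hp]
      show srcs p z u K + ((q : ℝ) - l) • dir (angs p θ u K) = p j
      rw [hl1]
      unfold ps
      rw [sub_smul]
      ring
    have h2 := (hR n p hp).2.2.2.2.2.2.2.2.1 ((List.range K).map u) (z + (q - l) • dir θ) θ
    rw [h2] at h1
    have h3 := ((hR n p hp).2.2.2.2.2.2.1 ((List.range K).map u) (z + (q - l) • dir θ)).2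
    rw [h1] at h3
    exact hgen _ j (q - l) (by linarith) h3.symm
  -- everything is stable
  set w := (List.range K).map u with hw
  have hcz : Continuous fun z' : ℂ => z' + (q : ℝ) • dir θ := by fun_prop
  have hfdc : Continuous fun z' : ℂ => fd p w (z' + (q : ℝ) • dir θ, θ) :=
    (fd_cont hp w).comp (hcz.prodMk continuous_const)
  have e0 : fd p w (z + (q : ℝ) • dir θ, θ) = (ps p z θ u K q, angs p θ u K) := fd_word hp _ _ _ _ _
  have c1 : ∀ᶠ z' in 𝓝 z, Ch p w z' (z' + (q : ℝ) • dir θ) :=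
    ((Pool.Agent.W762.BB.open_it n p hp w).preimage
      (continuous_id.prodMk hcz)).mem_nhds (orb_ch hp O hq1 hq2)
  have c2 : ∀ᶠ z' in 𝓝 z, ‖(fd p w (z' + (q : ℝ) • dir θ, θ)).1 - p j‖ < r := by
    have : Continuous fun z' : ℂ => ‖(fd p w (z' + (q : ℝ) • dir θ, θ)).1 - p j‖ :=
      ((continuous_fst.comp hfdc).sub continuous_const).norm
    refine (this.tendsto z).eventually_lt_const ?_
    rw [e0]
    exact hq3.trans hmr
  have c3 : ∀ᶠ z' in 𝓝 z, z' ∈ reg p := hopen.mem_nhds hz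
  have hsdc : Continuous fun z' : ℂ => sd p j (fd p w (z' + (q : ℝ) • dir θ, θ)) :=
    (sd_cont p j).comp hfdc
  have hfd2 : ∀ z' : ℂ, (fd p w (z' + (q : ℝ) • dir θ, θ)).2 = angs p θ u K := by
    intro z'
    rw [hw, fd_word hp]
  have hfd1 : ∀ z' : ℂ, Ch p w z' (z' + (q : ℝ) • dir θ) →
      (fd p w (z' + (q : ℝ) • dir θ, θ)).1 ∈ region p := by
    intro z' h
    rw [(hR n p hp).2.2.2.2.2.2.2.2.1, hrr]
    exact ch_mem _ _ _ h
  rcases lt_or_gt_of_ne hsd with hneg | hpos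
  · have c4 : ∀ᶠ z' in 𝓝 z, sd p j (fd p w (z' + (q : ℝ) • dir θ, θ)) < 0 :=
      (hsdc.tendsto z).eventually_lt_const (by rw [e0]; exact hneg)
    obtain ⟨ρ, hρ, hball⟩ := Metric.eventually_nhds_iff.1 (((c1.and c2).and c3).and c4)
    refine ⟨exp ((-(lam * q) : ℝ) * I) * gm j (angs p θ u K), ρ, hρ, ?_⟩
    filter_upwards [hθ1] with z' h1 h2
    obtain ⟨⟨⟨a1, a2⟩, a3⟩, a4⟩ := hball (show dist z' z < ρ by rw [dist_eq_norm]; exact h2)
    have a5 := (h1 w q j (hfd1 z' a1) a2).2 a4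
    rw [inv_fun_back hp hE a3 hq0 a1, ← hfd2 z', ← mul_sub, norm_mul, norm_e, one_mul]
    exact a5
  · have c4 : ∀ᶠ z' in 𝓝 z, 0 < sd p j (fd p w (z' + (q : ℝ) • dir θ, θ)) :=
      (hsdc.tendsto z).eventually_const_lt (by rw [e0]; exact hpos)
    obtain ⟨ρ, hρ, hball⟩ := Metric.eventually_nhds_iff.1 (((c1.and c2).and c3).and c4)
    refine ⟨exp ((-(lam * q) : ℝ) * I) * gp j (angs p θ u K), ρ, hρ, ?_⟩
    filter_upwards [hθ1] with z' h1 h2
    obtain ⟨⟨⟨a1, a2⟩, a3⟩, a4⟩ := hball (show dist z' z < ρ by rw [dist_eq_norm]; exact h2)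
    have a5 := (h1 w q j (hfd1 z' a1) a2).1 a4
    rw [inv_fun_back hp hE a3 hq0 a1, ← hfd2 z', ← mul_sub, norm_mul, norm_e, one_mul]
    exact a5

/-- time reversal -/
theorem rev_invE {lam : ℝ} {f : ℂ × ℝ → ℂ} (hE : IsEigenfunction p lam f) :
    IsEigenfunction p (-lam) (fun x => f (x.1, x.2 + π)) := by
  refine ⟨fun z θ => ?_, fun z θ s h1 h2 => ?_, fun i y hy θ s r h1 h2 h3 h4 => ?_⟩
  · show f (z, θ + 2 * π + π) = f (z, θ + π)
    rw [show θ + 2 * π + π = θ + π + 2 * π by ring, hE.periodic]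
  · show f (z + s • dir θ, θ + π) = exp ((-lam * s : ℝ) * I) * f (z, θ + π)
    have h3 : z + (-s) • dir (θ + π) = z + s • dir θ := by
      rw [dir_pi, neg_smul, smul_neg, neg_neg]
    have := hE.free z (θ + π) (-s) h1 (by rw [h3]; exact h2)
    rw [h3] at this
    rw [this, show lam * -s = -lam * s by ring]
  · show f (y + r • dir (2 * tau p i - θ), 2 * tau p i - θ + π) =
      exp ((-lam * (s + r) : ℝ) * I) * f (y - s • dir θ, θ + π)
    have e1 : dir (2 * tau p i - θ - π) = - dir (2 * tau p i - θ) := by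
      have := dir_pi (2 * tau p i - θ - π)
      rw [sub_add_cancel] at this
      rw [this, neg_neg]
    have e2 : 2 * tau p i - (2 * tau p i - θ - π) = θ + π := by ring
    have h5 := hE.reflect i y hy (2 * tau p i - θ - π) r s h2 h1
      (by rw [e1, smul_neg, sub_neg_eq_add]; exact h4)
      (by rw [e2, dir_pi, smul_neg, ← sub_eq_add_neg]; exact h3)
    rw [e1, e2, dir_pi, smul_neg, ← sub_eq_add_neg, smul_neg, sub_neg_eq_add] at h5
    rw [h5, ← mul_assoc, ← exp_add, show 2 * tau p i - θ + π = 2 * tau p i - θ - π + 2 * π by ring,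
      hE.periodic]
    have : (((-lam * (s + r) : ℝ) : ℂ) * I + ((lam * (r + s) : ℝ) : ℂ) * I) = 0 := by
      push_cast; ring
    rw [this, exp_zero, one_mul]

theorem sided_revE {f : ℂ × ℝ → ℂ} {gp gm : Fin (n + 3) → ℝ → ℂ} {η r : ℝ}
    (hV : SidedE p f gp gm η r) :
    SidedE p (fun x => f (x.1, x.2 + π)) (fun i θ => gm i (θ + π)) (fun i θ => gp i (θ + π)) η r := by
  have h1 := (shift π).quasiMeasurePreserving.ae hV
  filter_upwards [h1] with x hx i h2 h3
  obtain ⟨a, b⟩ := hx i h2 h3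
  have e : sd p i (x.1, x.2 + π) = - sd p i x := sd_pi p i x.1 x.2
  rw [e] at a b
  exact ⟨fun h => b (by linarith), fun h => a (by linarith)⟩

theorem loc_bwdE (hp : IsConvexPolygon p) {lam : ℝ} {f : ℂ × ℝ → ℂ}
    (hE : IsEigenfunction p lam f)
    {gp gm : Fin (n + 3) → ℝ → ℂ} {η r : ℝ} (hr : 0 < r) (hV : SidedE p f gp gm η r) :
    ∀ᵐ θ : ℝ, ∀ z ∈ reg p, (∀ w j, ∀ s : ℝ, 0 < s → z - s • dir θ ≠ uf p w (p j)) →
      ∃ (c : ℂ) (ρ : ℝ), 0 < ρ ∧ ∀ᵐ z' : ℂ, ‖z' - z‖ < ρ → ‖f (z', θ) - c‖ ≤ η := by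
  have h1 := loc_fwdE hp (rev_invE hE) hr (sided_revE hV)
  have h2 := (measurePreserving_add_right (volume : Measure ℝ) (-π)).quasiMeasurePreserving.ae h1
  filter_upwards [h2] with θ hθ z hz hgen
  have e1 : dir (θ + -π) = - dir θ := by
    have := dir_pi (θ + -π)
    rw [neg_add_cancel_right] at this
    rw [this, neg_neg]
  obtain ⟨c, ρ, h3, h4⟩ := hθ z hz (fun w j s hs => by
    rw [e1, smul_neg, ← sub_eq_add_neg]
    exact hgen w j s hs)
  refine ⟨c, ρ, h3, ?_⟩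
  filter_upwards [h4] with z' h5 h6
  have := h5 h6
  simp only [neg_add_cancel_right] at this
  exact this

/-- For almost every direction, `f` is locally almost constant in the position. -/
theorem loc_allE (hp : IsConvexPolygon p) {lam : ℝ} {f : ℂ × ℝ → ℂ}
    (hE : IsEigenfunction p lam f)
    {gp gm : Fin (n + 3) → ℝ → ℂ} {η r : ℝ} (hr : 0 < r) (hV : SidedE p f gp gm η r) :
    ∀ᵐ θ : ℝ, ∀ z ∈ reg p,
      ∃ (c : ℂ) (ρ : ℝ), 0 < ρ ∧ ∀ᵐ z' : ℂ, ‖z' - z‖ < ρ → ‖f (z', θ) - c‖ ≤ η := by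
  filter_upwards [loc_fwdE hp hE hr hV, loc_bwdE hp hE hr hV, no_diag p] with θ h1 h2 h3 z hz
  rcases h3 z with h | h
  · exact h1 z hz h
  · exact h2 z hz h

end Pool.Agent.TH103.BL
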