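import Pool.Agent.TH103.BL.EigL

set_option autoImplicit false

/-!
Eigenfunctions with one-sided limits at the vertices: the final statement.
-/

namespace Pool.Agent.TH103.BL

open Complex Set MeasureTheory Filter Topology Pool.Agent.W780.PG Pool.Agent.W780.BB

open scoped Real ComplexConjugate

variable {n : ℕ} {p : Fin (n + 3) → ℂ}

/-- where both sides are present, the one-sided limits agree -/
theorem sides_agreeE (hp : IsConvexPolygon p) {lam : ℝ} {f : ℂ × ℝ → ℂ}
    (hE : IsEigenfunction p lam f)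
    {gl gr : Fin (n + 3) → ℝ → ℂ}
    (h : ∀ i, ∀ η : ℝ, 0 < η → ∃ r : ℝ, 0 < r ∧
      ∀ᵐ x : ℂ × ℝ, x.1 ∈ region p → ‖x.1 - p i‖ < r →
        (0 < sd p i x → ‖f x - gl i x.2‖ ≤ η) ∧ (sd p i x < 0 → ‖f x - gr i x.2‖ ≤ η))
    (i : Fin (n + 3)) : ∀ᵐ θ : ℝ, (∃ z ∈ reg p, 0 < sd p i (z, θ)) →
      (∃ z ∈ reg p, sd p i (z, θ) < 0) → gl i θ = gr i θ := by
  have hrr := region_eq hp
  have hopen := reg_open hp
  have key : ∀ m : ℕ, ∀ᵐ θ : ℝ, (∃ z ∈ reg p, 0 < sd p i (z, θ)) →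
      (∃ z ∈ reg p, sd p i (z, θ) < 0) →
      ‖gl i θ - gr i θ‖ ≤ 4 * (1 / ((m : ℝ) + 1)) := by
    intro m
    set η : ℝ := 1 / ((m : ℝ) + 1) with hη
    have hη0 : 0 < η := by positivity
    choose r hr hV using fun j => h j η hη0
    obtain ⟨i0, -, hmin⟩ := Finset.exists_min_image Finset.univ r ⟨0, Finset.mem_univ _⟩
    have hS : SidedE p f gl gr η (r i0) := by
      unfold SidedE
      rw [ae_all_iff]
      intro j
      filter_upwards [hV j] with x hx h2 h3
      exact hx h2 (h3.trans_le (hmin j (Finset.mem_univ _)))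
    have hloc := loc_allE hp hE (hr i0) hS
    have hsw := ae_swap hS
    filter_upwards [hloc, hsw] with θ h1 h2
    rintro ⟨z1, hz1, hs1⟩ ⟨z2, hz2, hs2⟩
    -- points near the vertex
    obtain ⟨l, hl0, hl1, hl2, hl3⟩ : ∃ l : ℝ, 0 < l ∧ l ≤ 1 ∧ l * ‖z1 - p i‖ < r i0 ∧
        l * ‖z2 - p i‖ < r i0 := by
      have e1 : ∀ᶠ l in 𝓝[>] (0 : ℝ), l * ‖z1 - p i‖ < r i0 := by
        have : Tendsto (fun l : ℝ => l * ‖z1 - p i‖) (𝓝[>] 0) (𝓝 (0 * ‖z1 - p i‖)) :=
          ((continuous_id.mul continuous_const).tendsto 0).mono_left nhdsWithin_le_nhds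
        rw [zero_mul] at this
        exact this.eventually_lt_const (hr i0)
      have e2 : ∀ᶠ l in 𝓝[>] (0 : ℝ), l * ‖z2 - p i‖ < r i0 := by
        have : Tendsto (fun l : ℝ => l * ‖z2 - p i‖) (𝓝[>] 0) (𝓝 (0 * ‖z2 - p i‖)) :=
          ((continuous_id.mul continuous_const).tendsto 0).mono_left nhdsWithin_le_nhds
        rw [zero_mul] at this
        exact this.eventually_lt_const (hr i0)
      have e3 : ∀ᶠ l in 𝓝[>] (0 : ℝ), l ≤ 1 := by
        filter_upwards [Ioo_mem_nhdsGT (one_pos (α := ℝ))] with l hl using hl.2.le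
      obtain ⟨l, ⟨⟨a, b⟩, c⟩, d⟩ := (((e1.and e2).and e3).and self_mem_nhdsWithin).exists
      exact ⟨l, d, c, a, b⟩
    set y1 : ℂ := p i + l • (z1 - p i) with hy1
    set y2 : ℂ := p i + l • (z2 - p i) with hy2
    have hy1r : y1 ∈ reg p := scale_in hp i hz1 hl0 hl1
    have hy2r : y2 ∈ reg p := scale_in hp i hz2 hl0 hl1
    have hs1' : 0 < sd p i (y1, θ) := by
      rw [hy1, sd_line, sd_vertex, mul_zero, zero_add]
      exact mul_pos hl0 hs1
    have hs2' : sd p i (y2, θ) < 0 := by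
      rw [hy2, sd_line, sd_vertex, mul_zero, zero_add]
      exact mul_neg_of_pos_of_neg hl0 hs2
    have hn1 : y1 ∈ Metric.ball (p i) (r i0) := by
      rw [Metric.mem_ball, dist_eq_norm, hy1, add_sub_cancel_left, norm_smul, Real.norm_eq_abs,
        abs_of_pos hl0]
      exact hl2
    have hn2 : y2 ∈ Metric.ball (p i) (r i0) := by
      rw [Metric.mem_ball, dist_eq_norm, hy2, add_sub_cancel_left, norm_smul, Real.norm_eq_abs,
        abs_of_pos hl0]
      exact hl3
    -- the point on the line through the vertex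
    set s : ℝ := sd p i (y1, θ) / (sd p i (y1, θ) - sd p i (y2, θ)) with hs
    have hden : 0 < sd p i (y1, θ) - sd p i (y2, θ) := by linarith
    have hs0 : 0 ≤ s := (div_pos hs1' hden).le
    have hs11 : s ≤ 1 := by rw [hs, div_le_one hden]; linarith
    set y : ℂ := y1 + s • (y2 - y1) with hy
    have hyseg : y ∈ segment ℝ y1 y2 := by
      rw [segment_eq_image']
      exact ⟨s, ⟨hs0, hs11⟩, rfl⟩
    have hyr : y ∈ reg p := (hB n p hp).2.2.1.segment_subset hy1r hy2r hyseg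
    have hyb : y ∈ Metric.ball (p i) (r i0) :=
      (convex_ball (p i) (r i0)).segment_subset hn1 hn2 hyseg
    have hy0 : sd p i (y, θ) = 0 := by
      rw [hy, sd_line, hs]
      field_simp
      ring
    obtain ⟨c, ρ, hρ, hae⟩ := h1 y hyr
    have hcz : Continuous fun z' : ℂ => sd p i (z', θ) :=
      (sd_cont p i).comp (continuous_id.prodMk continuous_const)
    -- on either side
    have side : ∀ σ : ℝ, σ ≠ 0 → ∃ z' : ℂ, 0 < sd p i (z', θ) * σ ∧ ‖f (z', θ) - c‖ ≤ η ∧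
        ((0 < sd p i (z', θ) → ‖f (z', θ) - gl i θ‖ ≤ η) ∧
          (sd p i (z', θ) < 0 → ‖f (z', θ) - gr i θ‖ ≤ η)) := by
      intro σ hσ
      have t1 : Tendsto (fun τ : ℝ => y + (τ * σ) • (I * dir θ)) (𝓝[>] 0) (𝓝 y) := by
        have : Continuous fun τ : ℝ => y + (τ * σ) • (I * dir θ) := by fun_prop
        have h3 := this.tendsto 0
        rw [zero_mul, zero_smul, add_zero] at h3
        exact h3.mono_left nhdsWithin_le_nhds
      have t2 : ∀ᶠ τ in 𝓝[>] (0 : ℝ), y + (τ * σ) • (I * dir θ) ∈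
          Metric.ball y ρ ∩ (reg p ∩ Metric.ball (p i) (r i0)) :=
        t1 (inter_mem (Metric.ball_mem_nhds y hρ) (inter_mem (hopen.mem_nhds hyr)
          (Metric.isOpen_ball.mem_nhds hyb)))
      obtain ⟨τ, hτ1, hτ2⟩ := (t2.and self_mem_nhdsWithin).exists
      have hτ : 0 < τ := hτ2
      set v : ℂ := y + (τ * σ) • (I * dir θ) with hv
      have hvs : 0 < sd p i (v, θ) * σ := by
        rw [hv, sd_normal, hy0, zero_add, mul_assoc]
        exact mul_pos hτ (mul_self_pos.2 hσ)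
      have n1 : ∀ᶠ z' in 𝓝 v, 0 < sd p i (z', θ) * σ :=
        ((hcz.mul continuous_const).tendsto v).eventually_const_lt hvs
      have n2 : ∀ᶠ z' in 𝓝 v, z' ∈ Metric.ball y ρ ∩ (reg p ∩ Metric.ball (p i) (r i0)) :=
        (Metric.isOpen_ball.inter (hopen.inter Metric.isOpen_ball)).mem_nhds hτ1
      obtain ⟨z', ⟨a1, a2⟩, a3, a4, a5, a6⟩ :=
        (Measure.dense_of_ae (hae.and h2)).inter_nhds_nonempty (n1.and n2)
      rw [Metric.mem_ball, dist_eq_norm] at a4 a6
      refine ⟨z', a3, a1 a4, ?_⟩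
      exact a2 i (by rw [hrr]; exact a5) a6
    obtain ⟨w1, b1, b2, b3, -⟩ := side 1 one_ne_zero
    obtain ⟨w2, c1, c2, -, c3⟩ := side (-1) (by norm_num)
    have d1 := b3 (by linarith)
    have d2 := c3 (by linarith)
    have e : gl i θ - gr i θ = (f (w1, θ) - c) - (f (w1, θ) - gl i θ) +
        ((f (w2, θ) - gr i θ) - (f (w2, θ) - c)) := by ring
    rw [e]
    have e1 := norm_sub_le (f (w1, θ) - c) (f (w1, θ) - gl i θ)
    have e2 := norm_sub_le (f (w2, θ) - gr i θ) (f (w2, θ) - c)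
    refine (norm_add_le _ _).trans ?_
    linarith
  filter_upwards [ae_all_iff.2 key] with θ hθ h1 h2
  have h4 : Tendsto (fun m : ℕ => 4 * (1 / ((m : ℝ) + 1))) atTop (𝓝 0) := by
    have := tendsto_one_div_add_atTop_nhds_zero_nat (𝕜 := ℝ)
    simpa using this.const_mul 4
  have h5 := ge_of_tendsto' h4 fun m => hθ m h1 h2
  exact sub_eq_zero.1 (norm_le_zero_iff.1 h5)

theorem limits_of_sided (hp : IsConvexPolygon p) {lam : ℝ} {f : ℂ × ℝ → ℂ}
    (hE : IsEigenfunction p lam f) (hV : HasOneSidedLimits p f) : HasLimits p f := by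
  classical
  have hrr := region_eq hp
  have hopen := reg_open hp
  choose gl gr hlm hrm hlp hrp h using hV
  intro i
  set E : Set ℝ := {θ | ∃ z ∈ reg p, 0 < sd p i (z, θ)} with hEd
  have hEo : IsOpen E := by
    have : E = ⋃ z ∈ reg p, {θ | 0 < sd p i (z, θ)} := by
      ext θ; simp [hEd]
    rw [this]
    refine isOpen_biUnion fun z _ => ?_
    exact isOpen_lt continuous_const ((sd_cont p i).comp (continuous_const.prodMk continuous_id))
  have hEp : ∀ θ, θ + 2 * π ∈ E ↔ θ ∈ E := by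
    intro θ
    have : ∀ z, sd p i (z, θ + 2 * π) = sd p i (z, θ) := by
      intro z
      unfold sd
      simp only [dir_periodic]
    simp only [hEd, mem_ofPred_eq, this]
  refine ⟨fun θ => if θ ∈ E then gl i θ else gr i θ,
    Measurable.ite hEo.measurableSet (hlm i) (hrm i), fun θ => ?_, fun η hη => ?_⟩
  · simp only [hEp, hlp, hrp]
  · obtain ⟨r, hr, hae⟩ := h i η hη
    refine ⟨r, hr, ?_⟩
    have h1 := sides_agreeE hp hE h i
    have h2 : ∀ᵐ x : ℂ × ℝ, (∃ z ∈ reg p, 0 < sd p i (z, x.2)) →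
        (∃ z ∈ reg p, sd p i (z, x.2) < 0) → gl i x.2 = gr i x.2 :=
      (Measure.quasiMeasurePreserving_snd (μ := (volume : Measure ℂ))
        (ν := (volume : Measure ℝ))).ae h1
    filter_upwards [hae, h2, sd_ae p i] with x a1 a2 a3 a4 a5
    obtain ⟨b1, b2⟩ := a1 a4 a5
    have hxr : x.1 ∈ reg p := by rw [← hrr]; exact a4
    rcases lt_or_gt_of_ne a3 with hneg | hpos
    · by_cases hx : x.2 ∈ E
      · rw [if_pos hx, a2 hx ⟨x.1, hxr, hneg⟩]
        exact b2 hneg
      · rw [if_neg hx]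
        exact b2 hneg
    · have hx : x.2 ∈ E := ⟨x.1, hxr, hpos⟩
      rw [if_pos hx]
      exact b1 hpos

/-- Eigenfunctions with one-sided limits at the vertices. -/
theorem eig_sided (hp : IsConvexPolygon p) (hirr : ∀ i, Irrational (ang p i / π))
    (hrat : HasIrrationalRatio p) {lam : ℝ} {f : ℂ × ℝ → ℂ} (hf : Measurable f)
    (hE : IsEigenfunction p lam f) (hL : HasOneSidedLimits p f) :
    ∃ c : ℂ, (∀ᵐ x : ℂ × ℝ, x.1 ∈ region p → f x = c) ∧ (lam ≠ 0 → c = 0) :=
  eig_main hp hirr hrat hf hE (limits_of_sided hp hE hL)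

theorem generic_ae (n : ℕ) : ∀ᵐ p : Fin (n + 3) → ℂ, IsConvexPolygon p →
    (∀ i, Irrational (ang p i / π)) ∧ HasIrrationalRatio p := by
  filter_upwards [ae_irrational n, ratio_ae n] with p h1 h2 hp
  exact ⟨h1 hp, h2 hp⟩

end Pool.Agent.TH103.BL
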