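import Pool.Agent.TH103.BL.Loc
import Pool.Agent.W780.BB.Final

set_option autoImplicit false

/-!
Invariant sets and functions with one-sided behaviour at the vertices: final results.
-/

namespace Pool.Agent.TH103.BL

open Complex Set MeasureTheory Filter Topology Pool.Agent.W780.PG Pool.Agent.W780.BB

open scoped Real ComplexConjugate

variable {n : ℕ} {p : Fin (n + 3) → ℂ}

/-- the indicator function of an invariant set is invariant -/
theorem ind_inv {A : Set (ℂ × ℝ)} (hI : IsInvariant p A) :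
    IsInvariantFun p (A.indicator fun _ => (1 : ℝ)) := by
  classical
  have key : ∀ {x y : ℂ × ℝ}, (x ∈ A ↔ y ∈ A) →
      A.indicator (fun _ => (1 : ℝ)) x = A.indicator (fun _ => (1 : ℝ)) y := by
    intro x y h
    by_cases hx : x ∈ A
    · rw [indicator_of_mem hx, indicator_of_mem (h.1 hx)]
    · rw [indicator_of_notMem hx, indicator_of_notMem fun hy => hx (h.2 hy)]
  exact ⟨fun z θ => key (hI.periodic z θ), fun z θ s h1 h2 => key (hI.free z θ s h1 h2),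
    fun i y hy θ s r h1 h2 h3 h4 => key (hI.reflect i y hy θ s r h1 h2 h3 h4)⟩

/-- a set which is locally null or conull in a connected open set is null or conull -/
theorem locally_const {U : Set ℂ} (hU : IsPreconnected U) {B : Set ℂ}
    (h : ∀ z ∈ U, ∃ ρ : ℝ, 0 < ρ ∧
      ((∀ᵐ z' : ℂ, ‖z' - z‖ < ρ → z' ∈ B) ∨ (∀ᵐ z' : ℂ, ‖z' - z‖ < ρ → z' ∉ B))) :
    (∀ᵐ z : ℂ, z ∈ U → z ∈ B) ∨ (∀ᵐ z : ℂ, z ∈ U → z ∉ B) := by
  have hloc : ∀ C : Set ℂ, (∀ z ∈ U, ∃ ρ : ℝ, 0 < ρ ∧ ∀ᵐ z' : ℂ, ‖z' - z‖ < ρ → z' ∈ C) →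
      ∀ᵐ z : ℂ, z ∈ U → z ∈ C := by
    intro C hC
    have h1 : volume (U ∩ Cᶜ) = 0 := by
      refine measure_null_of_locally_null _ fun z hz => ?_
      obtain ⟨ρ, hρ, hae⟩ := hC z hz.1
      refine ⟨Metric.ball z ρ ∩ (U ∩ Cᶜ),
        inter_mem (mem_nhdsWithin_of_mem_nhds (Metric.ball_mem_nhds z hρ))
          self_mem_nhdsWithin, ?_⟩
      refine measure_eq_zero_iff_ae_notMem.2 ?_
      filter_upwards [hae] with z' h2
      rintro ⟨h3, -, h4⟩
      exact h4 (h2 (by rwa [Metric.mem_ball, dist_eq_norm] at h3))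
    filter_upwards [measure_eq_zero_iff_ae_notMem.1 h1] with z hz hzU
    by_contra hcon
    exact hz ⟨hzU, hcon⟩
  have hopen : ∀ C : Set ℂ, IsOpen {z : ℂ | ∃ ρ : ℝ, 0 < ρ ∧ ∀ᵐ z' : ℂ, ‖z' - z‖ < ρ → z' ∈ C} := by
    intro C
    rw [Metric.isOpen_iff]
    rintro z ⟨ρ, hρ, hae⟩
    refine ⟨ρ / 2, by linarith, fun y hy => ⟨ρ / 2, by linarith, ?_⟩⟩
    rw [Metric.mem_ball, dist_eq_norm] at hy
    filter_upwards [hae] with z' h2 h3
    apply h2
    calc ‖z' - z‖ = ‖(z' - y) + (y - z)‖ := by congr 1; ring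
      _ ≤ ‖z' - y‖ + ‖y - z‖ := norm_add_le _ _
      _ < ρ := by linarith
  set U1 : Set ℂ := {z : ℂ | ∃ ρ : ℝ, 0 < ρ ∧ ∀ᵐ z' : ℂ, ‖z' - z‖ < ρ → z' ∈ B} with hU1
  set U2 : Set ℂ := {z : ℂ | ∃ ρ : ℝ, 0 < ρ ∧ ∀ᵐ z' : ℂ, ‖z' - z‖ < ρ → z' ∈ Bᶜ} with hU2
  have hcover : U ⊆ U1 ∪ U2 := by
    intro z hz
    obtain ⟨ρ, hρ, h1 | h1⟩ := h z hz
    · exact Or.inl ⟨ρ, hρ, h1⟩
    · exact Or.inr ⟨ρ, hρ, h1⟩
  have hdisj : U ∩ (U1 ∩ U2) = ∅ := by
    ext z
    simp only [mem_inter_iff, mem_empty_iff_false, iff_false]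
    rintro ⟨-, ⟨ρ, hρ, h1⟩, ρ', hρ', h2⟩
    obtain ⟨z', ⟨h3, h4⟩, h5⟩ := (Measure.dense_of_ae (h1.and h2)).inter_nhds_nonempty
      (Metric.ball_mem_nhds z (lt_min hρ hρ'))
    rw [Metric.mem_ball, dist_eq_norm] at h5
    exact (h4 (h5.trans_le (min_le_right _ _))) (h3 (h5.trans_le (min_le_left _ _)))
  rcases isPreconnected_iff_subset_of_disjoint.1 hU U1 U2 (hopen B) (hopen Bᶜ) hcover hdisj
    with h1 | h1
  · left
    exact hloc B fun z hz => h1 hz
  · right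
    exact hloc Bᶜ fun z hz => h1 hz

/-- Sets which are tame at the vertices depend only on the direction. -/
theorem tame_structure (hp : IsConvexPolygon p) {A : Set (ℂ × ℝ)} (hA : MeasurableSet A)
    (hI : IsInvariant p A) (hT : IsVertexTame p A) :
    ∃ Θ : Set ℝ, MeasurableSet Θ ∧ (∀ θ, θ + 2 * π ∈ Θ ↔ θ ∈ Θ) ∧
      volume {x : ℂ × ℝ | x ∈ phase p ∧ ¬ (x ∈ A ↔ x.2 ∈ Θ)} = 0 := by
  classical
  have hrr := region_eq hp
  have hopen := reg_open hp
  choose L R r hr hV using hT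
  obtain ⟨i0, -, hmin⟩ := Finset.exists_min_image Finset.univ r ⟨0, Finset.mem_univ _⟩
  have hS : Sided p (A.indicator fun _ => (1 : ℝ)) (fun i => (L i).indicator fun _ => (1 : ℝ))
      (fun i => (R i).indicator fun _ => (1 : ℝ)) 0 (r i0) := by
    unfold Sided
    rw [ae_all_iff]
    intro i
    filter_upwards [hV i] with x hx h2 h3
    obtain ⟨a, b⟩ := hx h2 (h3.trans_le (hmin i (Finset.mem_univ _)))
    constructor
    · intro h4
      have h5 := a h4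
      by_cases h6 : x ∈ A
      · rw [indicator_of_mem h6, indicator_of_mem (h5.1 h6), sub_self, abs_zero]
      · rw [indicator_of_notMem h6, indicator_of_notMem fun h7 => h6 (h5.2 h7), sub_self,
          abs_zero]
    · intro h4
      have h5 := b h4
      by_cases h6 : x ∈ A
      · rw [indicator_of_mem h6, indicator_of_mem (h5.1 h6), sub_self, abs_zero]
      · rw [indicator_of_notMem h6, indicator_of_notMem fun h7 => h6 (h5.2 h7), sub_self,
          abs_zero]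
  have hloc := loc_all hp (ind_inv hI) (hr i0) hS
  have hconv : IsPreconnected (reg p) := (hB n p hp).2.2.1.isPreconnected
  have hdich : ∀ᵐ θ : ℝ, (∀ᵐ z : ℂ, z ∈ reg p → (z, θ) ∈ A) ∨
      (∀ᵐ z : ℂ, z ∈ reg p → (z, θ) ∉ A) := by
    filter_upwards [hloc] with θ hθ
    refine locally_const (B := {z | (z, θ) ∈ A}) hconv fun z hz => ?_
    obtain ⟨c, ρ, hρ, hae⟩ := hθ z hz
    refine ⟨ρ, hρ, ?_⟩
    by_cases hc : c = 1
    · left
      filter_upwards [hae] with z' h1 h2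
      have h3 := sub_eq_zero.1 (abs_eq_zero.1 (le_antisymm (h1 h2) (abs_nonneg _)))
      show (z', θ) ∈ A
      by_contra h4
      rw [indicator_of_notMem h4, hc] at h3
      exact zero_ne_one h3
    · right
      filter_upwards [hae] with z' h1 h2
      have h3 := sub_eq_zero.1 (abs_eq_zero.1 (le_antisymm (h1 h2) (abs_nonneg _)))
      intro h4
      have h5 : (z', θ) ∈ A := h4
      rw [indicator_of_mem h5] at h3
      exact hc h3.symm
  -- the set of directions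
  have hSm : MeasurableSet {x : ℂ × ℝ | x.1 ∈ reg p ∧ x ∉ A} :=
    (measurable_fst hopen.measurableSet).inter hA.compl
  set Θ : Set ℝ := {θ | volume {z : ℂ | z ∈ reg p ∧ (z, θ) ∉ A} = 0} with hΘ
  have hΘm : MeasurableSet Θ := by
    have h1 : Measurable fun θ : ℝ => volume {z : ℂ | z ∈ reg p ∧ (z, θ) ∉ A} :=
      measurable_measure_prodMk_right hSm
    exact h1 (measurableSet_singleton 0)
  refine ⟨Θ, hΘm, fun θ => ?_, ?_⟩
  · simp only [hΘ, mem_ofPred_eq]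
    have : {z : ℂ | z ∈ reg p ∧ (z, θ + 2 * π) ∉ A} = {z : ℂ | z ∈ reg p ∧ (z, θ) ∉ A} := by
      ext z
      simp only [mem_ofPred_eq, hI.periodic z θ]
    rw [this]
  · set S : Set (ℂ × ℝ) := {x | x.1 ∈ reg p ∧ ¬ (x ∈ A ↔ x.2 ∈ Θ)} with hSdef
    have hSm2 : MeasurableSet S := by
      have h2 : MeasurableSet {x : ℂ × ℝ | x.2 ∈ Θ} := measurable_snd hΘm
      have : S = {x : ℂ × ℝ | x.1 ∈ reg p} ∩
          ((A ∩ {x : ℂ × ℝ | x.2 ∈ Θ}ᶜ) ∪ (Aᶜ ∩ {x : ℂ × ℝ | x.2 ∈ Θ})) := by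
        ext x
        simp only [hSdef, mem_ofPred_eq, mem_inter_iff, mem_union, mem_compl_iff]
        tauto
      rw [this]
      exact (measurable_fst hopen.measurableSet).inter
        ((hA.inter h2.compl).union (hA.compl.inter h2))
    have h0 : volume S = 0 := by
      rw [Measure.volume_eq_prod, Measure.prod_apply_symm hSm2]
      have h1 : (fun θ : ℝ => volume ((fun z : ℂ => (z, θ)) ⁻¹' S)) =ᵐ[volume] fun _ => 0 := by
        filter_upwards [hdich] with θ hθ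
        show volume {z : ℂ | z ∈ reg p ∧ ¬ ((z, θ) ∈ A ↔ θ ∈ Θ)} = 0
        rcases hθ with h | h
        · have hmem : θ ∈ Θ := by
            refine measure_eq_zero_iff_ae_notMem.2 ?_
            filter_upwards [h] with z hz
            rintro ⟨h1, h2⟩
            exact h2 (hz h1)
          refine measure_eq_zero_iff_ae_notMem.2 ?_
          filter_upwards [h] with z hz
          rintro ⟨h1, h2⟩
          exact h2 ⟨fun _ => hmem, fun _ => hz h1⟩
        · have hmem : θ ∉ Θ := by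
            intro hcon
            have h1 := measure_eq_zero_iff_ae_notMem.1 hcon
            have h2 : ∀ᵐ z : ℂ, z ∉ reg p := by
              filter_upwards [h, h1] with z a b c
              exact b ⟨c, a c⟩
            have h3 := measure_eq_zero_iff_ae_notMem.2 h2
            have h4 := hopen.measure_pos volume (hB n p hp).2.2.2.2.2.1
            exact absurd h3 h4.ne'
          refine measure_eq_zero_iff_ae_notMem.2 ?_
          filter_upwards [h] with z hz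
          rintro ⟨h1, h2⟩
          exact h2 ⟨fun h3 => absurd h3 (hz h1), fun h3 => absurd h3 hmem⟩
      rw [lintegral_congr_ae h1, lintegral_zero]
    refine measure_mono_null ?_ h0
    rintro x ⟨h1, h2⟩
    exact ⟨by rw [← hrr]; exact h1.1, h2⟩

/-- a periodic set which is null over one period is null -/
theorem null_of_period {S : Set (ℂ × ℝ)} (hS : MeasurableSet S)
    (hper : ∀ z θ, (z, θ + 2 * π) ∈ S ↔ (z, θ) ∈ S)
    (h : volume (S ∩ (univ ×ˢ Ico 0 (2 * π))) = 0) : volume S = 0 := by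
  have h1 : S ⊆ ⋃ k : ℤ, S ∩ (univ ×ˢ Ico ((k : ℝ) * (2 * π)) ((k : ℝ) * (2 * π) + 2 * π)) := by
    intro x hx
    rw [mem_iUnion]
    refine ⟨⌊x.2 / (2 * π)⌋, hx, mem_univ _, ?_, ?_⟩
    · have := Int.floor_le (x.2 / (2 * π))
      rw [le_div_iff₀ (by positivity)] at this
      exact this
    · have := Int.lt_floor_add_one (x.2 / (2 * π))
      rw [div_lt_iff₀ (by positivity)] at this
      linarith
  refine measure_mono_null h1 (measure_iUnion_null fun k => ?_)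
  rw [strip S hS hper]
  exact h

theorem direction_ae (hp : IsConvexPolygon p) {A : Set (ℂ × ℝ)} (hA : MeasurableSet A)
    (hper : ∀ z θ, (z, θ + 2 * π) ∈ A ↔ (z, θ) ∈ A) {Θ : Set ℝ} (hΘ : MeasurableSet Θ)
    (hΘp : ∀ θ, θ + 2 * π ∈ Θ ↔ θ ∈ Θ)
    (h : volume {x : ℂ × ℝ | x ∈ phase p ∧ ¬ (x ∈ A ↔ x.2 ∈ Θ)} = 0) :
    ∀ᵐ x : ℂ × ℝ, x.1 ∈ region p → (x ∈ A ↔ x.2 ∈ Θ) := by
  have hrr := region_eq hp
  have hopen := reg_open hp
  set S : Set (ℂ × ℝ) := {x | x.1 ∈ region p ∧ ¬ (x ∈ A ↔ x.2 ∈ Θ)} with hS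
  have hSm : MeasurableSet S := by
    have h1 : MeasurableSet {x : ℂ × ℝ | x.1 ∈ region p} := by
      rw [hrr]; exact measurable_fst hopen.measurableSet
    have h2 : MeasurableSet {x : ℂ × ℝ | x.2 ∈ Θ} := measurable_snd hΘ
    have : S = {x : ℂ × ℝ | x.1 ∈ region p} ∩
        ((A ∩ {x : ℂ × ℝ | x.2 ∈ Θ}ᶜ) ∪ (Aᶜ ∩ {x : ℂ × ℝ | x.2 ∈ Θ})) := by
      ext x
      simp only [hS, mem_ofPred_eq, mem_inter_iff, mem_union, mem_compl_iff]
      tauto
    rw [this]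
    exact h1.inter ((hA.inter h2.compl).union (hA.compl.inter h2))
  have hSp : ∀ z θ, (z, θ + 2 * π) ∈ S ↔ (z, θ) ∈ S := by
    intro z θ
    simp only [hS, mem_ofPred_eq]
    rw [hper, hΘp]
  have h0 : volume (S ∩ (univ ×ˢ Ico 0 (2 * π))) = 0 := by
    refine measure_mono_null ?_ h
    rintro x ⟨⟨h1, h2⟩, -, h3⟩
    exact ⟨⟨h1, h3⟩, h2⟩
  have h1 := measure_eq_zero_iff_ae_notMem.1 (null_of_period hSm hSp h0)
  filter_upwards [h1] with x hx hxr
  by_contra hcon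
  exact hx ⟨hxr, hcon⟩

theorem direction_tame (hp : IsConvexPolygon p) {A : Set (ℂ × ℝ)} (hA : MeasurableSet A)
    (hper : ∀ z θ, (z, θ + 2 * π) ∈ A ↔ (z, θ) ∈ A) {Θ : Set ℝ} (hΘ : MeasurableSet Θ)
    (hΘp : ∀ θ, θ + 2 * π ∈ Θ ↔ θ ∈ Θ)
    (h : volume {x : ℂ × ℝ | x ∈ phase p ∧ ¬ (x ∈ A ↔ x.2 ∈ Θ)} = 0) : IsVertexTame p A := by
  intro i
  refine ⟨Θ, Θ, 1, one_pos, ?_⟩
  filter_upwards [direction_ae hp hA hper hΘ hΘp h] with x hx h1 _
  exact ⟨fun _ => hx h1, fun _ => hx h1⟩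

theorem tame_of_trivial (hp : IsConvexPolygon p) {A : Set (ℂ × ℝ)} (hA : MeasurableSet A)
    (hper : ∀ z θ, (z, θ + 2 * π) ∈ A ↔ (z, θ) ∈ A) (h : IsTrivial p A) :
    IsVertexTame p A := by
  rcases h with h | h
  · refine direction_tame hp hA hper (Θ := ∅) MeasurableSet.empty (fun θ => by simp) ?_
    refine measure_mono_null ?_ h
    rintro x ⟨h1, h2⟩
    simp only [mem_empty_iff_false, iff_false, not_not] at h2
    exact ⟨h1, h2⟩
  · refine direction_tame hp hA hper (Θ := univ) MeasurableSet.univ (fun θ => by simp) ?_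
    refine measure_mono_null ?_ h
    rintro x ⟨h1, h2⟩
    simp only [mem_univ, iff_true] at h2
    exact ⟨h1, h2⟩

theorem trivial_of_direction (hp : IsConvexPolygon p) (hirr : ∃ i, Irrational (ang p i / π))
    {S : Set (ℂ × ℝ)} (hS : MeasurableSet S) (hI : IsInvariant p S) {Θ : Set ℝ}
    (hΘ : MeasurableSet Θ) (hper : ∀ θ, θ + 2 * π ∈ Θ ↔ θ ∈ Θ)
    (hnull : volume {x : ℂ × ℝ | x ∈ phase p ∧ ¬ (x ∈ S ↔ x.2 ∈ Θ)} = 0) : IsTrivial p S := by
  have hrf := Pool.Agent.W101.BB.refl hB hH n p hp S hS hI Θ hΘ hper hnull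
  obtain ⟨i, hi⟩ := hirr
  obtain ⟨k, hk⟩ := Pool.Agent.W337.BB.tau_th n p hp i
  have hirr2 : Irrational ((tau p i - tau p (i - 1)) / π) := by
    rw [hk]
    have : (π - ang p i + 2 * k * π) / π = ((1 + 2 * k : ℤ) : ℝ) - ang p i / π := by
      have := Real.pi_ne_zero
      field_simp
      push_cast
      ring
    rw [this]
    exact hi.intCast_sub _
  rcases Pool.Agent.W363.BB.rot Θ (tau p i) (tau p (i - 1)) hΘ hper (hrf i) (hrf (i - 1)) hirr2
    with h | h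
  · left
    refine measure_mono_null (t := {x : ℂ × ℝ | x ∈ phase p ∧ ¬ (x ∈ S ↔ x.2 ∈ Θ)} ∪
      (univ ×ˢ Θ)) ?_ ?_
    · rintro x ⟨h1, h2⟩
      by_cases hx : x.2 ∈ Θ
      · exact Or.inr ⟨mem_univ _, hx⟩
      · exact Or.inl ⟨h1, fun h3 => hx (h3.mp h2)⟩
    · refine measure_union_null hnull ?_
      rw [Measure.volume_eq_prod, Measure.prod_prod, h, mul_zero]
  · right
    refine measure_mono_null (t := {x : ℂ × ℝ | x ∈ phase p ∧ ¬ (x ∈ S ↔ x.2 ∈ Θ)} ∪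
      (univ ×ˢ Θᶜ)) ?_ ?_
    · rintro x ⟨h1, h2⟩
      by_cases hx : x.2 ∈ Θ
      · exact Or.inl ⟨h1, fun h3 => h2 (h3.mpr hx)⟩
      · exact Or.inr ⟨mem_univ _, hx⟩
    · refine measure_union_null hnull ?_
      rw [Measure.volume_eq_prod, Measure.prod_prod, h, mul_zero]

/-- In a rational polygon some set depending only on the direction is not trivial. -/
theorem rational_example (hp : IsConvexPolygon p) (h : ∀ i, ¬ Irrational (ang p i / π)) :
    ∃ S : Set (ℂ × ℝ), MeasurableSet S ∧ IsInvariant p S ∧ IsVertexTame p S ∧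
      ¬ IsTrivial p S := by
  obtain ⟨S, h1, h2, h3, h4⟩ :=
    Pool.Agent.W230.BB.Conv.conv Pool.Agent.W337.BB.tau_th n p hp h
  refine ⟨S, h1, h2, ?_, h4⟩
  obtain ⟨Θ, h5, h6⟩ := (finished hp).1 S h1 h2 h3
  -- make the set of directions periodic
  set Θ' : Set ℝ := {θ | θ - (⌊θ / (2 * π)⌋ : ℝ) * (2 * π) ∈ Θ} with hΘ'
  have hm : Measurable fun θ : ℝ => θ - (⌊θ / (2 * π)⌋ : ℝ) * (2 * π) := by
    have : Measurable fun θ : ℝ => (⌊θ / (2 * π)⌋ : ℝ) :=
      measurable_from_top.comp (Int.measurable_floor.comp (measurable_id.div_const _))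
    exact measurable_id.sub (this.mul_const _)
  have hp2 : ∀ θ, θ + 2 * π ∈ Θ' ↔ θ ∈ Θ' := by
    intro θ
    simp only [hΘ', mem_ofPred_eq]
    have e : ⌊(θ + 2 * π) / (2 * π)⌋ = ⌊θ / (2 * π)⌋ + 1 := by
      rw [add_div, div_self (by positivity), Int.floor_add_one]
    rw [e]
    have e2 : θ + 2 * π - (((⌊θ / (2 * π)⌋ + 1 : ℤ)) : ℝ) * (2 * π) =
        θ - (⌊θ / (2 * π)⌋ : ℝ) * (2 * π) := by
      push_cast; ring
    rw [e2]
  refine direction_tame hp h1 h2.periodic (hm h5) hp2 ?_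
  refine measure_mono_null ?_ h6
  rintro x ⟨h7, h8⟩
  refine ⟨h7, fun h9 => h8 ?_⟩
  rw [h9]
  have h10 := h7.2
  have e : ⌊x.2 / (2 * π)⌋ = 0 := by
    rw [Int.floor_eq_zero_iff]
    exact ⟨div_nonneg h10.1 (by positivity), (div_lt_one (by positivity)).2 h10.2⟩
  show x.2 ∈ Θ ↔ x.2 - (⌊x.2 / (2 * π)⌋ : ℝ) * (2 * π) ∈ Θ
  rw [e]
  simp

/-- Final result for sets. -/
theorem final_sets (hp : IsConvexPolygon p) :
    (∀ A : Set (ℂ × ℝ), MeasurableSet A → IsInvariant p A → IsVertexTame p A →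
      ∃ Θ : Set ℝ, MeasurableSet Θ ∧
        volume {x : ℂ × ℝ | x ∈ phase p ∧ ¬ (x ∈ A ↔ x.2 ∈ Θ)} = 0) ∧
    ((∃ i, Irrational (ang p i / π)) ↔
      ∀ A : Set (ℂ × ℝ), MeasurableSet A → IsInvariant p A → IsVertexTame p A →
        IsTrivial p A) ∧
    ((∃ i, Irrational (ang p i / π)) →
      ((∀ A : Set (ℂ × ℝ), MeasurableSet A → IsInvariant p A → IsTrivial p A) ↔
        ∀ A : Set (ℂ × ℝ), MeasurableSet A → IsInvariant p A → IsVertexTame p A)) := by
  have key : (∃ i, Irrational (ang p i / π)) → ∀ A : Set (ℂ × ℝ), MeasurableSet A →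
      IsInvariant p A → IsVertexTame p A → IsTrivial p A := by
    intro hirr A h1 h2 h3
    obtain ⟨Θ, a, b, c⟩ := tame_structure hp h1 h2 h3
    exact trivial_of_direction hp hirr h1 h2 a b c
  refine ⟨fun A h1 h2 h3 => ?_, ⟨key, fun hall => ?_⟩, fun hirr => ⟨fun h A h1 h2 => ?_,
    fun h A h1 h2 => key hirr A h1 h2 (h A h1 h2)⟩⟩
  · obtain ⟨Θ, a, -, c⟩ := tame_structure hp h1 h2 h3
    exact ⟨Θ, a, c⟩
  · by_contra hcon
    push Not at hcon
    obtain ⟨S, a, b, c, d⟩ := rational_example hp hcon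
    exact d (hall S a b c)
  · exact tame_of_trivial hp h1 h2.periodic (h A h1 h2)

end Pool.Agent.TH103.BL
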