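import Pool.Agent.TH103.BL.Ch

set_option autoImplicit false

/-!
Local constancy in the position, for invariant functions with one-sided limits at the vertices.
-/

namespace Pool.Agent.TH103.BL

open Complex Set MeasureTheory Filter Topology Pool.Agent.W780.PG Pool.Agent.W780.BB

open scoped Real ComplexConjugate

variable {n : ℕ} {p : Fin (n + 3) → ℂ}

theorem sd_cont (p : Fin (n + 3) → ℂ) (i : Fin (n + 3)) : Continuous (sd p i) := by
  unfold sd
  exact continuous_im.comp ((continuous_conj.comp (continuous_dir.comp continuous_snd)).mul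
    (continuous_fst.sub continuous_const))

theorem dir_pi (θ : ℝ) : dir (θ + π) = - dir θ := by
  rw [dir_add]
  have : dir π = -1 := by unfold dir; exact exp_pi_mul_I
  rw [this]; ring

theorem sd_pi (p : Fin (n + 3) → ℂ) (i : Fin (n + 3)) (z : ℂ) (θ : ℝ) :
    sd p i (z, θ + π) = - sd p i (z, θ) := by
  unfold sd
  simp only
  rw [dir_pi, map_neg, neg_mul, neg_im]

/-- a point with vanishing side coordinate is on the line through the vertex -/
theorem sd_zero {i : Fin (n + 3)} {z : ℂ} {θ : ℝ} (h : sd p i (z, θ) = 0) :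
    ∃ l : ℝ, p i = z - l • dir θ ∧ |l| = ‖z - p i‖ := by
  have hd : conj (dir θ) * dir θ = 1 := by
    rw [mul_comm, Complex.mul_conj, normSq_eq_norm_sq, norm_dir]
    norm_num
  set w : ℂ := conj (dir θ) * (z - p i) with hw
  have him : w.im = 0 := h
  have hwr : w = (w.re : ℂ) := by
    apply Complex.ext
    · simp
    · simp [him]
  have h1 : z - p i = (w.re : ℂ) * dir θ := by
    calc z - p i = (conj (dir θ) * dir θ) * (z - p i) := by rw [hd, one_mul]
      _ = w * dir θ := by rw [hw]; ring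
      _ = (w.re : ℂ) * dir θ := by rw [← hwr]
  refine ⟨w.re, ?_, ?_⟩
  · rw [real_smul, ← h1]; ring
  · rw [h1, norm_mul, norm_dir, mul_one, Complex.norm_real, Real.norm_eq_abs]

theorem inv_fun (hp : IsConvexPolygon p) {f : ℂ × ℝ → ℝ} (hI : IsInvariantFun p f)
    {w : List (Fin (n + 3))} {z : ℂ} {θ s : ℝ} (hz : z ∈ reg p) (h : Ch p w z (z + s • dir θ)) :
    f (z, θ) = f (fd p w (z + s • dir θ, θ)) := by
  set S : Set (ℂ × ℝ) := {x | f x = f (z, θ)} with hS
  have hSI : IsInvariant p S := by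
    refine ⟨fun z' θ' => ?_, fun z' θ' s' h1 h2 => ?_, fun i y hy θ' s' r h1 h2 h3 h4 => ?_⟩
    · simp only [hS, mem_ofPred_eq, hI.periodic]
    · simp only [hS, mem_ofPred_eq, hI.free z' θ' s' h1 h2]
    · simp only [hS, mem_ofPred_eq, hI.reflect i y hy θ' s' r h1 h2 h3 h4]
  have h1 := (Pool.Agent.W82.BB.inv hR hH n p hp S hSI w z θ s hz h).1 rfl
  exact h1.symm

/-- the condition at the vertices, with one-sided values -/
def Sided (p : Fin (n + 3) → ℂ) (f : ℂ × ℝ → ℝ) (gp gm : Fin (n + 3) → ℝ → ℝ) (η r : ℝ) : Prop :=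
  ∀ᵐ x : ℂ × ℝ, ∀ i, x.1 ∈ region p → ‖x.1 - p i‖ < r →
    (0 < sd p i x → |f x - gp i x.2| ≤ η) ∧ (sd p i x < 0 → |f x - gm i x.2| ≤ η)

theorem loc_fwd (hp : IsConvexPolygon p) {f : ℂ × ℝ → ℝ} (hI : IsInvariantFun p f)
    {gp gm : Fin (n + 3) → ℝ → ℝ} {η r : ℝ} (hr : 0 < r) (hV : Sided p f gp gm η r) :
    ∀ᵐ θ : ℝ, ∀ z ∈ reg p, (∀ w j, ∀ s : ℝ, 0 < s → z + s • dir θ ≠ uf p w (p j)) →
      ∃ c ρ : ℝ, 0 < ρ ∧ ∀ᵐ z' : ℂ, ‖z' - z‖ < ρ → |f (z', θ) - c| ≤ η := by
  have hrr := region_eq hp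
  have hopen := reg_open hp
  have b1 : ∀ᵐ x : ℂ × ℝ, ∀ (w : List (Fin (n + 3))) (q : ℚ), ∀ i,
      (fd p w (x.1 + (q : ℝ) • dir x.2, x.2)).1 ∈ region p →
      ‖(fd p w (x.1 + (q : ℝ) • dir x.2, x.2)).1 - p i‖ < r →
      (0 < sd p i (fd p w (x.1 + (q : ℝ) • dir x.2, x.2)) →
        |f (fd p w (x.1 + (q : ℝ) • dir x.2, x.2)) -
          gp i (fd p w (x.1 + (q : ℝ) • dir x.2, x.2)).2| ≤ η) ∧
      (sd p i (fd p w (x.1 + (q : ℝ) • dir x.2, x.2)) < 0 →
        |f (fd p w (x.1 + (q : ℝ) • dir x.2, x.2)) -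
          gm i (fd p w (x.1 + (q : ℝ) • dir x.2, x.2)).2| ≤ η) := by
    rw [ae_all_iff]
    intro w
    rw [ae_all_iff]
    intro q
    have hsh := shear (fun θ => (q : ℝ) • dir θ) (continuous_dir.const_smul (q : ℝ)).measurable
    have hmp := (Pool.Agent.W333.BB.mp n p hp w).2.2.1
    exact (hmp.comp hsh).quasiMeasurePreserving.ae hV
  have hall : ∀ᵐ θ : ℝ, ∀ m : ℕ, ∀ z ∈ reg p, ∀ (u : ℕ → Fin (n + 3)) (t : ℕ → ℝ),
      Orb p z θ u t → ∃ K s j, tp t K < s ∧ s < t K ∧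
      ‖ps p z θ u K s - p j‖ < 1 / ((m : ℝ) + 1) := by
    rw [ae_all_iff]
    intro m
    exact allz hp (by positivity)
  filter_upwards [ae_swap b1, hall] with θ hθ1 hθ2 z hz hgen
  -- the orbit
  have hOk : Ok p z θ 0 := by
    refine ⟨?_, hgen⟩
    have hc : Continuous fun s : ℝ => z + s • dir θ := by fun_prop
    have h3 : ∀ᶠ s in 𝓝 (0 : ℝ), z + s • dir θ ∈ reg p :=
      hc.continuousAt (hopen.mem_nhds (by rw [zero_smul, add_zero]; exact hz))
    obtain ⟨δ, hδ, hball⟩ := Metric.eventually_nhds_iff.1 h3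
    refine ⟨δ, hδ, fun s h4 h5 => hball ?_⟩
    rw [Real.dist_eq, sub_zero, abs_of_pos h4]
    exact h5
  obtain ⟨u, t, O⟩ := exists_orb hp hOk
  -- distance to the vertices
  obtain ⟨d, hd0, hd⟩ : ∃ d : ℝ, 0 < d ∧ ∀ j, d ≤ ‖z - p j‖ := by
    have h1 : ∀ᶠ d in 𝓝[>] (0 : ℝ), ∀ j, d ≤ ‖z - p j‖ := by
      rw [eventually_all]
      intro j
      have h2 : 0 < ‖z - p j‖ := by
        rw [norm_pos_iff, sub_ne_zero]
        rintro rfl
        have h3 := hz j
        change 0 < sf p j (p j) at h3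
        rw [Pool.Agent.W82.BB.sf_vertex_left] at h3
        exact lt_irrefl _ h3
      filter_upwards [Ioo_mem_nhdsGT h2] with d hd using hd.2.le
    obtain ⟨d, h2, h3⟩ := (h1.and self_mem_nhdsWithin).exists
    exact ⟨d, h3, h2⟩
  obtain ⟨m, hm⟩ := exists_nat_gt (1 / min r (d / 2))
  have hmin : 0 < min r (d / 2) := lt_min hr (by linarith)
  have hm1 : 1 / ((m : ℝ) + 1) < min r (d / 2) := by
    rw [div_lt_iff₀ (by positivity)]
    rw [div_lt_iff₀ hmin] at hm
    linarith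
  have hmr := hm1.trans_le (min_le_left _ _)
  have hmd := hm1.trans_le (min_le_right _ _)
  set ε : ℝ := 1 / ((m : ℝ) + 1) with hε
  obtain ⟨K, s, j, hs1, hs2, hs3⟩ := hθ2 m z hz u t O
  -- a rational time
  obtain ⟨q, hq1, hq2, hq3⟩ : ∃ q : ℚ, tp t K < q ∧ (q : ℝ) < t K ∧
      ‖ps p z θ u K q - p j‖ < ε := by
    have hc : Continuous fun s : ℝ => ‖ps p z θ u K s - p j‖ := by
      unfold ps; fun_prop
    have h1 : ∀ᶠ s' in 𝓝 s, ‖ps p z θ u K s' - p j‖ < ε := (hc.tendsto s).eventually_lt_const hs3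
    obtain ⟨δ, hδ, hball⟩ := Metric.eventually_nhds_iff.1 h1
    obtain ⟨q, h2, h3⟩ := exists_rat_btwn
      (show s < min (t K) (s + δ) from lt_min hs2 (by linarith))
    have h4 := h3.trans_le (min_le_left _ _)
    have h5 := h3.trans_le (min_le_right _ _)
    refine ⟨q, hs1.trans h2, h4, hball ?_⟩
    rw [Real.dist_eq, abs_of_pos (by linarith)]
    linarith
  -- the time is not small
  have hqε : ε < q := by
    have h1 := ps_dist hp O K q hq1.le
    have h2 := hd j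
    have h3 : ‖z - p j‖ ≤ ‖ps p z θ u K q - z‖ + ‖ps p z θ u K q - p j‖ := by
      have e : z - p j = -(ps p z θ u K q - z) + (ps p z θ u K q - p j) := by ring
      rw [e]
      refine (norm_add_le _ _).trans ?_
      rw [norm_neg]
    linarith
  -- the orbit does not lie on the line through the vertex
  have hsd : sd p j (ps p z θ u K q, angs p θ u K) ≠ 0 := by
    intro h0
    obtain ⟨l, hl1, hl2⟩ := sd_zero h0
    have hl3 : l < q := by
      have := le_abs_self l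
      linarith
    have h1 : (fd p ((List.range K).map u) (z + (q - l) • dir θ, θ)).1 = p j := by
      rw [fd_word hp]
      show srcs p z u K + ((q : ℝ) - l) • dir (angs p θ u K) = p j
      rw [hl1]
      unfold ps
      rw [sub_smul]
      ring
    have h2 := (hR n p hp).2.2.2.2.2.2.2.2.1 ((List.range K).map u) (z + (q - l) • dir θ) θ
    rw [h2] at h1
    have h3 := ((hR n p hp).2.2.2.2.2.2.1 ((List.range K).map u) (z + (q - l) • dir θ)).2
    rw [h1] at h3
    exact hgen _ j (q - l) (by linarith) h3.symm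
  -- everything is stable
  set w := (List.range K).map u with hw
  have hcz : Continuous fun z' : ℂ => z' + (q : ℝ) • dir θ := by fun_prop
  have hfdc : Continuous fun z' : ℂ => fd p w (z' + (q : ℝ) • dir θ, θ) :=
    (fd_cont hp w).comp (hcz.prodMk continuous_const)
  have e0 : fd p w (z + (q : ℝ) • dir θ, θ) = (ps p z θ u K q, angs p θ u K) := fd_word hp _ _ _ _ _
  have c1 : ∀ᶠ z' in 𝓝 z, Ch p w z' (z' + (q : ℝ) • dir θ) :=
    ((Pool.Agent.W762.BB.open_it n p hp w).preimage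
      (continuous_id.prodMk hcz)).mem_nhds (orb_ch hp O hq1 hq2)
  have c2 : ∀ᶠ z' in 𝓝 z, ‖(fd p w (z' + (q : ℝ) • dir θ, θ)).1 - p j‖ < r := by
    have : Continuous fun z' : ℂ => ‖(fd p w (z' + (q : ℝ) • dir θ, θ)).1 - p j‖ :=
      ((continuous_fst.comp hfdc).sub continuous_const).norm
    refine (this.tendsto z).eventually_lt_const ?_
    rw [e0]
    exact hq3.trans hmr
  have c3 : ∀ᶠ z' in 𝓝 z, z' ∈ reg p := hopen.mem_nhds hz
  have hsdc : Continuous fun z' : ℂ => sd p j (fd p w (z' + (q : ℝ) • dir θ, θ)) :=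
    (sd_cont p j).comp hfdc
  have hfd2 : ∀ z' : ℂ, (fd p w (z' + (q : ℝ) • dir θ, θ)).2 = angs p θ u K := by
    intro z'
    rw [hw, fd_word hp]
  have hfd1 : ∀ z' : ℂ, Ch p w z' (z' + (q : ℝ) • dir θ) →
      (fd p w (z' + (q : ℝ) • dir θ, θ)).1 ∈ region p := by
    intro z' h
    rw [(hR n p hp).2.2.2.2.2.2.2.2.1, hrr]
    exact ch_mem _ _ _ h
  rcases lt_or_gt_of_ne hsd with hneg | hpos
  · have c4 : ∀ᶠ z' in 𝓝 z, sd p j (fd p w (z' + (q : ℝ) • dir θ, θ)) < 0 :=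
      (hsdc.tendsto z).eventually_lt_const (by rw [e0]; exact hneg)
    obtain ⟨ρ, hρ, hball⟩ := Metric.eventually_nhds_iff.1 (((c1.and c2).and c3).and c4)
    refine ⟨gm j (angs p θ u K), ρ, hρ, ?_⟩
    filter_upwards [hθ1] with z' h1 h2
    obtain ⟨⟨⟨a1, a2⟩, a3⟩, a4⟩ := hball (show dist z' z < ρ by rw [dist_eq_norm]; exact h2)
    rw [inv_fun hp hI a3 a1, ← hfd2 z']
    exact (h1 w q j (hfd1 z' a1) a2).2 a4
  · have c4 : ∀ᶠ z' in 𝓝 z, 0 < sd p j (fd p w (z' + (q : ℝ) • dir θ, θ)) :=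
      (hsdc.tendsto z).eventually_const_lt (by rw [e0]; exact hpos)
    obtain ⟨ρ, hρ, hball⟩ := Metric.eventually_nhds_iff.1 (((c1.and c2).and c3).and c4)
    refine ⟨gp j (angs p θ u K), ρ, hρ, ?_⟩
    filter_upwards [hθ1] with z' h1 h2
    obtain ⟨⟨⟨a1, a2⟩, a3⟩, a4⟩ := hball (show dist z' z < ρ by rw [dist_eq_norm]; exact h2)
    rw [inv_fun hp hI a3 a1, ← hfd2 z']
    exact (h1 w q j (hfd1 z' a1) a2).1 a4

/-- time reversal -/
theorem rev_inv {f : ℂ × ℝ → ℝ} (hI : IsInvariantFun p f) :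
    IsInvariantFun p (fun x => f (x.1, x.2 + π)) := by
  refine ⟨fun z θ => ?_, fun z θ s h1 h2 => ?_, fun i y hy θ s r h1 h2 h3 h4 => ?_⟩
  · show f (z, θ + 2 * π + π) = f (z, θ + π)
    rw [show θ + 2 * π + π = θ + π + 2 * π by ring, hI.periodic]
  · show f (z, θ + π) = f (z + s • dir θ, θ + π)
    have h3 : z + (-s) • dir (θ + π) = z + s • dir θ := by
      rw [dir_pi, neg_smul, smul_neg, neg_neg]
    have := hI.free z (θ + π) (-s) h1 (by rw [h3]; exact h2)
    rw [this, h3]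
  · show f (y - s • dir θ, θ + π) = f (y + r • dir (2 * tau p i - θ), 2 * tau p i - θ + π)
    have e1 : dir (2 * tau p i - θ - π) = - dir (2 * tau p i - θ) := by
      have := dir_pi (2 * tau p i - θ - π)
      rw [sub_add_cancel] at this
      rw [this, neg_neg]
    have e2 : 2 * tau p i - (2 * tau p i - θ - π) = θ + π := by ring
    have h5 := hI.reflect i y hy (2 * tau p i - θ - π) r s h2 h1
      (by rw [e1, smul_neg, sub_neg_eq_add]; exact h4)
      (by rw [e2, dir_pi, smul_neg, ← sub_eq_add_neg]; exact h3)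
    rw [e1, e2, dir_pi, smul_neg, sub_neg_eq_add, smul_neg, ← sub_eq_add_neg] at h5
    rw [← h5, show 2 * tau p i - θ + π = 2 * tau p i - θ - π + 2 * π by ring, hI.periodic]

theorem sided_rev {f : ℂ × ℝ → ℝ} {gp gm : Fin (n + 3) → ℝ → ℝ} {η r : ℝ}
    (hV : Sided p f gp gm η r) :
    Sided p (fun x => f (x.1, x.2 + π)) (fun i θ => gm i (θ + π)) (fun i θ => gp i (θ + π)) η r := by
  have h1 := (shift π).quasiMeasurePreserving.ae hV
  filter_upwards [h1] with x hx i h2 h3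
  obtain ⟨a, b⟩ := hx i h2 h3
  have e : sd p i (x.1, x.2 + π) = - sd p i x := sd_pi p i x.1 x.2
  rw [e] at a b
  exact ⟨fun h => b (by linarith), fun h => a (by linarith)⟩

theorem loc_bwd (hp : IsConvexPolygon p) {f : ℂ × ℝ → ℝ} (hI : IsInvariantFun p f)
    {gp gm : Fin (n + 3) → ℝ → ℝ} {η r : ℝ} (hr : 0 < r) (hV : Sided p f gp gm η r) :
    ∀ᵐ θ : ℝ, ∀ z ∈ reg p, (∀ w j, ∀ s : ℝ, 0 < s → z - s • dir θ ≠ uf p w (p j)) →
      ∃ c ρ : ℝ, 0 < ρ ∧ ∀ᵐ z' : ℂ, ‖z' - z‖ < ρ → |f (z', θ) - c| ≤ η := by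
  have h1 := loc_fwd hp (rev_inv hI) hr (sided_rev hV)
  have h2 := (measurePreserving_add_right (volume : Measure ℝ) (-π)).quasiMeasurePreserving.ae h1
  filter_upwards [h2] with θ hθ z hz hgen
  have e1 : dir (θ + -π) = - dir θ := by
    have := dir_pi (θ + -π)
    rw [neg_add_cancel_right] at this
    rw [this, neg_neg]
  obtain ⟨c, ρ, h3, h4⟩ := hθ z hz (fun w j s hs => by
    rw [e1, smul_neg, ← sub_eq_add_neg]
    exact hgen w j s hs)
  refine ⟨c, ρ, h3, ?_⟩
  filter_upwards [h4] with z' h5 h6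
  have := h5 h6
  simp only [neg_add_cancel_right] at this
  exact this

/-- no generalised diagonals in almost every direction -/
theorem no_diag (p : Fin (n + 3) → ℂ) : ∀ᵐ θ : ℝ, ∀ z : ℂ,
    (∀ w j, ∀ s : ℝ, 0 < s → z + s • dir θ ≠ uf p w (p j)) ∨
    (∀ w j, ∀ s : ℝ, 0 < s → z - s • dir θ ≠ uf p w (p j)) := by
  have h1 : ∀ᵐ θ : ℝ, ∀ (w : List (Fin (n + 3))) (j : Fin (n + 3)) (w' : List (Fin (n + 3)))
      (j' : Fin (n + 3)), ∀ s : ℝ, 0 < s → s • dir θ ≠ uf p w (p j) - uf p w' (p j') := by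
    rw [ae_all_iff]
    intro w
    rw [ae_all_iff]
    intro j
    rw [ae_all_iff]
    intro w'
    rw [ae_all_iff]
    intro j'
    set v : ℂ := uf p w (p j) - uf p w' (p j') with hv
    have hcount : {θ : ℝ | ¬ ∀ s : ℝ, 0 < s → s • dir θ ≠ v}.Countable := by
      refine (countable_range fun k : ℤ => arg v + k * (2 * π)).mono ?_
      intro θ hθ
      rw [mem_ofPred_eq] at hθ
      push Not at hθ
      obtain ⟨s, hs, he⟩ := hθ
      have h2 : v = (s : ℂ) * dir θ := by rw [← he, real_smul]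
      have h3 : ‖v‖ = s := by
        rw [h2, norm_mul, norm_dir, mul_one, norm_real, Real.norm_eq_abs, abs_of_pos hs]
      have h4 := Complex.norm_mul_exp_arg_mul_I v
      rw [h3] at h4
      have h5 : exp ((θ : ℂ) * I) = exp ((arg v : ℂ) * I) := by
        have hs' : (s : ℂ) ≠ 0 := by exact_mod_cast hs.ne'
        apply mul_left_cancel₀ hs'
        rw [h4]
        exact h2.symm
      obtain ⟨k, hk⟩ := Complex.exp_eq_exp_iff_exists_int.1 h5
      refine ⟨k, ?_⟩
      simp only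
      have h6 : (θ : ℂ) * I = ((arg v + k * (2 * π) : ℝ) : ℂ) * I := by
        rw [hk]; push_cast; ring
      have h7 := mul_right_cancel₀ I_ne_zero h6
      exact_mod_cast h7.symm
    exact hcount.measure_zero _
  filter_upwards [h1] with θ hθ z
  by_contra hcon
  push Not at hcon
  obtain ⟨⟨w, j, s, hs, e1⟩, w', j', s', hs', e2⟩ := hcon
  refine hθ w j w' j' (s + s') (by linarith) ?_
  rw [← e1, ← e2, add_smul]
  ring

/-- For almost every direction, `f` is locally almost constant in the position. -/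
theorem loc_all (hp : IsConvexPolygon p) {f : ℂ × ℝ → ℝ} (hI : IsInvariantFun p f)
    {gp gm : Fin (n + 3) → ℝ → ℝ} {η r : ℝ} (hr : 0 < r) (hV : Sided p f gp gm η r) :
    ∀ᵐ θ : ℝ, ∀ z ∈ reg p,
      ∃ c ρ : ℝ, 0 < ρ ∧ ∀ᵐ z' : ℂ, ‖z' - z‖ < ρ → |f (z', θ) - c| ≤ η := by
  filter_upwards [loc_fwd hp hI hr hV, loc_bwd hp hI hr hV, no_diag p] with θ h1 h2 h3 z hz
  rcases h3 z with h | h
  · exact h1 z hz h
  · exact h2 z hz h

end Pool.Agent.TH103.BL
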