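import Pool.Agent.TH103.BL.Vtx

set_option autoImplicit false

/-!
Invariant functions with limits at the vertices are constant if all angles are irrational.
-/

namespace Pool.Agent.TH103.BL

open Complex Set MeasureTheory Filter Topology Pool.Agent.W780.PG Pool.Agent.W780.BB

open scoped Real ComplexConjugate

variable {n : ℕ} {p : Fin (n + 3) → ℂ}

theorem ae_ok (hp : IsConvexPolygon p) {z : ℂ} (hz : z ∈ reg p) : ∀ᵐ θ : ℝ, Ok p z θ 0 := by
  have h1 : ∀ w j, ∀ᵐ θ : ℝ, ∀ s : ℝ, 0 < s → z + s • dir θ ≠ uf p w (p j) := by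
    intro w j
    have hcount : {θ : ℝ | ¬ ∀ s : ℝ, 0 < s → z + s • dir θ ≠ uf p w (p j)}.Countable := by
      refine (countable_range fun k : ℤ => arg (uf p w (p j) - z) + k * (2 * π)).mono ?_
      intro θ hθ
      rw [mem_ofPred_eq] at hθ
      push Not at hθ
      obtain ⟨s, hs, he⟩ := hθ
      have h2 : uf p w (p j) - z = (s : ℂ) * dir θ := by rw [← he, real_smul]; ring
      have h3 : ‖uf p w (p j) - z‖ = s := by
        rw [h2, norm_mul, norm_dir, mul_one, norm_real, Real.norm_eq_abs, abs_of_pos hs]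
      have h4 := Complex.norm_mul_exp_arg_mul_I (uf p w (p j) - z)
      rw [h3] at h4
      have h5 : exp ((θ : ℂ) * I) = exp ((arg (uf p w (p j) - z) : ℂ) * I) := by
        have hs' : (s : ℂ) ≠ 0 := by exact_mod_cast hs.ne'
        apply mul_left_cancel₀ hs'
        rw [h4]
        exact h2.symm
      obtain ⟨k, hk⟩ := Complex.exp_eq_exp_iff_exists_int.1 h5
      refine ⟨k, ?_⟩
      simp only
      have h6 : (θ : ℂ) * I = ((arg (uf p w (p j) - z) + k * (2 * π) : ℝ) : ℂ) * I := by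
        rw [hk]; push_cast; ring
      have h7 := mul_right_cancel₀ I_ne_zero h6
      exact_mod_cast h7.symm
    exact hcount.measure_zero _
  have h2 : ∀ᵐ θ : ℝ, ∀ w j, ∀ s : ℝ, 0 < s → z + s • dir θ ≠ uf p w (p j) := by
    rw [ae_all_iff]
    intro w
    rw [ae_all_iff]
    intro j
    exact h1 w j
  filter_upwards [h2] with θ hθ
  refine ⟨?_, hθ⟩
  have hc : Continuous fun s : ℝ => z + s • dir θ := by fun_prop
  have h3 : ∀ᶠ s in 𝓝 (0 : ℝ), z + s • dir θ ∈ reg p :=
    hc.continuousAt ((reg_open hp).mem_nhds (by rw [zero_smul, add_zero]; exact hz))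
  obtain ⟨δ, hδ, hball⟩ := Metric.eventually_nhds_iff.1 h3
  refine ⟨δ, hδ, fun s h4 h5 => hball ?_⟩
  rw [Real.dist_eq, sub_zero, abs_of_pos h4]
  exact h5

/-- From every point, almost every orbit comes arbitrarily close to a vertex. -/
theorem approach (hp : IsConvexPolygon p) {z : ℂ} (hz : z ∈ reg p) {ε : ℝ} (hε : 0 < ε) :
    ∀ᵐ θ : ℝ, ∃ u t, Orb p z θ u t ∧ ∃ k j, ‖pt p z θ u t k - p j‖ < ε := by
  obtain ⟨κ, hκ, hκ2⟩ := exists_kappa hp hε
  have h1 := measure_eq_zero_iff_ae_notMem.1 (away_null hp hz hκ)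
  filter_upwards [ae_ok hp hz, h1] with θ h2 h3
  obtain ⟨u, t, O⟩ := exists_orb hp h2
  refine ⟨u, t, O, ?_⟩
  by_contra hcon
  push Not at hcon
  exact h3 ⟨u, t, O, fun k j hj => hκ2 (u k) _ (O.hit k) (hcon k) j hj⟩

theorem fd_append (w : List (Fin (n + 3))) (i : Fin (n + 3)) (x : ℂ × ℝ) :
    fd p (w ++ [i]) x = rs p i (fd p w x) := by
  induction w generalizing x with
  | nil => rfl
  | cons j w ih => exact ih (rs p j x)

theorem fd_word (hp : IsConvexPolygon p) (z : ℂ) (θ s : ℝ) (u : ℕ → Fin (n + 3)) (k : ℕ) :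
    fd p ((List.range k).map u) (z + s • dir θ, θ) =
      (srcs p z u k + s • dir (angs p θ u k), angs p θ u k) := by
  induction k with
  | zero => rfl
  | succ k ih =>
    rw [List.range_succ, List.map_append, List.map_singleton, fd_append, ih]
    show (rf p (u k) _, 2 * tau p (u k) - angs p θ u k) = _
    rw [rf_ray hp]
    rfl

theorem trans_one (hp : IsConvexPolygon p) {f : ℂ × ℝ → ℝ} (hI : IsInvariantFun p f)
    {z : ℂ} {θ : ℝ} {u : ℕ → Fin (n + 3)} {t : ℕ → ℝ} (O : Orb p z θ u t) {k : ℕ} {s' s : ℝ}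
    (h1 : s' < t k) (h2 : t k < s) (h3 : srcs p z u k + s' • dir (angs p θ u k) ∈ reg p)
    (h4 : srcs p z u (k + 1) + s • dir (angs p θ u (k + 1)) ∈ reg p) :
    f (srcs p z u k + s' • dir (angs p θ u k), angs p θ u k) =
      f (srcs p z u (k + 1) + s • dir (angs p θ u (k + 1)), angs p θ u (k + 1)) := by
  have hrr := region_eq hp
  have h := hI.reflect (u k) (pt p z θ u t k) (O.hit k) (angs p θ u k) (t k - s') (s - t k)
    (by linarith) (by linarith)
  have e1 : pt p z θ u t k - (t k - s') • dir (angs p θ u k) =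
      srcs p z u k + s' • dir (angs p θ u k) := by
    unfold pt; rw [sub_smul]; ring
  have e2 : pt p z θ u t k + (s - t k) • dir (2 * tau p (u k) - angs p θ u k) =
      srcs p z u (k + 1) + s • dir (angs p θ u (k + 1)) := by
    have hd : 2 * tau p (u k) - angs p θ u k = angs p θ u (k + 1) := rfl
    rw [← pt_next hp O k, hd, sub_smul]
    ring
  rw [e1, e2, hrr] at h
  exact h h3 h4

theorem along (hp : IsConvexPolygon p) {f : ℂ × ℝ → ℝ} (hI : IsInvariantFun p f)
    {z : ℂ} (hz : z ∈ reg p) {θ : ℝ} {u : ℕ → Fin (n + 3)} {t : ℕ → ℝ} (O : Orb p z θ u t)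
    (k : ℕ) : ∀ s, t k < s → s < t (k + 1) →
    f (z, θ) = f (srcs p z u (k + 1) + s • dir (angs p θ u (k + 1)), angs p θ u (k + 1)) := by
  have hrr := region_eq hp
  induction k with
  | zero =>
    intro s h1 h2
    have hm : z + (t 0 / 2) • dir θ ∈ reg p :=
      O.ins0 _ (by have := O.pos; linarith) (by have := O.pos; linarith)
    have e1 := hI.free z θ (t 0 / 2) (by rw [hrr]; exact hz) (by rw [hrr]; exact hm)
    rw [e1]
    exact trans_one hp hI O (k := 0) (by have := O.pos; linarith) h1 hm (O.ins 0 s h1 h2)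
  | succ k ih =>
    intro s h1 h2
    have hm := O.mono k
    have h3 : t k < (t k + t (k + 1)) / 2 := by linarith
    have h4 : (t k + t (k + 1)) / 2 < t (k + 1) := by linarith
    rw [ih _ h3 h4]
    exact trans_one hp hI O (k := k + 1) h4 h1 (O.ins k _ h3 h4) (O.ins (k + 1) s h1 h2)

theorem near_vertex (hp : IsConvexPolygon p) (i : Fin (n + 3)) {r : ℝ} (hr : 0 < r) :
    ∃ z ∈ reg p, ‖z - p i‖ < r := by
  have h1 : p i ∈ closure (reg p) := by
    rw [(hB n p hp).2.2.2.2.2.2.1]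
    exact vert_mem hp i
  obtain ⟨z, hz, h2⟩ := Metric.mem_closure_iff.1 h1 r hr
  refine ⟨z, hz, ?_⟩
  rwa [dist_comm, dist_eq_norm] at h2

/-- The constants at the vertices agree. -/
theorem const_eq (hp : IsConvexPolygon p) {f : ℂ × ℝ → ℝ} (hI : IsInvariantFun p f)
    (c : Fin (n + 3) → ℝ)
    (h : ∀ i, ∀ η : ℝ, 0 < η → ∃ r : ℝ, 0 < r ∧
      ∀ᵐ x : ℂ × ℝ, x.1 ∈ region p → ‖x.1 - p i‖ < r → |f x - c i| ≤ η) (i j : Fin (n + 3)) :
    c i = c j := by
  have hrr := region_eq hp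
  have hopen := reg_open hp
  have key : ∀ η : ℝ, 0 < η → |c i - c j| ≤ 2 * η := by
    intro η hη
    obtain ⟨r, hr, h1⟩ := h i η hη
    obtain ⟨r', hr', h2⟩ := h j η hη
    obtain ⟨z0, hz0, hz0r⟩ := near_vertex hp i hr
    obtain ⟨w0, hw0, hw0r⟩ := near_vertex hp j hr'
    set l : ℝ := ‖w0 - z0‖ with hl
    set φ : ℝ := arg (w0 - z0) with hφ
    have hw : z0 + l • dir φ = w0 := by
      have := Complex.norm_mul_exp_arg_mul_I (w0 - z0)
      rw [real_smul]
      unfold dir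
      rw [hl, hφ, this]; ring
    have hsh := shear (fun θ => l • dir θ) (continuous_dir.const_smul l).measurable
    have h2' : ∀ᵐ x : ℂ × ℝ, x.1 + l • dir x.2 ∈ region p → ‖x.1 + l • dir x.2 - p j‖ < r' →
        |f (x.1 + l • dir x.2, x.2) - c j| ≤ η := hsh.quasiMeasurePreserving.ae h2
    have hc : Continuous fun x : ℂ × ℝ => x.1 + l • dir x.2 :=
      continuous_fst.add ((continuous_dir.comp continuous_snd).const_smul l)
    have hev : ∀ᶠ x : ℂ × ℝ in 𝓝 (z0, φ), x.1 ∈ reg p ∧ ‖x.1 - p i‖ < r ∧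
        x.1 + l • dir x.2 ∈ reg p ∧ ‖x.1 + l • dir x.2 - p j‖ < r' := by
      have c1 : ∀ᶠ x : ℂ × ℝ in 𝓝 (z0, φ), x.1 ∈ reg p :=
        continuous_fst.continuousAt (hopen.mem_nhds hz0)
      have c2 : ∀ᶠ x : ℂ × ℝ in 𝓝 (z0, φ), ‖x.1 - p i‖ < r := by
        have : Continuous fun x : ℂ × ℝ => ‖x.1 - p i‖ := by fun_prop
        exact (this.tendsto (z0, φ)).eventually_lt_const hz0r
      have c3 : ∀ᶠ x : ℂ × ℝ in 𝓝 (z0, φ), x.1 + l • dir x.2 ∈ reg p :=
        hc.continuousAt (hopen.mem_nhds (by simp only; rw [hw]; exact hw0))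
      have c4 : ∀ᶠ x : ℂ × ℝ in 𝓝 (z0, φ), ‖x.1 + l • dir x.2 - p j‖ < r' := by
        have : Continuous fun x : ℂ × ℝ => ‖x.1 + l • dir x.2 - p j‖ :=
          (hc.sub continuous_const).norm
        exact (this.tendsto (z0, φ)).eventually_lt_const (by simp only; rw [hw]; exact hw0r)
      filter_upwards [c1, c2, c3, c4] with x a b c d using ⟨a, b, c, d⟩
    obtain ⟨⟨z, θ⟩, ⟨a1, a2⟩, b1, b2, b3, b4⟩ :=
      (Measure.dense_of_ae (h1.and h2')).inter_nhds_nonempty hev
    have e0 := hI.free z θ l (by rw [hrr]; exact b1) (by rw [hrr]; exact b3)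
    have e1 := a1 (by rw [hrr]; exact b1) b2
    have e2 := a2 (by rw [hrr]; exact b3) b4
    simp only at e1 e2
    rw [e0] at e1
    have e3 : c i - c j = (f (z + l • dir θ, θ) - c j) - (f (z + l • dir θ, θ) - c i) := by ring
    rw [e3]
    calc |(f (z + l • dir θ, θ) - c j) - (f (z + l • dir θ, θ) - c i)|
        ≤ |f (z + l • dir θ, θ) - c j| + |f (z + l • dir θ, θ) - c i| := abs_sub _ _
      _ ≤ 2 * η := by linarith
  have h0 : |c i - c j| ≤ 0 := by
    refine le_of_forall_pos_le_add fun η hη => ?_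
    have := key (η / 2) (by linarith)
    linarith
  have h6 := le_antisymm h0 (abs_nonneg _)
  exact sub_eq_zero.1 (abs_eq_zero.1 h6)

/-- If `f` is close to `c` near the vertices, then it is close to `c` almost everywhere. -/
theorem spread (hp : IsConvexPolygon p) {f : ℂ × ℝ → ℝ} (hf : Measurable f)
    (hI : IsInvariantFun p f) {c η r : ℝ} (hr : 0 < r)
    (h : ∀ᵐ x : ℂ × ℝ, ∀ i, x.1 ∈ region p → ‖x.1 - p i‖ < r → |f x - c| ≤ η) :
    ∀ᵐ x : ℂ × ℝ, x.1 ∈ region p → |f x - c| ≤ η := by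
  have hrr := region_eq hp
  have hopen := reg_open hp
  -- the pulled back statements
  have h1 : ∀ᵐ x : ℂ × ℝ, ∀ (w : List (Fin (n + 3))) (q : ℚ), ∀ i,
      (fd p w (x.1 + (q : ℝ) • dir x.2, x.2)).1 ∈ region p →
      ‖(fd p w (x.1 + (q : ℝ) • dir x.2, x.2)).1 - p i‖ < r →
      |f (fd p w (x.1 + (q : ℝ) • dir x.2, x.2)) - c| ≤ η := by
    rw [ae_all_iff]
    intro w
    rw [ae_all_iff]
    intro q
    have hsh := shear (fun θ => (q : ℝ) • dir θ) (continuous_dir.const_smul (q : ℝ)).measurable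
    have hmp := (Pool.Agent.W333.BB.mp n p hp w).2.2.1
    exact (hmp.comp hsh).quasiMeasurePreserving.ae h
  have h2 : ∀ᵐ z : ℂ, ∀ᵐ θ : ℝ, ∀ (w : List (Fin (n + 3))) (q : ℚ), ∀ i,
      (fd p w (z + (q : ℝ) • dir θ, θ)).1 ∈ region p →
      ‖(fd p w (z + (q : ℝ) • dir θ, θ)).1 - p i‖ < r →
      |f (fd p w (z + (q : ℝ) • dir θ, θ)) - c| ≤ η := Measure.ae_ae_of_ae_prod h1
  have hm : MeasurableSet {x : ℂ × ℝ | x.1 ∈ region p ∧ ¬ |f x - c| ≤ η} := by
    refine MeasurableSet.inter ?_ ?_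
    · rw [hrr]
      exact measurable_fst hopen.measurableSet
    · have : Measurable fun x => |f x - c| := (hf.sub_const c).abs
      exact (this measurableSet_Iic).compl
  have h3 : volume {x : ℂ × ℝ | x.1 ∈ region p ∧ ¬ |f x - c| ≤ η} = 0 := by
    rw [Measure.volume_eq_prod, Measure.measure_prod_null hm]
    filter_upwards [h2] with z hz
    show volume {θ : ℝ | z ∈ region p ∧ ¬ |f (z, θ) - c| ≤ η} = 0
    by_cases hzr : z ∈ region p
    · have hzr' : z ∈ reg p := by rw [← hrr]; exact hzr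
      have h4 := approach hp hzr' hr
      have h5 : ∀ᵐ θ : ℝ, |f (z, θ) - c| ≤ η := by
        filter_upwards [hz, h4] with θ h6 h7
        obtain ⟨u, t, O, k, j, hk⟩ := h7
        have hc : Continuous fun s : ℝ =>
            ‖srcs p z u (k + 1) + s • dir (angs p θ u (k + 1)) - p j‖ := by fun_prop
        have h8 : ‖srcs p z u (k + 1) + t k • dir (angs p θ u (k + 1)) - p j‖ < r := by
          rw [pt_next hp O k]; exact hk
        have h9 : ∀ᶠ s in 𝓝 (t k),
            ‖srcs p z u (k + 1) + s • dir (angs p θ u (k + 1)) - p j‖ < r :=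
          (hc.tendsto (t k)).eventually_lt_const h8
        obtain ⟨δ, hδ, hball⟩ := Metric.eventually_nhds_iff.1 h9
        obtain ⟨q, hq1, hq2⟩ := exists_rat_btwn
          (show t k < min (t (k + 1)) (t k + δ) from lt_min (O.mono k) (by linarith))
        have hq3 : (q : ℝ) < t (k + 1) := hq2.trans_le (min_le_left _ _)
        have hq4 : (q : ℝ) < t k + δ := hq2.trans_le (min_le_right _ _)
        rw [along hp hI hzr' O k q hq1 hq3]
        have h10 := h6 ((List.range (k + 1)).map u) q j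
        rw [fd_word hp] at h10
        refine h10 ?_ ?_
        · rw [hrr]
          exact O.ins k q hq1 hq3
        · apply hball
          rw [Real.dist_eq, abs_of_pos (by linarith)]
          linarith
      have h11 : {θ : ℝ | z ∈ region p ∧ ¬ |f (z, θ) - c| ≤ η} ⊆
          {θ : ℝ | ¬ |f (z, θ) - c| ≤ η} := fun θ hθ => hθ.2
      exact measure_mono_null h11 (ae_iff.1 h5)
    · have : {θ : ℝ | z ∈ region p ∧ ¬ |f (z, θ) - c| ≤ η} = ∅ := by
        ext θ; simp [hzr]
      rw [this, measure_empty]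
  have h4 := measure_eq_zero_iff_ae_notMem.1 h3
  filter_upwards [h4] with x hx hxr
  by_contra hcon
  exact hx ⟨hxr, hcon⟩

/-- Invariant functions with limits at the vertices are constant, if all angles are irrational. -/
theorem const_of_limits (hp : IsConvexPolygon p) (hirr : ∀ i, Irrational (ang p i / π))
    {f : ℂ × ℝ → ℝ} (hf : Measurable f) (hI : IsInvariantFun p f) (hV : HasVertexLimits p f) :
    ∃ c : ℝ, ∀ᵐ x : ℂ × ℝ, x.1 ∈ region p → f x = c := by
  have h1 : ∀ i, ∃ c : ℝ, ∀ η : ℝ, 0 < η → ∃ r : ℝ, 0 < r ∧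
      ∀ᵐ x : ℂ × ℝ, x.1 ∈ region p → ‖x.1 - p i‖ < r → |f x - c| ≤ η := by
    intro i
    obtain ⟨g, hg, hper, h⟩ := hV i
    obtain ⟨c, hc⟩ := vertex_const hp hI (hirr i) hg hper h
    refine ⟨c, fun η hη => ?_⟩
    obtain ⟨r, hr, hae⟩ := h η hη
    refine ⟨r, hr, ?_⟩
    have hc2 : ∀ᵐ x : ℂ × ℝ, g x.2 = c :=
      (Measure.quasiMeasurePreserving_snd (μ := (volume : Measure ℂ))
        (ν := (volume : Measure ℝ))).ae hc
    filter_upwards [hae, hc2] with x h2 h3 h4 h5
    rw [← h3]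
    exact h2 h4 h5
  choose c hc using h1
  refine ⟨c 0, ?_⟩
  have key : ∀ m : ℕ, ∀ᵐ x : ℂ × ℝ, x.1 ∈ region p → |f x - c 0| ≤ 1 / ((m : ℝ) + 1) := by
    intro m
    have h2 : ∀ i, ∃ r : ℝ, 0 < r ∧ ∀ᵐ x : ℂ × ℝ, x.1 ∈ region p → ‖x.1 - p i‖ < r →
        |f x - c 0| ≤ 1 / ((m : ℝ) + 1) := by
      intro i
      rw [← const_eq hp hI c hc i 0]
      exact hc i _ (by positivity)
    choose r hr hae using h2
    obtain ⟨i0, -, hmin⟩ := Finset.exists_min_image Finset.univ r ⟨0, Finset.mem_univ _⟩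
    refine spread hp hf hI (hr i0) ?_
    rw [ae_all_iff]
    intro i
    filter_upwards [hae i] with x hx h3 h4
    exact hx h3 (h4.trans_le (hmin i (Finset.mem_univ _)))
  filter_upwards [ae_all_iff.2 key] with x hx hxr
  have h4 : Tendsto (fun m : ℕ => 1 / ((m : ℝ) + 1)) atTop (𝓝 0) :=
    tendsto_one_div_add_atTop_nhds_zero_nat (𝕜 := ℝ)
  have h5 := ge_of_tendsto' h4 fun m => hx m hxr
  have h6 := le_antisymm h5 (abs_nonneg _)
  exact sub_eq_zero.1 (abs_eq_zero.1 h6)

end Pool.Agent.TH103.BL
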