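import Pool.Agent.W780.BB.Main
import Pool.Agent.W347.BB.Ref
import Pool.Agent.W12.BB.Unif
import Pool.Agent.W327.BB.Alt
import Pool.Agent.W340.BB.Trip
import Pool.Agent.W174.PG.Basic
import Pool.Agent.W975.PG.Hull
import Pool.Agent.W82.BB.Inv

set_option autoImplicit false

/-!
Billiard orbits in convex polygons, described by the virtual source and the itinerary.
-/

namespace Pool.Agent.TH103.BL

open Complex Set MeasureTheory Filter Topology Pool.Agent.W780.PG Pool.Agent.W780.BB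

open scoped Real ComplexConjugate

variable {n : ℕ} {p : Fin (n + 3) → ℂ}

theorem hR : S_Ref := Pool.Agent.W347.BB.ref
theorem hB : S_Basic := Pool.Agent.W174.PG.basic
theorem hH : S_Hull := Pool.Agent.W975.PG.hull hB
theorem hUnif : S_Unif :=
  Pool.Agent.W12.BB.Unif.unif _root_.W327.BB.alt (Pool.Agent.W340.BB.Trip.trip hR hB)

theorem rf_rf (hp : IsConvexPolygon p) (i : Fin (n + 3)) (z : ℂ) : rf p i (rf p i z) = z :=
  (hR n p hp).1 i z

theorem rf_norm (hp : IsConvexPolygon p) (i : Fin (n + 3)) (z w : ℂ) :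
    ‖rf p i z - rf p i w‖ = ‖z - w‖ := (hR n p hp).2.1 i z w

theorem sf_rf (hp : IsConvexPolygon p) (i : Fin (n + 3)) (z : ℂ) :
    sf p i (rf p i z) = - sf p i z := (hR n p hp).2.2.1 i z

theorem rf_fix (hp : IsConvexPolygon p) (i : Fin (n + 3)) (z : ℂ) (h : sf p i z = 0) :
    rf p i z = z := (hR n p hp).2.2.2.1 i z h

theorem rf_ray (hp : IsConvexPolygon p) (i : Fin (n + 3)) (z : ℂ) (s θ : ℝ) :
    rf p i (z + s • dir θ) = rf p i z + s • dir (2 * tau p i - θ) :=
  (hR n p hp).2.2.2.2.1 i z s θ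

/-- the slope of a side function along a direction -/
noncomputable def sl (p : Fin (n + 3) → ℂ) (i : Fin (n + 3)) (φ : ℝ) : ℝ :=
  (conj (p (i + 1) - p i) * dir φ).im

theorem sf_ray (p : Fin (n + 3) → ℂ) (i : Fin (n + 3)) (X : ℂ) (s φ : ℝ) :
    sf p i (X + s • dir φ) = sf p i X + s * sl p i φ := by
  unfold sf lft sl
  have : conj (p (i + 1) - p i) * (X + s • dir φ - p i) =
      conj (p (i + 1) - p i) * (X - p i) + (s : ℂ) * (conj (p (i + 1) - p i) * dir φ) := by
    rw [real_smul]; ring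
  rw [this, add_im, im_ofReal_mul]

theorem sf_lip (p : Fin (n + 3) → ℂ) (i : Fin (n + 3)) (z w : ℂ) :
    |sf p i z - sf p i w| ≤ ‖p (i + 1) - p i‖ * ‖z - w‖ := by
  unfold sf lft
  rw [← sub_im]
  have : conj (p (i + 1) - p i) * (z - p i) - conj (p (i + 1) - p i) * (w - p i) =
      conj (p (i + 1) - p i) * (z - w) := by ring
  rw [this]
  refine (abs_im_le_norm _).trans ?_
  rw [norm_mul, RCLike.norm_conj]

theorem sf_cont (p : Fin (n + 3) → ℂ) (i : Fin (n + 3)) : Continuous (sf p i) := by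
  unfold sf
  exact Pool.Agent.W174.PG.lft_cont _ _

theorem reg_sub_creg (p : Fin (n + 3) → ℂ) : reg p ⊆ creg p := fun _ h i => (h i).le

theorem exists_D (hp : IsConvexPolygon p) : ∃ D : ℝ, 0 < D ∧
    (∀ z ∈ creg p, ∀ w ∈ creg p, ‖z - w‖ ≤ D) := by
  have hc : creg p = convexHull ℝ (range p) := (hH n p hp).1
  have hb : Bornology.IsBounded (creg p) := by
    rw [hc]
    exact (isBounded_convexHull).2 (Set.finite_range p).isBounded
  obtain ⟨C, hC⟩ := hb.exists_norm_le
  refine ⟨2 * |C| + 1, by positivity, fun z hz w hw => ?_⟩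
  have h1 := hC z hz
  have h2 := hC w hw
  have h3 := le_abs_self C
  calc ‖z - w‖ ≤ ‖z‖ + ‖w‖ := norm_sub_le _ _
    _ ≤ 2 * |C| + 1 := by linarith

theorem side_sub_creg (hp : IsConvexPolygon p) (i : Fin (n + 3)) : side p i ⊆ creg p := by
  intro z hz
  exact ((hB n p hp).2.2.2.2.2.2.2.2.2.2.2.2.1 i z hz).1

theorem side_zero (hp : IsConvexPolygon p) {i : Fin (n + 3)} {z : ℂ} (hz : z ∈ side p i) :
    sf p i z = 0 := ((hB n p hp).2.2.2.2.2.2.2.2.2.2.2.2.1 i z hz).2.1

theorem side_pos (hp : IsConvexPolygon p) {i : Fin (n + 3)} {z : ℂ} (hz : z ∈ side p i)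
    {k : Fin (n + 3)} (hk : k ≠ i) : 0 < sf p k z :=
  ((hB n p hp).2.2.2.2.2.2.2.2.2.2.2.2.1 i z hz).2.2 k hk

theorem vert_mem (hp : IsConvexPolygon p) (i : Fin (n + 3)) : p i ∈ creg p :=
  (hB n p hp).2.2.2.2.2.2.2.1 i

/-- Just after time `t` the ray runs inside, and it never meets an unfolded vertex later. -/
structure Ok (p : Fin (n + 3) → ℂ) (X : ℂ) (φ t : ℝ) : Prop where
  ins : ∃ s0, t < s0 ∧ ∀ s, t < s → s < s0 → X + s • dir φ ∈ reg p
  gen : ∀ w j s, t < s → X + s • dir φ ≠ uf p w (p j)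

theorem step (hp : IsConvexPolygon p) {X : ℂ} {φ t : ℝ} (h : Ok p X φ t) :
    ∃ i s, t < s ∧ X + s • dir φ ∈ side p i ∧
      (∀ s', t < s' → s' < s → X + s' • dir φ ∈ reg p) ∧
      Ok p (rf p i X) (2 * tau p i - φ) s := by
  obtain ⟨s0, hs0, hin⟩ := h.ins
  have hopen : IsOpen (reg p) := (hB n p hp).2.1
  have hcl : closure (reg p) = creg p := (hB n p hp).2.2.2.2.2.2.1
  obtain ⟨D, hD, hdiam⟩ := exists_D hp
  set E : Set ℝ := {s | t < s ∧ X + s • dir φ ∉ reg p} with hE
  have hcont : Continuous fun s : ℝ => X + s • dir φ := by fun_prop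
  have hEne : E.Nonempty := by
    set a : ℝ := (t + s0) / 2 with ha
    have ha1 : X + a • dir φ ∈ reg p := hin a (by rw [ha]; linarith) (by rw [ha]; linarith)
    refine ⟨a + (D + 1), ?_, ?_⟩
    · rw [ha]; linarith
    · intro hmem
      have := hdiam _ (reg_sub_creg p hmem) _ (reg_sub_creg p ha1)
      have e : X + (a + (D + 1)) • dir φ - (X + a • dir φ) = (D + 1) • dir φ := by
        rw [add_smul]; ring
      rw [e, norm_smul, norm_dir, mul_one, Real.norm_eq_abs, abs_of_pos (by linarith)] at this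
      linarith
  have hEb : BddBelow E := ⟨t, fun s hs => hs.1.le⟩
  set s1 := sInf E with hs1
  have hs01 : s0 ≤ s1 := by
    refine le_csInf hEne fun s hs => ?_
    by_contra hcon
    push Not at hcon
    exact hs.2 (hin s hs.1 hcon)
  have ht1 : t < s1 := hs0.trans_le hs01
  have hbefore : ∀ s', t < s' → s' < s1 → X + s' • dir φ ∈ reg p := by
    intro s' h1 h2
    by_contra hcon
    exact absurd (csInf_le hEb (show s' ∈ E from ⟨h1, hcon⟩)) (not_le.2 h2)
  have hnot : X + s1 • dir φ ∉ reg p := by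
    intro hmem
    have h1 : ∀ᶠ s in 𝓝 s1, X + s • dir φ ∈ reg p := hcont.continuousAt (hopen.mem_nhds hmem)
    obtain ⟨δ, hδ, hball⟩ := Metric.eventually_nhds_iff.1 h1
    obtain ⟨s, hsE, hs⟩ := (csInf_lt_iff hEb hEne).1 (show sInf E < s1 + δ by linarith)
    have h2 : s1 ≤ s := csInf_le hEb hsE
    refine hsE.2 (hball ?_)
    rw [Real.dist_eq, abs_of_nonneg (by linarith)]
    linarith
  have hmemc : X + s1 • dir φ ∈ creg p := by
    rw [← hcl]
    have h1 : Tendsto (fun s : ℝ => X + s • dir φ) (𝓝[<] s1) (𝓝 (X + s1 • dir φ)) :=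
      hcont.continuousAt.mono_left nhdsWithin_le_nhds
    refine mem_closure_of_tendsto h1 ?_
    filter_upwards [Ioo_mem_nhdsLT ht1] with s hs using hbefore s hs.1 hs.2
  have hi : ∃ i, sf p i (X + s1 • dir φ) = 0 := by
    by_contra hcon
    push Not at hcon
    exact hnot fun i => lt_of_le_of_ne (hmemc i) (Ne.symm (hcon i))
  obtain ⟨i, hi⟩ := hi
  have hnv : ∀ k, X + s1 • dir φ ≠ p k := fun k => h.gen [] k s1 ht1
  have hside := (hB n p hp).2.2.2.2.2.2.2.2.2.2.1 _ hmemc i hi hnv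
  refine ⟨i, s1, ht1, hside.1, hbefore, ?_, ?_⟩
  · have hj : ∀ j, ∀ᶠ s in 𝓝[>] s1, 0 < sf p j (rf p i X + s • dir (2 * tau p i - φ)) := by
      intro j
      by_cases hji : j = i
      · subst hji
        filter_upwards [self_mem_nhdsWithin] with s hs
        rw [← rf_ray hp, sf_rf hp, sf_ray]
        rw [sf_ray] at hi
        have h1 := hbefore ((t + s1) / 2) (by linarith) (by linarith) j
        change 0 < sf p j _ at h1
        rw [sf_ray] at h1
        have h2 : (s1 - (t + s1) / 2) * sl p j φ < 0 := by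
          have : (s1 - (t + s1) / 2) * sl p j φ =
            (sf p j X + s1 * sl p j φ) - (sf p j X + (t + s1) / 2 * sl p j φ) := by ring
          rw [this, hi]; linarith
        have h3 : sl p j φ < 0 := by
          by_contra hcon
          push Not at hcon
          have := mul_nonneg (show 0 ≤ s1 - (t + s1) / 2 by linarith) hcon
          linarith
        have h4 : (s - s1) * sl p j φ < 0 := mul_neg_of_pos_of_neg (sub_pos.2 hs) h3
        have h5 : sf p j X + s * sl p j φ = (sf p j X + s1 * sl p j φ) + (s - s1) * sl p j φ := by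
          ring
        rw [h5, hi]; linarith
      · have h1 : Continuous fun s : ℝ => sf p j (rf p i X + s • dir (2 * tau p i - φ)) :=
          (sf_cont p j).comp (by fun_prop)
        have h2 : 0 < sf p j (rf p i X + s1 • dir (2 * tau p i - φ)) := by
          rw [← rf_ray hp, rf_fix hp i _ hi]
          exact hside.2 j hji
        exact ((h1.tendsto s1).eventually_const_lt h2).filter_mono nhdsWithin_le_nhds
    have hall := eventually_all.2 hj
    obtain ⟨b, hb, hsub⟩ := (mem_nhdsGT_iff_exists_Ioo_subset' (show s1 < s1 + 1 by linarith)).1 hall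
    exact ⟨b, hb, fun s h1 h2 => hsub ⟨h1, h2⟩⟩
  · intro w j s hs heq
    rw [← rf_ray hp] at heq
    have h1 : X + s • dir φ = uf p (i :: w) (p j) := by
      show _ = rf p i (uf p w (p j))
      rw [← heq, rf_rf hp]
    exact h.gen (i :: w) j s (ht1.trans hs) h1

/-- virtual sources along an itinerary -/
noncomputable def srcs (p : Fin (n + 3) → ℂ) (z : ℂ) (u : ℕ → Fin (n + 3)) : ℕ → ℂ
  | 0 => z
  | k + 1 => rf p (u k) (srcs p z u k)

/-- directions along an itinerary -/
noncomputable def angs (p : Fin (n + 3) → ℂ) (θ : ℝ) (u : ℕ → Fin (n + 3)) : ℕ → ℝ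
  | 0 => θ
  | k + 1 => 2 * tau p (u k) - angs p θ u k

/-- `u` is the itinerary of the orbit of `(z, θ)`, and `t` are the times of the reflections. -/
structure Orb (p : Fin (n + 3) → ℂ) (z : ℂ) (θ : ℝ) (u : ℕ → Fin (n + 3)) (t : ℕ → ℝ) : Prop where
  pos : 0 < t 0
  mono : ∀ k, t k < t (k + 1)
  hit : ∀ k, srcs p z u k + t k • dir (angs p θ u k) ∈ side p (u k)
  ins0 : ∀ s, 0 < s → s < t 0 → z + s • dir θ ∈ reg p
  ins : ∀ k s, t k < s → s < t (k + 1) →
    srcs p z u (k + 1) + s • dir (angs p θ u (k + 1)) ∈ reg p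

theorem exists_orb (hp : IsConvexPolygon p) {z : ℂ} {θ : ℝ} (h : Ok p z θ 0) :
    ∃ u t, Orb p z θ u t := by
  classical
  let St := {q : ℂ × ℝ × ℝ // Ok p q.1 q.2.1 q.2.2}
  have hst : ∀ q : St, ∃ r : Fin (n + 3) × ℝ, q.1.2.2 < r.2 ∧
      q.1.1 + r.2 • dir q.1.2.1 ∈ side p r.1 ∧
      (∀ s', q.1.2.2 < s' → s' < r.2 → q.1.1 + s' • dir q.1.2.1 ∈ reg p) ∧
      Ok p (rf p r.1 q.1.1) (2 * tau p r.1 - q.1.2.1) r.2 := by
    rintro ⟨⟨X, φ, t⟩, hq⟩
    obtain ⟨i, s, h1, h2, h3, h4⟩ := step hp hq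
    exact ⟨(i, s), h1, h2, h3, h4⟩
  choose F hF using hst
  let nx : St → St := fun q => ⟨(rf p (F q).1 q.1.1, 2 * tau p (F q).1 - q.1.2.1, (F q).2),
    (hF q).2.2.2⟩
  let st : ℕ → St := fun k => Nat.rec ⟨(z, θ, 0), h⟩ (fun _ q => nx q) k
  have hsucc : ∀ k, st (k + 1) = nx (st k) := fun k => rfl
  let u : ℕ → Fin (n + 3) := fun k => (F (st k)).1
  let t : ℕ → ℝ := fun k => (F (st k)).2
  have hX : ∀ k, srcs p z u k = (st k).1.1 := by
    intro k
    induction k with
    | zero => rfl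
    | succ k ih =>
      rw [hsucc]
      show rf p (u k) (srcs p z u k) = rf p (F (st k)).1 (st k).1.1
      rw [ih]
  have hφ : ∀ k, angs p θ u k = (st k).1.2.1 := by
    intro k
    induction k with
    | zero => rfl
    | succ k ih =>
      rw [hsucc]
      show 2 * tau p (u k) - angs p θ u k = 2 * tau p (F (st k)).1 - (st k).1.2.1
      rw [ih]
  refine ⟨u, t, ?_, ?_, ?_, ?_, ?_⟩
  · exact (hF (st 0)).1
  · intro k
    exact (hF (st (k + 1))).1
  · intro k
    rw [hX, hφ]
    exact (hF (st k)).2.1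
  · intro s h1 h2
    exact (hF (st 0)).2.2.1 s h1 h2
  · intro k s h1 h2
    rw [hX, hφ]
    exact (hF (st (k + 1))).2.2.1 s h1 h2

variable {z : ℂ} {θ : ℝ} {u : ℕ → Fin (n + 3)} {t : ℕ → ℝ}

/-- the `k`-th reflection point, folded -/
noncomputable def pt (p : Fin (n + 3) → ℂ) (z : ℂ) (θ : ℝ) (u : ℕ → Fin (n + 3)) (t : ℕ → ℝ)
    (k : ℕ) : ℂ := srcs p z u k + t k • dir (angs p θ u k)

theorem pt_next (hp : IsConvexPolygon p) (O : Orb p z θ u t) (k : ℕ) :
    srcs p z u (k + 1) + t k • dir (angs p θ u (k + 1)) = pt p z θ u t k := by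
  show rf p (u k) (srcs p z u k) + t k • dir (2 * tau p (u k) - angs p θ u k) = _
  rw [← rf_ray hp]
  exact rf_fix hp _ _ (side_zero hp (O.hit k))

theorem Orb.tpos (O : Orb p z θ u t) (k : ℕ) : 0 < t k := by
  induction k with
  | zero => exact O.pos
  | succ k ih => exact ih.trans (O.mono k)

theorem Orb.tmono (O : Orb p z θ u t) : StrictMono t := strictMono_nat_of_lt_succ O.mono

theorem pt_zero_next (hp : IsConvexPolygon p) (O : Orb p z θ u t) (k : ℕ) :
    0 < sf p (u k) (pt p z θ u t (k + 1)) ∧ 0 < sl p (u k) (angs p θ u (k + 1)) := by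
  have h0 : sf p (u k) (srcs p z u (k + 1) + t k • dir (angs p θ u (k + 1))) = 0 := by
    rw [pt_next hp O]
    exact side_zero hp (O.hit k)
  have hm := O.mono k
  have h1 := O.ins k ((t k + t (k + 1)) / 2) (by linarith) (by linarith) (u k)
  change 0 < sf p (u k) _ at h1
  rw [sf_ray] at h0 h1
  have h2 : 0 < ((t k + t (k + 1)) / 2 - t k) * sl p (u k) (angs p θ u (k + 1)) := by
    have : ((t k + t (k + 1)) / 2 - t k) * sl p (u k) (angs p θ u (k + 1)) =
      (sf p (u k) (srcs p z u (k + 1)) + (t k + t (k + 1)) / 2 * sl p (u k) (angs p θ u (k + 1))) -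
      (sf p (u k) (srcs p z u (k + 1)) + t k * sl p (u k) (angs p θ u (k + 1))) := by ring
    rw [this, h0]; linarith
  have h3 : 0 < sl p (u k) (angs p θ u (k + 1)) := by
    by_contra hcon
    push Not at hcon
    have := mul_nonpos_of_nonneg_of_nonpos (show 0 ≤ (t k + t (k + 1)) / 2 - t k by linarith) hcon
    linarith
  refine ⟨?_, h3⟩
  unfold pt
  rw [sf_ray]
  have : sf p (u k) (srcs p z u (k + 1)) + t (k + 1) * sl p (u k) (angs p θ u (k + 1)) =
    (sf p (u k) (srcs p z u (k + 1)) + t k * sl p (u k) (angs p θ u (k + 1))) +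
    (t (k + 1) - t k) * sl p (u k) (angs p θ u (k + 1)) := by ring
  rw [this, h0, zero_add]
  exact mul_pos (by linarith) h3

theorem u_ne (hp : IsConvexPolygon p) (O : Orb p z θ u t) (k : ℕ) : u (k + 1) ≠ u k := by
  intro h
  have h1 := (pt_zero_next hp O k).1
  rw [← h] at h1
  have h2 : sf p (u (k + 1)) (pt p z θ u t (k + 1)) = 0 := side_zero hp (O.hit (k + 1))
  linarith

theorem unbounded (hp : IsConvexPolygon p) (O : Orb p z θ u t) (T : ℝ) : ∃ k, T ≤ t k := by
  by_contra hcon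
  push Not at hcon
  obtain ⟨K, hK⟩ := hUnif n p hp T
  have h := hK u (fun k => pt p z θ u t k) (fun k => angs p θ u (k + 1))
    (fun k => t (k + 1) - t k) (K + 1) (fun k _ => O.hit k) ?_ ?_
  · omega
  · intro k _
    refine ⟨sub_pos.2 (O.mono k), ?_, rfl, u_ne hp O k⟩
    show srcs p z u (k + 1) + t (k + 1) • dir (angs p θ u (k + 1)) = _
    rw [← pt_next hp O k, sub_smul]
    ring
  · rw [Finset.sum_range_sub]
    have h1 := hcon (K + 1)
    have h2 := O.pos
    linarith

theorem srcs_congr {u' : ℕ → Fin (n + 3)} {k : ℕ} (h : ∀ i < k, u i = u' i) :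
    srcs p z u k = srcs p z u' k := by
  induction k with
  | zero => rfl
  | succ k ih =>
    show rf p (u k) (srcs p z u k) = rf p (u' k) (srcs p z u' k)
    rw [ih fun i hi => h i (by omega), h k (by omega)]

theorem angs_congr {u' : ℕ → Fin (n + 3)} {k : ℕ} (h : ∀ i < k, u i = u' i) :
    angs p θ u k = angs p θ u' k := by
  induction k with
  | zero => rfl
  | succ k ih =>
    show 2 * tau p (u k) - angs p θ u k = 2 * tau p (u' k) - angs p θ u' k
    rw [ih fun i hi => h i (by omega), h k (by omega)]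

theorem angs_diff (θ' : ℝ) (k : ℕ) : angs p θ u k - angs p θ' u k = θ - θ' ∨
    angs p θ u k - angs p θ' u k = θ' - θ := by
  induction k with
  | zero => left; rfl
  | succ k ih =>
    have h1 : angs p θ u (k + 1) - angs p θ' u (k + 1) = -(angs p θ u k - angs p θ' u k) := by
      show 2 * tau p (u k) - angs p θ u k - (2 * tau p (u k) - angs p θ' u k) = _
      ring
    rw [h1]
    rcases ih with h | h
    · right; rw [h]; ring
    · left; rw [h]; ring

theorem norm_dir_diff (a b : ℝ) : ‖dir a - dir b‖ = ‖dir (a - b) - 1‖ := by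
  have h1 : dir a = dir b * dir (a - b) := by rw [← dir_add]; ring_nf
  rw [h1]
  have h2 : dir b * dir (a - b) - dir b = dir b * (dir (a - b) - 1) := by ring
  rw [h2, norm_mul, norm_dir, one_mul]

theorem dir_zero : dir 0 = 1 := by unfold dir; simp

theorem norm_dir_neg (a : ℝ) : ‖dir (-a) - 1‖ = ‖dir a - 1‖ := by
  have h1 : dir a * dir (-a) = 1 := by rw [← dir_add, add_neg_cancel, dir_zero]
  have h2 : dir a * (dir (-a) - 1) = -(dir a - 1) := by rw [mul_sub, h1]; ring
  have h3 : ‖dir a * (dir (-a) - 1)‖ = ‖dir (-a) - 1‖ := by rw [norm_mul, norm_dir, one_mul]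
  rw [← h3, h2, norm_neg]

theorem norm_dir_angs (θ' : ℝ) (k : ℕ) :
    ‖dir (angs p θ u k) - dir (angs p θ' u k)‖ = ‖dir θ - dir θ'‖ := by
  rw [norm_dir_diff, norm_dir_diff θ θ']
  rcases angs_diff (p := p) (u := u) (θ := θ) θ' k with h | h
  · rw [h]
  · rw [h, ← norm_dir_neg (θ - θ')]
    congr 3
    ring

end Pool.Agent.TH103.BL
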