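import Pool.Agent.TH103.BL.Main

set_option autoImplicit false

/-!
Parallel orbits: functions which depend only on the direction near the vertices do not change under
small transversal translations.
-/

namespace Pool.Agent.TH103.BL

open Complex Set MeasureTheory Filter Topology Pool.Agent.W780.PG Pool.Agent.W780.BB

open scoped Real ComplexConjugate

variable {n : ℕ} {p : Fin (n + 3) → ℂ} {z z' : ℂ} {θ : ℝ} {u u' : ℕ → Fin (n + 3)} {t t' : ℕ → ℝ}

theorem frame_dist (hp : IsConvexPolygon p) (z z' : ℂ) (θ s : ℝ) (u : ℕ → Fin (n + 3)) (k : ℕ) :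
    ‖(srcs p z u k + s • dir (angs p θ u k)) - (srcs p z' u k + s • dir (angs p θ u k))‖ =
      ‖z - z'‖ := by
  rw [add_sub_add_right_eq_sub]
  induction k with
  | zero => rfl
  | succ k ih =>
    show ‖rf p (u k) (srcs p z u k) - rf p (u k) (srcs p z' u k)‖ = _
    rw [rf_norm hp, ih]

/-- the previous reflection time -/
def tp (t : ℕ → ℝ) : ℕ → ℝ
  | 0 => 0
  | k + 1 => t k

/-- the position in frame `k` at time `s` -/
noncomputable def ps (p : Fin (n + 3) → ℂ) (z : ℂ) (θ : ℝ) (u : ℕ → Fin (n + 3)) (k : ℕ) (s : ℝ) :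
    ℂ := srcs p z u k + s • dir (angs p θ u k)

def FarAt (p : Fin (n + 3) → ℂ) (z : ℂ) (θ : ℝ) (u : ℕ → Fin (n + 3)) (t : ℕ → ℝ) (κ : ℝ)
    (k : ℕ) : Prop := ∀ j, j ≠ u k → κ ≤ sf p j (pt p z θ u t k)

theorem tp_lt (O : Orb p z θ u t) (k : ℕ) : tp t k < t k := by
  cases k with
  | zero => exact O.pos
  | succ k => exact O.mono k

theorem tp_nonneg (O : Orb p z θ u t) (k : ℕ) : 0 ≤ tp t k := by
  cases k with
  | zero => exact le_rfl
  | succ k => exact (O.tpos k).le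

theorem ps_in (O : Orb p z θ u t) (k : ℕ) {s : ℝ} (h1 : tp t k < s) (h2 : s < t k) :
    ps p z θ u k s ∈ reg p := by
  cases k with
  | zero => exact O.ins0 s h1 h2
  | succ k => exact O.ins k s h1 h2

/-- the starting point of the `k`-th piece -/
theorem ps_start (hp : IsConvexPolygon p) (O : Orb p z θ u t) (k : ℕ) {κ : ℝ}
    (hz : ∀ j, κ ≤ sf p j z) (hF : ∀ m < k, FarAt p z θ u t κ m) {j : Fin (n + 3)}
    (hj : ∀ m, k = m + 1 → j ≠ u m) : κ ≤ sf p j (ps p z θ u k (tp t k)) := by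
  cases k with
  | zero =>
    show κ ≤ sf p j (z + (0 : ℝ) • dir θ)
    rw [zero_smul, add_zero]
    exact hz j
  | succ k =>
    show κ ≤ sf p j (srcs p z u (k + 1) + t k • dir (angs p θ u (k + 1)))
    rw [pt_next hp O k]
    exact hF k (Nat.lt_succ_self k) j (hj k rfl)

theorem ps_start_creg (hp : IsConvexPolygon p) (hz : z ∈ reg p) (O : Orb p z θ u t) (k : ℕ) :
    ps p z θ u k (tp t k) ∈ creg p := by
  cases k with
  | zero =>
    show z + (0 : ℝ) • dir θ ∈ creg p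
    rw [zero_smul, add_zero]
    exact reg_sub_creg p hz
  | succ k =>
    show srcs p z u (k + 1) + t k • dir (angs p θ u (k + 1)) ∈ creg p
    rw [pt_next hp O k]
    exact side_sub_creg hp _ (O.hit k)

theorem ps_diff (k : ℕ) (s s' : ℝ) : ‖ps p z θ u k s - ps p z θ u k s'‖ = |s - s'| := by
  unfold ps
  rw [add_sub_add_left_eq_sub, ← sub_smul, norm_smul, norm_dir, mul_one, Real.norm_eq_abs]

theorem piece_le (hp : IsConvexPolygon p) (hz : z ∈ reg p) {D : ℝ}
    (hD : ∀ z ∈ creg p, ∀ w ∈ creg p, ‖z - w‖ ≤ D) (O : Orb p z θ u t) (k : ℕ) :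
    t k - tp t k ≤ D := by
  have h1 := hD _ (side_sub_creg hp _ (O.hit k)) _ (ps_start_creg hp hz O k)
  have h2 := ps_diff (p := p) (z := z) (θ := θ) (u := u) k (t k) (tp t k)
  have h3 := tp_lt O k
  rw [abs_of_pos (by linarith)] at h2
  unfold ps at h2
  unfold ps at h1
  rw [h2] at h1
  exact h1

/-- closeness of parallel orbits in a common frame -/
theorem par_close (hp : IsConvexPolygon p) {D : ℝ} (hD : ∀ i, ‖p (i + 1) - p i‖ ≤ D) {k : ℕ}
    (hag : ∀ i < k, u i = u' i) (j : Fin (n + 3)) (s : ℝ) :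
    |sf p j (ps p z θ u k s) - sf p j (ps p z' θ u' k s)| ≤ D * ‖z - z'‖ := by
  have hX : srcs p z' u k = srcs p z' u' k := srcs_congr hag
  have hA : angs p θ u k = angs p θ u' k := angs_congr hag
  have h1 := frame_dist hp z z' θ s u k
  unfold ps
  rw [← hX, ← hA]
  refine (sf_lip p j _ _).trans ?_
  rw [h1]
  exact mul_le_mul_of_nonneg_right (hD j) (norm_nonneg _)

/-- the order of the times -/
theorem par_order (hp : IsConvexPolygon p) {D : ℝ} (hD : ∀ i, ‖p (i + 1) - p i‖ ≤ D)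
    (O : Orb p z θ u t) (O' : Orb p z' θ u' t') {κ : ℝ} (hκ : 0 < κ) (hz : ∀ j, κ ≤ sf p j z)
    (hz' : ∀ j, κ ≤ sf p j z') {k : ℕ} (hF : ∀ m < k, FarAt p z θ u t κ m)
    (hF' : ∀ m < k, FarAt p z' θ u' t' κ m) (hag : ∀ i < k, u i = u' i)
    (hcl : D * ‖z - z'‖ < κ) : tp t' k < t k := by
  by_contra hcon
  push Not at hcon
  have hne : ∀ m, k = m + 1 → u k ≠ u m := by
    rintro m rfl
    exact u_ne hp O m
  have hne' : ∀ m, k = m + 1 → u k ≠ u' m := by
    rintro m rfl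
    rw [← hag m (Nat.lt_succ_self m)]
    exact u_ne hp O m
  have h1 := ps_start hp O k hz hF hne
  have h2 := ps_start hp O' k hz' hF' hne'
  have h3 : sf p (u k) (ps p z θ u k (t k)) = 0 := side_zero hp (O.hit k)
  have h4 := par_close (z := z) (z' := z') (θ := θ) hp hD hag (u k) (tp t' k)
  have h5 := tp_lt O k
  unfold ps at h1 h3 h4
  rw [sf_ray] at h1 h3
  rw [sf_ray p (u k) (srcs p z u k)] at h4
  have h6 : (t k - tp t k) * sl p (u k) (angs p θ u k) < 0 := by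
    have : (t k - tp t k) * sl p (u k) (angs p θ u k) =
      (sf p (u k) (srcs p z u k) + t k * sl p (u k) (angs p θ u k)) -
      (sf p (u k) (srcs p z u k) + tp t k * sl p (u k) (angs p θ u k)) := by ring
    rw [this, h3]; linarith
  have h7 : sl p (u k) (angs p θ u k) < 0 := by
    by_contra hc
    push Not at hc
    have := mul_nonneg (show 0 ≤ t k - tp t k by linarith) hc
    linarith
  have h8 : sf p (u k) (srcs p z u k) + tp t' k * sl p (u k) (angs p θ u k) ≤ 0 := by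
    have e : sf p (u k) (srcs p z u k) + tp t' k * sl p (u k) (angs p θ u k) =
      (sf p (u k) (srcs p z u k) + t k * sl p (u k) (angs p θ u k)) +
      (tp t' k - t k) * sl p (u k) (angs p θ u k) := by ring
    rw [e, h3]
    have := mul_nonpos_of_nonneg_of_nonpos (sub_nonneg.2 hcon) h7.le
    linarith
  have h9 := (abs_le.1 h4).1
  change κ ≤ sf p (u k) (srcs p z' u' k + tp t' k • dir (angs p θ u' k)) at h2
  linarith

/-- one step of the comparison -/
theorem par_one (hp : IsConvexPolygon p) {D : ℝ} (hD : ∀ i, ‖p (i + 1) - p i‖ ≤ D)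
    (O : Orb p z θ u t) (O' : Orb p z' θ u' t') {κ : ℝ} (hκ : 0 < κ) (hz : ∀ j, κ ≤ sf p j z)
    (hz' : ∀ j, κ ≤ sf p j z') {k : ℕ} (hF : ∀ m < k, FarAt p z θ u t κ m)
    (hF' : ∀ m ≤ k, FarAt p z' θ u' t' κ m) (hag : ∀ i < k, u i = u' i)
    (hcl : D * ‖z - z'‖ < κ) (hle : t k ≤ t' k) : u k = u' k := by
  by_contra hne
  have hord := par_order hp hD O O' hκ hz hz' hF (fun m hm => hF' m hm.le) hag hcl
  have hne' : ∀ m, k = m + 1 → u k ≠ u' m := by
    rintro m rfl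
    rw [← hag m (Nat.lt_succ_self m)]
    exact u_ne hp O m
  have h2 := ps_start hp O' k hz' (fun m hm => hF' m hm.le) hne'
  have h3 : sf p (u k) (ps p z θ u k (t k)) = 0 := side_zero hp (O.hit k)
  have h4 := par_close (z := z) (z' := z') (θ := θ) hp hD hag (u k) (t k)
  have hend : κ ≤ sf p (u k) (srcs p z' u' k) + t' k * sl p (u k) (angs p θ u' k) := by
    have := hF' k le_rfl (u k) hne
    unfold pt at this
    rwa [sf_ray] at this
  unfold ps at h2
  rw [sf_ray] at h2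
  have h5 := affine_ge h2 hend hord.le hle
  rw [← sf_ray] at h5
  rw [h3, zero_sub, abs_neg] at h4
  have h6 := le_abs_self (sf p (u k) (ps p z' θ u' k (t k)))
  unfold ps at h6 h4
  linarith

theorem par_agree (hp : IsConvexPolygon p) {D : ℝ} (hD : ∀ i, ‖p (i + 1) - p i‖ ≤ D)
    (O : Orb p z θ u t) (O' : Orb p z' θ u' t') {κ : ℝ} (hκ : 0 < κ) (hz : ∀ j, κ ≤ sf p j z)
    (hz' : ∀ j, κ ≤ sf p j z') {K : ℕ} (hF : ∀ m < K, FarAt p z θ u t κ m)
    (hF' : ∀ m < K, FarAt p z' θ u' t' κ m) (hcl : D * ‖z - z'‖ < κ) :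
    ∀ i < K, u i = u' i := by
  intro i
  induction i using Nat.strong_induction_on with
  | _ i ih =>
    intro hi
    have hag : ∀ k < i, u k = u' k := fun k hk => ih k hk (by omega)
    rcases le_total (t i) (t' i) with h | h
    · exact par_one hp hD O O' hκ hz hz' (fun m hm => hF m (by omega))
        (fun m hm => hF' m (by omega)) hag hcl h
    · exact (par_one hp hD O' O hκ hz' hz (fun m hm => hF' m (by omega))
        (fun m hm => hF m (by omega)) (fun k hk => (hag k hk).symm)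
        (by rw [norm_sub_rev]; exact hcl) h).symm

/-- When the first orbit comes close to a vertex, the second one is close to it, too. -/
theorem par_meet (hp : IsConvexPolygon p) {D : ℝ} (hD0 : 0 < D)
    (hD : ∀ z ∈ creg p, ∀ w ∈ creg p, ‖z - w‖ ≤ D) (hzr : z ∈ reg p)
    (O : Orb p z θ u t) (O' : Orb p z' θ u' t') {κ : ℝ} (hκ : 0 < κ) (hz : ∀ j, κ ≤ sf p j z)
    (hz' : ∀ j, κ ≤ sf p j z') {K : ℕ} (hF : ∀ m < K, FarAt p z θ u t κ m)
    (hF' : ∀ m < K, FarAt p z' θ u' t' κ m) (hcl : D * ‖z - z'‖ < κ) {ε : ℝ} (hε : 0 < ε)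
    (hcl2 : D ^ 2 * ‖z - z'‖ < κ * ε) (hcl3 : ‖z - z'‖ < ε) {j : Fin (n + 3)}
    (hj : ‖pt p z θ u t K - p j‖ < ε) :
    ∃ s1 s2 : ℝ, s1 < s2 ∧ ∀ s, s1 < s → s < s2 → tp t K < s ∧ s < t K ∧ tp t' K < s ∧ s < t' K ∧
      ‖ps p z θ u K s - p j‖ < 4 * ε ∧ ‖ps p z' θ u' K s - p j‖ < 4 * ε := by
  have hDs : ∀ i, ‖p (i + 1) - p i‖ ≤ D := fun i => hD _ (vert_mem hp _) _ (vert_mem hp _)
  have hag := par_agree hp hDs O O' hκ hz hz' hF hF' hcl
  have ho1 := par_order hp hDs O O' hκ hz hz' hF hF' hag hcl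
  have hcl' : D * ‖z' - z‖ < κ := by rw [norm_sub_rev]; exact hcl
  have ho2 := par_order hp hDs O' O hκ hz' hz hF' hF (fun i hi => (hag i hi).symm) hcl'
  have hl1 := tp_lt O K
  have hl2 := tp_lt O' K
  -- the second orbit does not leave much earlier
  have hlate : t K - ε ≤ t' K := by
    by_contra hcon
    push Not at hcon
    have hne : ∀ m, K = m + 1 → u' K ≠ u m := by
      rintro m rfl
      rw [hag m (Nat.lt_succ_self m)]
      exact u_ne hp O' m
    have h1 := ps_start hp O K hz hF hne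
    have h2 : 0 ≤ sf p (u' K) (ps p z θ u K (t K)) := side_sub_creg hp _ (O.hit K) (u' K)
    have h3 : sf p (u' K) (ps p z' θ u' K (t' K)) = 0 := side_zero hp (O'.hit K)
    have h4 := par_close (z := z) (z' := z') (θ := θ) hp hDs hag (u' K) (t' K)
    rw [h3, sub_zero] at h4
    have h5 := (le_abs_self _).trans h4
    have h6 := piece_le hp hzr hD O K
    unfold ps at h1 h2 h5
    rw [sf_ray] at h1 h2 h5
    set α := sf p (u' K) (srcs p z u K) with hα
    set β := sl p (u' K) (angs p θ u K) with hβ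
    have h7 : κ * (t K - t' K) ≤ (t K - tp t K) * (α + t' K * β) := by
      have e : (t K - tp t K) * (α + t' K * β) =
        (t K - t' K) * (α + tp t K * β) + (t' K - tp t K) * (α + t K * β) := by ring
      rw [e]
      have h8 := mul_le_mul_of_nonneg_left h1 (show 0 ≤ t K - t' K by linarith)
      have h9 := mul_nonneg (show 0 ≤ t' K - tp t K by linarith) h2
      linarith
    have h8 : κ * ε < κ * (t K - t' K) := by
      apply mul_lt_mul_of_pos_left _ hκ
      linarith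
    have h9 : (t K - tp t K) * (α + t' K * β) ≤ D * (D * ‖z - z'‖) := by
      have hnn : 0 ≤ D * ‖z - z'‖ := by positivity
      calc (t K - tp t K) * (α + t' K * β) ≤ (t K - tp t K) * (D * ‖z - z'‖) :=
            mul_le_mul_of_nonneg_left h5 (by linarith)
        _ ≤ D * (D * ‖z - z'‖) := mul_le_mul_of_nonneg_right h6 hnn
    have h10 : D * (D * ‖z - z'‖) = D ^ 2 * ‖z - z'‖ := by ring
    linarith
  have hXd : ∀ s, ‖ps p z θ u K s - ps p z' θ u' K s‖ = ‖z - z'‖ := by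
    intro s
    have hX : srcs p z' u K = srcs p z' u' K := srcs_congr hag
    have hA : angs p θ u K = angs p θ u' K := angs_congr hag
    have h1 := frame_dist hp z z' θ s u K
    unfold ps
    rw [← hX, ← hA]
    exact h1
  refine ⟨max (max (tp t K) (tp t' K)) (min (t K) (t' K) - ε), min (t K) (t' K), ?_, ?_⟩
  · refine max_lt (max_lt (lt_min hl1 ho2) (lt_min ho1 hl2)) (by linarith)
  · intro s h1 h2
    have a1 := (le_max_left _ _).trans_lt h1
    have a2 := (le_max_right _ _).trans_lt h1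
    have a3 := (le_max_left _ _).trans_lt a1
    have a4 := (le_max_right _ _).trans_lt a1
    have a5 := h2.trans_le (min_le_left _ _)
    have a6 := h2.trans_le (min_le_right _ _)
    have a7 : t K - ε ≤ min (t K) (t' K) := le_min (by linarith) hlate
    have b1 : ‖ps p z θ u K s - ps p z θ u K (t K)‖ < 2 * ε := by
      rw [ps_diff, abs_sub_comm, abs_of_pos (by linarith)]
      linarith
    have b2 : ‖ps p z θ u K s - p j‖ < 3 * ε := by
      calc ‖ps p z θ u K s - p j‖ =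
            ‖(ps p z θ u K s - ps p z θ u K (t K)) + (ps p z θ u K (t K) - p j)‖ := by
            congr 1; ring
        _ ≤ ‖ps p z θ u K s - ps p z θ u K (t K)‖ + ‖ps p z θ u K (t K) - p j‖ :=
            norm_add_le _ _
        _ < 2 * ε + ε := add_lt_add b1 hj
        _ = 3 * ε := by ring
    refine ⟨a3, a5, a4, a6, by linarith, ?_⟩
    calc ‖ps p z' θ u' K s - p j‖ =
          ‖(ps p z θ u K s - p j) - (ps p z θ u K s - ps p z' θ u' K s)‖ := by
          congr 1; ring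
      _ ≤ ‖ps p z θ u K s - p j‖ + ‖ps p z θ u K s - ps p z' θ u' K s‖ := norm_sub_le _ _
      _ < 4 * ε := by rw [hXd]; linarith

/-- invariance, in frame `K` -/
theorem along' (hp : IsConvexPolygon p) {f : ℂ × ℝ → ℝ} (hI : IsInvariantFun p f)
    (hz : z ∈ reg p) (O : Orb p z θ u t) (K : ℕ) {s : ℝ} (h1 : tp t K < s) (h2 : s < t K) :
    f (z, θ) = f (ps p z θ u K s, angs p θ u K) := by
  cases K with
  | zero =>
    have hrr := region_eq hp
    exact hI.free z θ s (by rw [hrr]; exact hz) (by rw [hrr]; exact ps_in O 0 h1 h2)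
  | succ k => exact along hp hI hz O k s h1 h2

/-- The key: transversal translations. -/
theorem par_value (hp : IsConvexPolygon p) {f : ℂ × ℝ → ℝ} (hI : IsInvariantFun p f)
    (g : Fin (n + 3) → ℝ → ℝ) {D : ℝ} (hD0 : 0 < D)
    (hD : ∀ z ∈ creg p, ∀ w ∈ creg p, ‖z - w‖ ≤ D) (hzr : z ∈ reg p) (hzr' : z' ∈ reg p)
    {κ : ℝ} (hκ : 0 < κ) (hz : ∀ j, κ ≤ sf p j z)
    (hz' : ∀ j, κ ≤ sf p j z') {ε : ℝ} (hε : 0 < ε)
    (hκε : ∀ i, ∀ z ∈ side p i, (∀ j, ε ≤ ‖z - p j‖) → ∀ k, k ≠ i → κ ≤ sf p k z)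
    (hcl : D * ‖z - z'‖ < κ) (hcl2 : D ^ 2 * ‖z - z'‖ < κ * ε) (hcl3 : ‖z - z'‖ < ε)
    (happ : ∃ u t, Orb p z θ u t ∧ ∃ k j, ‖pt p z θ u t k - p j‖ < ε) (hOk : Ok p z' θ 0)
    (hb : ∀ (w : List (Fin (n + 3))) (q : ℚ), ∀ i,
      (fd p w (z + (q : ℝ) • dir θ, θ)).1 ∈ region p →
      ‖(fd p w (z + (q : ℝ) • dir θ, θ)).1 - p i‖ < 4 * ε →
      f (fd p w (z + (q : ℝ) • dir θ, θ)) = g i (fd p w (z + (q : ℝ) • dir θ, θ)).2)
    (hb' : ∀ (w : List (Fin (n + 3))) (q : ℚ), ∀ i,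
      (fd p w (z' + (q : ℝ) • dir θ, θ)).1 ∈ region p →
      ‖(fd p w (z' + (q : ℝ) • dir θ, θ)).1 - p i‖ < 4 * ε →
      f (fd p w (z' + (q : ℝ) • dir θ, θ)) = g i (fd p w (z' + (q : ℝ) • dir θ, θ)).2) :
    f (z, θ) = f (z', θ) := by
  classical
  have hrr := region_eq hp
  obtain ⟨u, t, O, k0, j0, hk0⟩ := happ
  obtain ⟨u', t', O'⟩ := exists_orb hp hOk
  have hex : ∃ K, (∃ j, ‖pt p z θ u t K - p j‖ < ε) ∨ (∃ j, ‖pt p z' θ u' t' K - p j‖ < ε) :=
    ⟨k0, Or.inl ⟨j0, hk0⟩⟩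
  set K := Nat.find hex with hK
  have hspec := Nat.find_spec hex
  have hmin : ∀ m < K, ¬ ((∃ j, ‖pt p z θ u t m - p j‖ < ε) ∨
      (∃ j, ‖pt p z' θ u' t' m - p j‖ < ε)) := fun m hm => Nat.find_min hex hm
  have hF : ∀ m < K, FarAt p z θ u t κ m := by
    intro m hm j hj
    have h1 := hmin m hm
    push Not at h1
    exact hκε (u m) _ (O.hit m) h1.1 j hj
  have hF' : ∀ m < K, FarAt p z' θ u' t' κ m := by
    intro m hm j hj
    have h1 := hmin m hm
    push Not at h1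
    exact hκε (u' m) _ (O'.hit m) h1.2 j hj
  have hDs : ∀ i, ‖p (i + 1) - p i‖ ≤ D := fun i => hD _ (vert_mem hp _) _ (vert_mem hp _)
  have hag := par_agree hp hDs O O' hκ hz hz' hF hF' hcl
  have hrev : ‖z' - z‖ = ‖z - z'‖ := norm_sub_rev _ _
  obtain ⟨j, s1, s2, hs, hall⟩ : ∃ j : Fin (n + 3), ∃ s1 s2 : ℝ, s1 < s2 ∧ ∀ s, s1 < s → s < s2 →
      tp t K < s ∧ s < t K ∧ tp t' K < s ∧ s < t' K ∧
      ‖ps p z θ u K s - p j‖ < 4 * ε ∧ ‖ps p z' θ u' K s - p j‖ < 4 * ε := by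
    rcases hspec with ⟨j, hj⟩ | ⟨j, hj⟩
    · exact ⟨j, par_meet hp hD0 hD hzr O O' hκ hz hz' hF hF' hcl hε hcl2 hcl3 hj⟩
    · obtain ⟨s1, s2, h1, h2⟩ := par_meet hp hD0 hD hzr' O' O hκ hz' hz hF' hF
        (by rw [hrev]; exact hcl) hε (by rw [hrev]; exact hcl2) (by rw [hrev]; exact hcl3) hj
      refine ⟨j, s1, s2, h1, fun s h3 h4 => ?_⟩
      obtain ⟨a, b, c, d, e, f⟩ := h2 s h3 h4
      exact ⟨c, d, a, b, f, e⟩
  obtain ⟨q, hq1, hq2⟩ := exists_rat_btwn hs
  obtain ⟨a1, a2, a3, a4, a5, a6⟩ := hall q hq1 hq2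
  rw [along' hp hI hzr O K a1 a2, along' hp hI hzr' O' K a3 a4]
  have e1 := hb ((List.range K).map u) q j
  rw [fd_word hp] at e1
  have e2 := hb' ((List.range K).map u') q j
  rw [fd_word hp] at e2
  have hA : angs p θ u K = angs p θ u' K := angs_congr hag
  have f1 := e1 (by rw [hrr]; exact ps_in O K a1 a2) a5
  have f2 := e2 (by rw [hrr]; exact ps_in O' K a3 a4) a6
  unfold ps
  rw [f1, f2]
  simp only
  rw [hA]

end Pool.Agent.TH103.BL
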